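import Pool.Agent.Work.MP_55ff09_co.CL.Defs

/-!
# MP_55ff09_co, block GC (grid with a clique on its first row): definitions

`Touch`, `Anti`, `DegLe`, `IsInducedMinor`, `cmp` are in `Pool.Agent.IM55`; `opN` (outer
neighbourhood), `clN`, `IP` (induced path), `rng`, `Cr` (connector), `Fm` are in
`Pool.Agent.IM55.PL`; `KM` (model of a complete graph), `Sm` (small sets) are in
`Pool.Agent.IM55.CL`.
-/

set_option autoImplicit false

namespace Pool.Agent.IM55.GC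

open SimpleGraph Pool.Agent.IM55 Pool.Agent.IM55.PL Pool.Agent.IM55.CL

variable {V W : Type}

/-- adjacency in the grid `ℕ × ℕ` -/
def Nb (p q : ℕ × ℕ) : Prop :=
  (p.1 = q.1 ∧ (p.2 + 1 = q.2 ∨ q.2 + 1 = p.2)) ∨ (p.2 = q.2 ∧ (p.1 + 1 = q.1 ∨ q.1 + 1 = p.1))

/-- the infinite grid graph; `(x, y)` is in row `x` and column `y` -/
def ngr : SimpleGraph (ℕ × ℕ) where
  Adj := Nb
  symm := ⟨by
    intro p q h
    unfold Nb at *
    omega⟩
  loopless := ⟨by
    intro p h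
    unfold Nb at h
    omega⟩

/-- the `k × k` grid together with a clique with `k` vertices `inl j`; `inl j` is adjacent to the
`j`-th vertex of the first row of the grid -/
def Qk (k : ℕ) : SimpleGraph (Fin k ⊕ (Fin k × Fin k)) where
  Adj p r := match p, r with
    | Sum.inl i, Sum.inl j => i ≠ j
    | Sum.inl i, Sum.inr q => (q.1 : ℕ) = 0 ∧ q.2 = i
    | Sum.inr q, Sum.inl i => (q.1 : ℕ) = 0 ∧ q.2 = i
    | Sum.inr q, Sum.inr q' => Nb ((q.1 : ℕ), (q.2 : ℕ)) ((q'.1 : ℕ), (q'.2 : ℕ))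
  symm := ⟨by
    rintro (i | q) (j | q') h
    · exact fun e => h e.symm
    · exact h
    · exact h
    · unfold Nb at *
      simp only at *
      omega⟩
  loopless := ⟨by
    rintro (i | q) h
    · exact h rfl
    · unfold Nb at h
      simp only at h
      omega⟩

/-- `X` is an induced minor model of `H` in `G` -/
structure Mdl (H : SimpleGraph W) (G : SimpleGraph V) (X : W → Set V) : Prop where
  conn : ∀ h, (G.induce (X h)).Connected
  dis : ∀ h h', h ≠ h' → Disjoint (X h) (X h')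
  adj : ∀ h h', h ≠ h' → (H.Adj h h' ↔ Touch G (X h) (X h'))

/-- the cells `U x y`, `x, y < N`, form an induced minor model of the `N × N` grid -/
structure Gd (G : SimpleGraph V) (N : ℕ) (U : ℕ → ℕ → Set V) : Prop where
  conn : ∀ x < N, ∀ y < N, (G.induce (U x y)).Connected
  dis : ∀ x < N, ∀ y < N, ∀ x' < N, ∀ y' < N, (x, y) ≠ (x', y') → Disjoint (U x y) (U x' y')
  adj : ∀ x < N, ∀ y < N, ∀ x' < N, ∀ y' < N, (x, y) ≠ (x', y') →
    (Touch G (U x y) (U x' y') ↔ Nb (x, y) (x', y'))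

/-- `X` has cost at most `b`: it is contained in a small set with at most `b` boundary vertices.
(`X` is *heavy* for `a` if `¬ Ch G I A X a`.) -/
def Ch (G : SimpleGraph V) (I : Finset ℕ) (A : ℕ → Set V) (X : Set V) (b : ℕ) : Prop :=
  ∃ R, X ⊆ R ∧ Sm G I A R ∧ (opN G R).ncard ≤ b

/-- `P i`, `i < r`, is a partition of `W` into connected sets of cost more than `a` and at most `b` -/
structure Pt (G : SimpleGraph V) (I : Finset ℕ) (A : ℕ → Set V) (a b : ℕ) (W : Set V) (r : ℕ)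
    (P : ℕ → Set V) : Prop where
  conn : ∀ i < r, (G.induce (P i)).Connected
  dis : ∀ i < r, ∀ j < r, i ≠ j → Disjoint (P i) (P j)
  cov : ∀ v, v ∈ W ↔ ∃ i < r, v ∈ P i
  lo : ∀ i < r, ¬ Ch G I A (P i) a
  up : ∀ i < r, Ch G I A (P i) b

/-- the quotient graph of the sets `P i`, `i < r` -/
def qt (G : SimpleGraph V) (r : ℕ) (P : ℕ → Set V) : SimpleGraph (Fin r) where
  Adj i j := i ≠ j ∧ Touch G (P i) (P j)
  symm := ⟨fun _ _ h => ⟨fun e => h.1 e.symm, h.2.symm⟩⟩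
  loopless := ⟨fun _ h => h.1 rfl⟩

/-- `p` pairwise disjoint connected subsets of `R`, heavy for `a` -/
structure Fh (G : SimpleGraph V) (I : Finset ℕ) (A : ℕ → Set V) (a : ℕ) (R : Set V) (p : ℕ)
    (X : ℕ → Set V) : Prop where
  conn : ∀ i < p, (G.induce (X i)).Connected
  dis : ∀ i < p, ∀ j < p, i ≠ j → Disjoint (X i) (X j)
  sub : ∀ i < p, X i ⊆ R
  lo : ∀ i < p, ¬ Ch G I A (X i) a

/-- no set of at most `g` vertices separates two of the sets `X i` in `G[R ∪ opN G R]` -/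
def Unsep (G : SimpleGraph V) (R : Set V) (g p : ℕ) (X : ℕ → Set V) : Prop :=
  ∀ S : Set V, S.ncard ≤ g → ∀ i < p, ∀ j < p, Disjoint (X i) S → Disjoint (X j) S →
    ∃ C, (G.induce C).Connected ∧ C ⊆ (R ∪ opN G R) \ S ∧ X i ⊆ C ∧ X j ⊆ C

/-- the union of the cells in `Q` -/
def UQ (U : ℕ → ℕ → Set V) (Q : Set (ℕ × ℕ)) : Set V := {v | ∃ q ∈ Q, v ∈ U q.1 q.2}

/-- the block of size `n` with corner `(x₀, y₀)` -/
def Bk (x₀ y₀ n : ℕ) : Finset (ℕ × ℕ) := Finset.Ico x₀ (x₀ + n) ×ˢ Finset.Ico y₀ (y₀ + n)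

/-- `K` pairwise disjoint induced paths in `O` which start in `Z`, avoid all cells in `Q`, and whose
last vertices touch different cells `α c ∈ Q` -/
structure Rt (G : SimpleGraph V) (O Z : Set V) (Q : Finset (ℕ × ℕ)) (U : ℕ → ℕ → Set V) (K : ℕ)
    (w : ℕ → ℕ → V) (l : ℕ → ℕ) (α : ℕ → ℕ × ℕ) : Prop where
  ip : ∀ c < K, IP G (w c) (l c)
  sub : ∀ c < K, rng (w c) (l c) ⊆ O
  z : ∀ c < K, w c 0 ∈ Z
  mem : ∀ c < K, α c ∈ Q
  foot : ∀ c < K, Touch G {w c (l c)} (U (α c).1 (α c).2)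
  off : ∀ c < K, Disjoint (rng (w c) (l c)) (UQ U Q)
  dis : ∀ c < K, ∀ c' < K, c ≠ c' → Disjoint (rng (w c) (l c)) (rng (w c') (l c'))
  inj : ∀ c < K, ∀ c' < K, c ≠ c' → α c ≠ α c'

/-- `T` and the cells in `Q'` separate `Z` from the cells in `Q` inside `O` -/
structure Sp (G : SimpleGraph V) (O Z : Set V) (Q : Finset (ℕ × ℕ)) (U : ℕ → ℕ → Set V) (K : ℕ)
    (T : Set V) (Q' : Finset (ℕ × ℕ)) : Prop where
  off : Disjoint T (UQ U Q)
  sub : Q' ⊆ Q
  card : T.ncard + Q'.card < K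
  sep : ∀ C ⊆ O, (G.induce C).Connected → Disjoint C T → Disjoint C (UQ U Q') →
    (C ∩ Z).Nonempty → Disjoint C (UQ U Q)

open Classical in
/-- the cells in `Q` touched by `T` -/
noncomputable def tch (G : SimpleGraph V) (Q : Finset (ℕ × ℕ)) (U : ℕ → ℕ → Set V) (T : Set V) :
    Finset (ℕ × ℕ) :=
  Q.filter fun q => Touch G T (U q.1 q.2)

/-- pairwise disjoint connected sets of cells `L j`, `j < k`, in the rectangle with rows `< r` and
columns `< n`; `L j` contains `b j` and has exactly one cell in the last row, the one in column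
`c j`; the columns `c j` are increasing -/
structure Ro (r n k : ℕ) (b : ℕ → ℕ × ℕ) (L : ℕ → Set (ℕ × ℕ)) (c : ℕ → ℕ) : Prop where
  conn : ∀ j < k, (ngr.induce (L j)).Connected
  sub : ∀ j < k, ∀ q ∈ L j, q.1 < r ∧ q.2 < n
  mem : ∀ j < k, b j ∈ L j
  bot : ∀ j < k, (r - 1, c j) ∈ L j
  row : ∀ j < k, ∀ q ∈ L j, q.1 + 1 = r → q.2 = c j
  dis : ∀ j < k, ∀ j' < k, j ≠ j' → Disjoint (L j) (L j')
  inc : ∀ j < k, ∀ j' < k, j < j' → c j < c j'

/-- `K` is a clique of `H`, and `B v`, `v ∉ K`, is an induced minor model of `H - K` in the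
`n × n` grid in which the branch set of every vertex adjacent to `K` meets the first row -/
structure Hp {m : ℕ} (H : SimpleGraph (Fin m)) (K : Set (Fin m)) (n : ℕ)
    (B : Fin m → Set (ℕ × ℕ)) : Prop where
  clq : ∀ u ∈ K, ∀ v ∈ K, u ≠ v → H.Adj u v
  sub : ∀ v ∉ K, ∀ q ∈ B v, q.1 < n ∧ q.2 < n
  conn : ∀ v ∉ K, (ngr.induce (B v)).Connected
  dis : ∀ u ∉ K, ∀ v ∉ K, u ≠ v → Disjoint (B u) (B v)
  adj : ∀ u ∉ K, ∀ v ∉ K, u ≠ v → (H.Adj u v ↔ ∃ p ∈ B u, ∃ q ∈ B v, Nb p q)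
  row : ∀ u ∈ K, ∀ v ∉ K, H.Adj u v → ∃ y, (0, y) ∈ B v

end Pool.Agent.IM55.GC
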