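import Pool.Agent.Work.MP_55ff09_co.GC.Stmts

/-!
# Block GC, item ASQ: assembly
-/

set_option autoImplicit false

namespace Pool.Agent.IM55.GC

open SimpleGraph Pool.Agent.IM55 Pool.Agent.IM55.PL Pool.Agent.IM55.CL

namespace XASQ

/-- an injective list of the elements of a finite set of natural numbers -/
lemma list (s : Finset ℕ) : ∃ e : ℕ → ℕ, (∀ i < s.card, e i ∈ s) ∧
    ∀ i < s.card, ∀ j < s.card, i ≠ j → e i ≠ e j := by
  classical
  let f := s.orderEmbOfFin rfl
  refine ⟨fun i => if h : i < s.card then f ⟨i, h⟩ else 0, ?_, ?_⟩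
  · intro i hi
    simp only [dif_pos hi]
    exact s.orderEmbOfFin_mem rfl _
  · intro i hi j hj hij
    simp only [dif_pos hi, dif_pos hj]
    intro h
    have := f.injective h
    exact hij (Fin.mk.inj_iff.1 this)

/-- a band of rows without elements of `F` -/
lemma band (k M : ℕ) (F : Finset (ℕ × ℕ)) (hF : F.card ≤ M) :
    ∃ r, r + k ≤ k * (M + 1) ∧ ∀ q ∈ F, q.1 < r ∨ r + k ≤ q.1 := by
  classical
  have hc : (F.image fun q => q.1 / k).card < (Finset.range (M + 1)).card := by
    rw [Finset.card_range]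
    exact lt_of_le_of_lt (Finset.card_image_le.trans hF) (Nat.lt_succ_self M)
  obtain ⟨i, hi, hiF⟩ := Finset.exists_mem_notMem_of_card_lt_card hc
  rw [Finset.mem_range] at hi
  refine ⟨k * i, ?_, ?_⟩
  · calc k * i + k = k * (i + 1) := by ring
      _ ≤ k * (M + 1) := Nat.mul_le_mul_left k hi
  · intro q hq
    by_contra hcon
    push Not at hcon
    obtain ⟨h1, h2⟩ := hcon
    apply hiF
    rw [Finset.mem_image]
    refine ⟨q, hq, ?_⟩
    apply Nat.div_eq_of_lt_le
    · rw [mul_comm]; exact h1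
    · calc q.1 < k * i + k := h2
        _ = (i + 1) * k := by ring

/-- the subfamily version of ASR -/
lemma sub (hA : S_ASR) {V : Type} [Finite V] (G : SimpleGraph V) (n k K r : ℕ)
    (U : ℕ → ℕ → Set V) (T : ℕ → Set V) (β : ℕ → ℕ × ℕ) (hU : Gd G n U) (hk : 1 ≤ k)
    (hn : 2 * k ≤ n) (hr : r + k ≤ n) (s : Finset ℕ) (hs : s ⊆ Finset.range K)
    (hsc : (k - 1) ^ 2 < s.card)
    (hT : ∀ c < K, (G.induce (T c)).Connected)
    (hTT : ∀ c < K, ∀ c' < K, c ≠ c' → Disjoint (T c) (T c') ∧ Touch G (T c) (T c') ∧ β c ≠ β c')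
    (hTU : ∀ c < K, ∀ x < n, ∀ y < n, Disjoint (T c) (U x y))
    (hβ : ∀ c ∈ s, (β c).1 < r ∧ (β c).2 < n ∧ Touch G (T c) (U (β c).1 (β c).2))
    (hno : ∀ c < K, ∀ x < n, ∀ y < n, r ≤ x → x < r + k → ¬ Touch G (T c) (U x y)) :
    IsInducedMinor (Qk k) G := by
  obtain ⟨e, he, hinj⟩ := list s
  have hK : ∀ i < s.card, e i < K := fun i hi => Finset.mem_range.1 (hs (he i hi))
  refine hA G n k s.card r U (fun i => T (e i)) (fun i => β (e i)) hU hk hn hr ?_ ?_ ?_ ?_ ?_ hsc
  · intro c hc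
    exact hT _ (hK c hc)
  · intro c hc c' hc' hne
    exact hTT _ (hK c hc) _ (hK c' hc') (hinj c hc c' hc' hne)
  · intro c hc
    exact hTU _ (hK c hc)
  · intro c hc
    exact hβ _ (he c hc)
  · intro c hc
    exact hno _ (hK c hc)

end XASQ

theorem i_ASQ (hA : S_ASR) (hS : S_SHF) : S_ASQ := by
  classical
  intro V _ G n k K M U T β hU hk hn hM hK hT hTT hTU hβ hF
  obtain ⟨r, hr, hband⟩ := XASQ.band k M _ hF
  have hrn : r + k ≤ n := hr.trans hM
  have hTU' : ∀ c < K, ∀ x < n, ∀ y < n, Disjoint (T c) (U x y) := by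
    intro c hc x hx y hy
    refine Set.disjoint_left.2 fun v hv hv' => ?_
    refine Set.disjoint_left.1 (hTU c hc) hv ?_
    refine ⟨(x, y), ?_, hv'⟩
    simp only [Bk, Finset.coe_product, Finset.coe_Ico, Set.mem_prod, Set.mem_Ico]
    omega
  have hno : ∀ c < K, ∀ x < n, ∀ y < n, Touch G (T c) (U x y) → x < r ∨ r + k ≤ x := by
    intro c hc x hx y hy ht
    refine hband (x, y) ?_
    rw [Finset.mem_biUnion]
    refine ⟨c, Finset.mem_range.2 hc, ?_⟩
    unfold tch
    rw [Finset.mem_filter]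
    refine ⟨?_, ht⟩
    simp only [Bk, Finset.mem_product, Finset.mem_Ico]
    omega
  have hβ' : ∀ c < K, (β c).1 < n ∧ (β c).2 < n ∧ Touch G (T c) (U (β c).1 (β c).2) := by
    intro c hc
    have h := hβ c hc
    unfold tch at h
    rw [Finset.mem_filter] at h
    obtain ⟨h1, h2⟩ := h
    simp only [Bk, Finset.mem_product, Finset.mem_Ico] at h1
    refine ⟨by omega, by omega, h2⟩
  set s₁ : Finset ℕ := (Finset.range K).filter fun c => (β c).1 < r with hs₁
  set s₂ : Finset ℕ := (Finset.range K).filter fun c => r + k ≤ (β c).1 with hs₂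
  have hcard : K ≤ s₁.card + s₂.card := by
    have : Finset.range K ⊆ s₁ ∪ s₂ := by
      intro c hc
      have hc' := Finset.mem_range.1 hc
      have := hno c hc' _ (hβ' c hc').1 _ (hβ' c hc').2.1 (hβ' c hc').2.2
      rw [Finset.mem_union, hs₁, hs₂, Finset.mem_filter, Finset.mem_filter]
      tauto
    have h2 := (Finset.card_le_card this).trans (Finset.card_union_le _ _)
    rwa [Finset.card_range] at h2
  by_cases h1 : (k - 1) ^ 2 < s₁.card
  · refine XASQ.sub hA G n k K r U T β hU hk hn hrn s₁ (Finset.filter_subset _ _) h1 hT hTT hTU'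
      ?_ ?_
    · intro c hc
      rw [hs₁, Finset.mem_filter, Finset.mem_range] at hc
      exact ⟨hc.2, (hβ' c hc.1).2.1, (hβ' c hc.1).2.2⟩
    · intro c hc x hx y hy hrx hxr ht
      rcases hno c hc x hx y hy ht with h | h <;> omega
  · have h2 : (k - 1) ^ 2 < s₂.card := by
      have : 2 * (k - 1) ^ 2 < s₁.card + s₂.card := lt_of_lt_of_le hK hcard
      omega
    have hU' : Gd G n fun x y => U (n - 1 - x) y :=
      (hS G n n 0 0 U hU (by omega) (by omega)).2
    refine XASQ.sub hA G n k K (n - r - k) (fun x y => U (n - 1 - x) y) T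
      (fun c => (n - 1 - (β c).1, (β c).2)) hU' hk hn (by omega) s₂ (Finset.filter_subset _ _) h2
      hT ?_ ?_ ?_ ?_
    · intro c hc c' hc' hne
      obtain ⟨a1, a2, a3⟩ := hTT c hc c' hc' hne
      refine ⟨a1, a2, fun h => a3 ?_⟩
      have b1 := (hβ' c hc).1
      have b2 := (hβ' c' hc').1
      rw [Prod.mk.injEq] at h
      exact Prod.ext (by omega) h.2
    · intro c hc x hx y hy
      exact hTU' c hc _ (by omega) _ hy
    · intro c hc
      rw [hs₂, Finset.mem_filter, Finset.mem_range] at hc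
      obtain ⟨hcK, hcr⟩ := hc
      obtain ⟨b1, b2, b3⟩ := hβ' c hcK
      refine ⟨by simp only; omega, b2, ?_⟩
      have : n - 1 - (n - 1 - (β c).1) = (β c).1 := by omega
      simp only [this]
      exact b3
    · intro c hc x hx y hy hrx hxr ht
      rcases hno c hc (n - 1 - x) (by omega) y hy ht with h | h <;> omega

end Pool.Agent.IM55.GC
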