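import Pool.Agent.Work.MP_55ff09_co.GC.Stmts

/-!
# MP_55ff09_co, block GC, item ASR: assembly, one side
-/

set_option autoImplicit false

namespace Pool.Agent.IM55.GC

open SimpleGraph Pool.Agent.IM55 Pool.Agent.IM55.PL Pool.Agent.IM55.CL

namespace XASR

variable {V : Type}

theorem uq_dis {G : SimpleGraph V} {N : ℕ} {U : ℕ → ℕ → Set V} (hU : Gd G N U)
    {Q Q' : Set (ℕ × ℕ)} (hQ : ∀ q ∈ Q, q.1 < N ∧ q.2 < N) (hQ' : ∀ q ∈ Q', q.1 < N ∧ q.2 < N)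
    (h : ∀ q ∈ Q, q ∉ Q') : Disjoint (UQ U Q) (UQ U Q') := by
  refine Set.disjoint_left.2 ?_
  rintro v ⟨p, hp, hv⟩ ⟨q, hq, hv'⟩
  have hne : p ≠ q := fun e => h p hp (e ▸ hq)
  exact Set.disjoint_left.1 (hU.dis p.1 (hQ p hp).1 p.2 (hQ p hp).2 q.1 (hQ' q hq).1 q.2
    (hQ' q hq).2 hne) hv hv'

theorem uq_touch {G : SimpleGraph V} {N : ℕ} {U : ℕ → ℕ → Set V} (hU : Gd G N U)
    {Q Q' : Set (ℕ × ℕ)} (hQ : ∀ q ∈ Q, q.1 < N ∧ q.2 < N) (hQ' : ∀ q ∈ Q', q.1 < N ∧ q.2 < N)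
    (h : ∀ q ∈ Q, q ∉ Q') :
    Touch G (UQ U Q) (UQ U Q') ↔ ∃ p ∈ Q, ∃ q ∈ Q', Nb p q := by
  constructor
  · rintro ⟨x, ⟨p, hp, hx⟩, y, ⟨q, hq, hy⟩, hxy⟩
    have hne : p ≠ q := fun e => h p hp (e ▸ hq)
    exact ⟨p, hp, q, hq, (hU.adj p.1 (hQ p hp).1 p.2 (hQ p hp).2 q.1 (hQ' q hq).1 q.2
      (hQ' q hq).2 hne).1 ⟨x, hx, y, hy, hxy⟩⟩
  · rintro ⟨p, hp, q, hq, hn⟩
    have hne : p ≠ q := fun e => h p hp (e ▸ hq)
    obtain ⟨x, hx, y, hy, hxy⟩ := (hU.adj p.1 (hQ p hp).1 p.2 (hQ p hp).2 q.1 (hQ' q hq).1 q.2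
      (hQ' q hq).2 hne).2 hn
    exact ⟨x, ⟨p, hp, hx⟩, y, ⟨q, hq, hy⟩, hxy⟩

theorem touch_union {G : SimpleGraph V} {X X' Y : Set V} :
    Touch G (X ∪ X') Y ↔ Touch G X Y ∨ Touch G X' Y := by
  constructor
  · rintro ⟨x, hx | hx, y, hy, h⟩
    · exact Or.inl ⟨x, hx, y, hy, h⟩
    · exact Or.inr ⟨x, hx, y, hy, h⟩
  · rintro (⟨x, hx, y, hy, h⟩ | ⟨x, hx, y, hy, h⟩)
    · exact ⟨x, Or.inl hx, y, hy, h⟩
    · exact ⟨x, Or.inr hx, y, hy, h⟩

/-- the column borders -/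
def gm (k : ℕ) (γ : ℕ → ℕ) (j : ℕ) : ℕ := if j < k then γ j else γ (k - 1) + 1

theorem gm_lt {k : ℕ} {γ : ℕ → ℕ} (hγ : ∀ j < k, ∀ j' < k, j < j' → γ j < γ j') {j j' : ℕ}
    (h : j < j') (hk : j' ≤ k) : gm k γ j < gm k γ j' := by
  unfold gm
  have h1 : j < k := by omega
  rw [if_pos h1]
  by_cases h2 : j' < k
  · rw [if_pos h2]
    exact hγ j h1 j' h2 h
  · rw [if_neg h2]
    by_cases h3 : j = k - 1
    · subst h3
      omega
    · have := hγ j h1 (k - 1) (by omega) (by omega)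
      omega

/-- the positions of the branch set of the grid vertex `(i, j)` -/
def rc (r k : ℕ) (γ : ℕ → ℕ) (i j : ℕ) : Set (ℕ × ℕ) :=
  {q : ℕ × ℕ | r + i ≤ q.1 ∧ q.1 < r + i + 1 ∧ gm k γ j ≤ q.2 ∧ q.2 < gm k γ (j + 1)}

/-- the column intervals with indices `j`, `j'` are disjoint -/
theorem gm_eq {k : ℕ} {γ : ℕ → ℕ} (hγ : ∀ j < k, ∀ j' < k, j < j' → γ j < γ j') {j j' x : ℕ}
    (hj : j < k) (hj' : j' < k) (h1 : gm k γ j ≤ x) (h2 : x < gm k γ (j + 1))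
    (h3 : gm k γ j' ≤ x) (h4 : x < gm k γ (j' + 1)) : j = j' := by
  rcases lt_trichotomy j j' with h | h | h
  · exfalso
    by_cases e : j + 1 = j'
    · rw [e] at h2
      omega
    · have := gm_lt hγ (j := j + 1) (j' := j') (by omega) (by omega)
      omega
  · exact h
  · exfalso
    by_cases e : j' + 1 = j
    · rw [e] at h4
      omega
    · have := gm_lt hγ (j := j' + 1) (j' := j) (by omega) (by omega)
      omega

/-- consecutive columns in the intervals with indices `j ≠ j'` -/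
theorem gm_succ {k : ℕ} {γ : ℕ → ℕ} (hγ : ∀ j < k, ∀ j' < k, j < j' → γ j < γ j') {j j' x : ℕ}
    (hj : j < k) (hj' : j' < k) (h1 : gm k γ j ≤ x) (h2 : x < gm k γ (j + 1))
    (h3 : gm k γ j' ≤ x + 1) (h4 : x + 1 < gm k γ (j' + 1)) : j = j' ∨ j + 1 = j' := by
  rcases lt_trichotomy j j' with h | h | h
  · right
    by_contra e
    have h5 := gm_lt hγ (j := j + 1) (j' := j') (by omega) (by omega)
    omega
  · exact Or.inl h
  · exfalso
    by_cases e : j' + 1 = j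
    · rw [e] at h4
      omega
    · have := gm_lt hγ (j := j' + 1) (j' := j) (by omega) (by omega)
      omega

theorem rc_nb {r k : ℕ} {γ : ℕ → ℕ} (hγ : ∀ j < k, ∀ j' < k, j < j' → γ j < γ j') {i j i' j' : ℕ}
    (hj : j < k) (hj' : j' < k) (hne : (i, j) ≠ (i', j')) :
    (∃ p ∈ rc r k γ i j, ∃ q ∈ rc r k γ i' j', Nb p q) ↔ Nb (i, j) (i', j') := by
  constructor
  · rintro ⟨⟨x, y⟩, ⟨h1, h2, h3, h4⟩, ⟨x', y'⟩, ⟨h1', h2', h3', h4'⟩, hn⟩
    simp only at h1 h2 h3 h4 h1' h2' h3' h4'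
    unfold Nb at hn ⊢
    simp only at hn ⊢
    rcases hn with ⟨e, h | h⟩ | ⟨e, h | h⟩
    · subst h
      have hi : i = i' := by omega
      rcases gm_succ hγ hj hj' h3 h4 h3' h4' with e1 | e1
      · exact absurd (by rw [hi, e1]) hne
      · exact Or.inl ⟨hi, Or.inl e1⟩
    · subst h
      have hi : i = i' := by omega
      rcases gm_succ hγ hj' hj h3' h4' h3 h4 with e1 | e1
      · exact absurd (by rw [hi, e1]) hne
      · exact Or.inl ⟨hi, Or.inr e1⟩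
    · subst e
      have hj1 := gm_eq hγ hj hj' h3 h4 h3' h4'
      exact Or.inr ⟨hj1, Or.inl (by omega)⟩
    · subst e
      have hj1 := gm_eq hγ hj hj' h3 h4 h3' h4'
      exact Or.inr ⟨hj1, Or.inr (by omega)⟩
  · intro hn
    unfold Nb at hn
    simp only at hn
    rcases hn with ⟨e, h | h⟩ | ⟨e, h | h⟩
    · subst h
      subst e
      have h5 := gm_lt hγ (j := j) (j' := j + 1) (by omega) (by omega)
      have h6 := gm_lt hγ (j := j + 1) (j' := j + 1 + 1) (by omega) (by omega)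
      refine ⟨(r + i, gm k γ (j + 1) - 1), ⟨?_, ?_, ?_, ?_⟩, (r + i, gm k γ (j + 1)),
        ⟨?_, ?_, ?_, ?_⟩, Or.inl ⟨rfl, Or.inl ?_⟩⟩ <;> simp only <;> omega
    · subst h
      subst e
      have h5 := gm_lt hγ (j := j') (j' := j' + 1) (by omega) (by omega)
      have h6 := gm_lt hγ (j := j' + 1) (j' := j' + 1 + 1) (by omega) (by omega)
      refine ⟨(r + i, gm k γ (j' + 1)), ⟨?_, ?_, ?_, ?_⟩, (r + i, gm k γ (j' + 1) - 1),
        ⟨?_, ?_, ?_, ?_⟩, Or.inl ⟨rfl, Or.inr ?_⟩⟩ <;> simp only <;> omega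
    · subst e
      subst h
      have h5 := gm_lt hγ (j := j) (j' := j + 1) (by omega) (by omega)
      refine ⟨(r + i, gm k γ j), ⟨?_, ?_, ?_, ?_⟩, (r + (i + 1), gm k γ j),
        ⟨?_, ?_, ?_, ?_⟩, Or.inr ⟨rfl, Or.inl ?_⟩⟩ <;> simp only <;> omega
    · subst e
      subst h
      have h5 := gm_lt hγ (j := j) (j' := j + 1) (by omega) (by omega)
      refine ⟨(r + (i' + 1), gm k γ j), ⟨?_, ?_, ?_, ?_⟩, (r + i', gm k γ j),
        ⟨?_, ?_, ?_, ?_⟩, Or.inr ⟨rfl, Or.inr ?_⟩⟩ <;> simp only <;> omega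

end XASR

open XASR in
theorem i_ASR (hUQC : S_UQC) (hRCT : S_RCT) (hRTE : S_RTE) (hIMI : S_IMI) : S_ASR := by
  classical
  intro V _ G n k K r U T β hU hk1 hk2 hrk hT hTT hTU hβ hno hK
  -- the set `F`
  have hinj : Set.InjOn β (Finset.range K : Set ℕ) := by
    intro c hc c' hc' h
    by_contra hne
    exact (hTT c (by simpa using hc) c' (by simpa using hc') hne).2.2 h
  have hFc : ((Finset.range K).image β).card = K := by
    rw [Finset.card_image_of_injOn hinj, Finset.card_range]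
  obtain ⟨b, L, γ, hRo, hbF⟩ := hRTE r n k ((Finset.range K).image β) hk1 hk2
    (by
      intro q hq
      obtain ⟨c, hc, rfl⟩ := Finset.mem_image.1 hq
      have := hβ c (Finset.mem_range.1 hc)
      exact ⟨this.1, this.2.1⟩)
    (by rw [hFc]; exact hK)
  have hex : ∀ j, ∃ c, j < k → c < K ∧ β c = b j := by
    intro j
    by_cases hj : j < k
    · obtain ⟨c, hc, h⟩ := Finset.mem_image.1 (hbF j hj)
      exact ⟨c, fun _ => ⟨Finset.mem_range.1 hc, h⟩⟩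
    · exact ⟨0, fun h => absurd h hj⟩
  choose cc hcc using hex
  have hccne : ∀ j < k, ∀ j' < k, j ≠ j' → cc j ≠ cc j' := by
    intro j hj j' hj' hne e
    have h1 : b j = b j' := by rw [← (hcc j hj).2, ← (hcc j' hj').2, e]
    have h2 := hRo.mem j hj
    have h3 := hRo.mem j' hj'
    rw [← h1] at h3
    exact Set.disjoint_left.1 (hRo.dis j hj j' hj' hne) h2 h3
  have hγ := hRo.inc
  have hLb : ∀ j < k, ∀ q ∈ L j, q.1 < n ∧ q.2 < n := by
    intro j hj q hq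
    have := hRo.sub j hj q hq
    exact ⟨by omega, this.2⟩
  have hr0 : 0 < r := by
    have := (hRo.sub 0 (by omega) _ (hRo.bot 0 (by omega))).1
    omega
  have hγn : ∀ j < k, γ j < n := fun j hj => (hRo.sub j hj _ (hRo.bot j hj)).2
  have hgmn : ∀ j ≤ k, gm k γ j ≤ n := by
    intro j hj
    unfold gm
    split_ifs with h
    · exact (hγn j h).le
    · exact hγn (k - 1) (by omega)
  have hrcb : ∀ i < k, ∀ j < k, ∀ q ∈ rc r k γ i j, q.1 < n ∧ q.2 < n := by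
    intro i hi j hj q hq
    obtain ⟨h1, h2, h3, h4⟩ := hq
    have := hgmn (j + 1) (by omega)
    exact ⟨by omega, by omega⟩
  have hLrc : ∀ j < k, ∀ i < k, ∀ j' < k, ∀ q ∈ L j, q ∉ rc r k γ i j' := by
    intro j hj i hi j' hj' q hq hq'
    have := (hRo.sub j hj q hq).1
    obtain ⟨h1, -⟩ := hq'
    omega
  have hrcrc : ∀ i < k, ∀ j < k, ∀ i' < k, ∀ j' < k, (i, j) ≠ (i', j') →
      ∀ q ∈ rc r k γ i j, q ∉ rc r k γ i' j' := by
    intro i hi j hj i' hi' j' hj' hne q hq hq'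
    obtain ⟨h1, h2, h3, h4⟩ := hq
    obtain ⟨h1', h2', h3', h4'⟩ := hq'
    apply hne
    rw [gm_eq hγ hj hj' h3 h4 h3' h4', show i = i' by omega]
  have hTUQ : ∀ c < K, ∀ Q : Set (ℕ × ℕ), (∀ q ∈ Q, q.1 < n ∧ q.2 < n) →
      Disjoint (T c) (UQ U Q) := by
    intro c hc Q hQ
    refine Set.disjoint_left.2 ?_
    rintro v hv ⟨q, hq, hv'⟩
    exact Set.disjoint_left.1 (hTU c hc q.1 (hQ q hq).1 q.2 (hQ q hq).2) hv hv'
  have hTrc : ∀ c < K, ∀ i < k, ∀ j < k, ¬ Touch G (T c) (UQ U (rc r k γ i j)) := by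
    rintro c hc i hi j hj ⟨x, hx, y, ⟨q, hq, hy⟩, hxy⟩
    have hb := hrcb i hi j hj q hq
    obtain ⟨h1, h2, h3, h4⟩ := hq
    exact hno c hc q.1 hb.1 q.2 hb.2 (by omega) (by omega) ⟨x, hx, y, hy, hxy⟩
  have hLrcT : ∀ j < k, ∀ i < k, ∀ j' < k,
      (Touch G (UQ U (L j)) (UQ U (rc r k γ i j')) ↔ i = 0 ∧ j' = j) := by
    intro j hj i hi j' hj'
    rw [uq_touch hU (hLb j hj) (hrcb i hi j' hj') (hLrc j hj i hi j' hj')]
    constructor
    · rintro ⟨p, hp, q, ⟨h1, h2, h3, h4⟩, hn⟩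
      have hp1 := (hRo.sub j hj p hp).1
      unfold Nb at hn
      have h5 : p.2 = q.2 ∧ p.1 + 1 = q.1 := by omega
      have h6 := hRo.row j hj p hp (by omega)
      refine ⟨by omega, ?_⟩
      have h7 : gm k γ j ≤ q.2 := by
        unfold gm
        rw [if_pos hj]
        omega
      have h8 : q.2 < gm k γ (j + 1) := by
        have h9 := gm_lt hγ (j := j) (j' := j + 1) (by omega) (by omega)
        have h10 : gm k γ j = γ j := by
          unfold gm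
          rw [if_pos hj]
        omega
      exact gm_eq hγ hj' hj h3 h4 h7 h8
    · rintro ⟨rfl, rfl⟩
      have h9 := gm_lt hγ (j := j') (j' := j' + 1) (by omega) (by omega)
      have h10 : gm k γ j' = γ j' := by
        unfold gm
        rw [if_pos hj]
      refine ⟨(r - 1, γ j'), hRo.bot j' hj, (r, γ j'), ⟨?_, ?_, ?_, ?_⟩, Or.inr ⟨rfl, Or.inl ?_⟩⟩ <;>
        simp only <;> omega
  -- the model
  rw [hIMI]
  let X : Fin k ⊕ (Fin k × Fin k) → Set V := fun s => match s with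
    | Sum.inl j => T (cc j) ∪ UQ U (L j)
    | Sum.inr q => UQ U (rc r k γ q.1 q.2)
  refine ⟨X, ⟨?_, ?_, ?_⟩⟩
  · rintro (j | ⟨i, j⟩)
    · show (G.induce (T (cc j) ∪ UQ U (L j))).Connected
      have h1 := hcc j j.2
      refine conn_union (hT _ h1.1) (hUQC G n U (L j) hU (hLb j j.2) (hRo.conn j j.2)) ?_
      obtain ⟨x, hx, y, hy, h⟩ := (hβ _ h1.1).2.2
      refine ⟨x, hx, y, ⟨b j, hRo.mem j j.2, ?_⟩, h⟩
      rw [← h1.2]
      exact hy
    · show (G.induce (UQ U (rc r k γ i j))).Connected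
      refine hUQC G n U _ hU (hrcb i i.2 j j.2) ?_
      exact hRCT (r + i) (r + i + 1) (gm k γ j) (gm k γ (j + 1)) (by omega)
        (gm_lt hγ (by omega) (by have := j.2; omega))
  · rintro (j | ⟨i, j⟩) (j' | ⟨i', j'⟩) hne
    · have hne' : (j : ℕ) ≠ j' := fun e => hne (by rw [Fin.ext e])
      show Disjoint (T (cc j) ∪ UQ U (L j)) (T (cc j') ∪ UQ U (L j'))
      have h1 := hcc j j.2
      have h2 := hcc j' j'.2
      rw [Set.disjoint_union_left, Set.disjoint_union_right, Set.disjoint_union_right]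
      refine ⟨⟨(hTT _ h1.1 _ h2.1 (hccne j j.2 j' j'.2 hne')).1, hTUQ _ h1.1 _ (hLb j' j'.2)⟩,
        (hTUQ _ h2.1 _ (hLb j j.2)).symm, ?_⟩
      exact uq_dis hU (hLb j j.2) (hLb j' j'.2) fun q hq hq' =>
        Set.disjoint_left.1 (hRo.dis j j.2 j' j'.2 hne') hq hq'
    · show Disjoint (T (cc j) ∪ UQ U (L j)) (UQ U (rc r k γ i' j'))
      have h1 := hcc j j.2
      rw [Set.disjoint_union_left]
      exact ⟨hTUQ _ h1.1 _ (hrcb i' i'.2 j' j'.2),
        uq_dis hU (hLb j j.2) (hrcb i' i'.2 j' j'.2) (hLrc j j.2 i' i'.2 j' j'.2)⟩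
    · show Disjoint (UQ U (rc r k γ i j)) (T (cc j') ∪ UQ U (L j'))
      have h1 := hcc j' j'.2
      rw [Set.disjoint_union_right]
      exact ⟨(hTUQ _ h1.1 _ (hrcb i i.2 j j.2)).symm,
        (uq_dis hU (hLb j' j'.2) (hrcb i i.2 j j.2) (hLrc j' j'.2 i i.2 j j.2)).symm⟩
    · have hne' : ((i : ℕ), (j : ℕ)) ≠ ((i' : ℕ), (j' : ℕ)) := by
        intro e
        rw [Prod.mk.injEq] at e
        exact hne (by rw [Fin.ext e.1, Fin.ext e.2])
      show Disjoint (UQ U (rc r k γ i j)) (UQ U (rc r k γ i' j'))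
      exact uq_dis hU (hrcb i i.2 j j.2) (hrcb i' i'.2 j' j'.2)
        (hrcrc i i.2 j j.2 i' i'.2 j' j'.2 hne')
  · rintro (j | ⟨i, j⟩) (j' | ⟨i', j'⟩) hne
    · have hne' : (j : ℕ) ≠ j' := fun e => hne (by rw [Fin.ext e])
      show j ≠ j' ↔ Touch G (T (cc j) ∪ UQ U (L j)) (T (cc j') ∪ UQ U (L j'))
      have h1 := hcc j j.2
      have h2 := hcc j' j'.2
      refine ⟨fun _ => ?_, fun _ e => hne' (by rw [e])⟩
      exact (hTT _ h1.1 _ h2.1 (hccne j j.2 j' j'.2 hne')).2.1.mono Set.subset_union_left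
        Set.subset_union_left
    · show (i' : ℕ) = 0 ∧ j' = j ↔ Touch G (T (cc j) ∪ UQ U (L j)) (UQ U (rc r k γ i' j'))
      have h1 := hcc j j.2
      rw [touch_union, hLrcT j j.2 i' i'.2 j' j'.2]
      constructor
      · rintro ⟨h, rfl⟩
        exact Or.inr ⟨h, rfl⟩
      · rintro (h | h)
        · exact absurd h (hTrc _ h1.1 i' i'.2 j' j'.2)
        · exact ⟨h.1, Fin.ext h.2⟩
    · show (i : ℕ) = 0 ∧ j = j' ↔ Touch G (UQ U (rc r k γ i j)) (T (cc j') ∪ UQ U (L j'))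
      have h1 := hcc j' j'.2
      have hsw : Touch G (UQ U (rc r k γ i j)) (T (cc j') ∪ UQ U (L j')) ↔
          Touch G (T (cc j') ∪ UQ U (L j')) (UQ U (rc r k γ i j)) :=
        ⟨fun h => h.symm, fun h => h.symm⟩
      rw [hsw, touch_union, hLrcT j' j'.2 i i.2 j j.2]
      constructor
      · rintro ⟨h, rfl⟩
        exact Or.inr ⟨h, rfl⟩
      · rintro (h | h)
        · exact absurd h (hTrc _ h1.1 i i.2 j j.2)
        · exact ⟨h.1, Fin.ext h.2⟩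
    · have hne' : ((i : ℕ), (j : ℕ)) ≠ ((i' : ℕ), (j' : ℕ)) := by
        intro e
        rw [Prod.mk.injEq] at e
        exact hne (by rw [Fin.ext e.1, Fin.ext e.2])
      show Nb ((i : ℕ), (j : ℕ)) ((i' : ℕ), (j' : ℕ)) ↔
        Touch G (UQ U (rc r k γ i j)) (UQ U (rc r k γ i' j'))
      rw [uq_touch hU (hrcb i i.2 j j.2) (hrcb i' i'.2 j' j'.2)
        (hrcrc i i.2 j j.2 i' i'.2 j' j'.2 hne'), rc_nb hγ j.2 j'.2 hne']

end Pool.Agent.IM55.GC
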