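import Pool.Agent.Work.MP_55ff09_co.GC.Stmts
import Pool.Agent.Work.MP_cfa43e_lc.Bd.B05

/-!
# MP_55ff09_co, block GC, item BRB: brambles
-/

set_option autoImplicit false

namespace Pool.Agent.IM55.GC

open SimpleGraph Pool.Agent.IM55 Pool.Agent.IM55.PL Pool.Agent.IM55.CL

theorem i_BRB : S_BRB := by
  intro V _ G w C hG hC hI
  obtain ⟨T, t, bag, ht, hbag, hedge, hcard⟩ := hG
  have hN : ∀ S : {S : Set V // S.ncard ≤ w + 1},
      (t.induce {x | (bag x ∩ C S.1).Nonempty}).Connected := fun S =>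
    Pool.Agent.PReg.S2b G t bag hbag hedge (C S.1) (hC S.1 S.2).1
  have hNN : ∀ S S' : {S : Set V // S.ncard ≤ w + 1},
      ({x | (bag x ∩ C S.1).Nonempty} ∩ {x | (bag x ∩ C S'.1).Nonempty}).Nonempty := by
    intro S S'
    obtain ⟨v, hv, hv'⟩ := hI S.1 S'.1 S.2 S'.2
    obtain ⟨x, hx⟩ := (hbag v).nonempty
    exact ⟨x, ⟨v, hx, hv⟩, ⟨v, hx, hv'⟩⟩
  obtain ⟨x, hx⟩ := Pool.Agent.PReg.S2a t ht
    (fun S : {S : Set V // S.ncard ≤ w + 1} => {x | (bag x ∩ C S.1).Nonempty}) hN hNN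
  have hb : (bag x).ncard ≤ w + 1 := by
    have h1 : ((bag x).ncard : ℕ∞) = (bag x).encard := (Set.toFinite (bag x)).cast_ncard_eq
    have h2 := hcard x
    rw [← h1] at h2
    exact_mod_cast h2
  obtain ⟨v, hv, hv'⟩ := hx ⟨bag x, hb⟩
  exact Set.disjoint_left.1 (hC (bag x) hb).2 hv' hv

end Pool.Agent.IM55.GC
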