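import Pool.Agent.Work.MP_55ff09_co.GC.Stmts

/-!
# MP_55ff09_co, block GC, item CEN (helper92): an induced grid with heavy cells in a region of
bounded boundary
-/

set_option autoImplicit false

namespace Pool.Agent.IM55.GC

open SimpleGraph Pool.Agent.IM55 Pool.Agent.IM55.PL Pool.Agent.IM55.CL

namespace XCEN

variable {V : Type} {G : SimpleGraph V} {I : Finset ℕ} {A : ℕ → Set V}

theorem ch_mono {X Y : Set V} {b c : ℕ} (h : Ch G I A Y b) (hX : X ⊆ Y) (hb : b ≤ c) :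
    Ch G I A X c := by
  obtain ⟨R, h1, h2, h3⟩ := h
  exact ⟨R, hX.trans h1, h2, h3.trans hb⟩

/-- the cost of a region with its boundary -/
theorem ch_region [Finite V] (hUNI : S_UNI) (hUNF : S_UNF) (hSNG : S_SNG) (D m₁ : ℕ) (R : Set V)
    (hD : DegLe G D) (hK : KM G I A) (hR : Sm G I A R) (hop : (opN G R).ncard ≤ m₁)
    (h1 : m₁ * (D + 1) < I.card) (h2 : D + 1 < I.card) :
    Ch G I A (R ∪ opN G R) (m₁ * (D + 1)) := by
  classical
  have hfin : (opN G R).Finite := Set.toFinite _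
  set s : Finset V := hfin.toFinset with hs
  have hcard : s.card = (opN G R).ncard := (Set.ncard_eq_toFinset_card _ hfin).symm
  have hs1 : s.card ≤ m₁ := by rw [hcard]; exact hop
  have hmul : s.card * D ≤ m₁ * D := Nat.mul_le_mul_right D hs1
  have hexp : m₁ * (D + 1) = m₁ + m₁ * D := by ring
  have e : {v | ∃ i ∈ s, v ∈ ({i} : Set V)} = opN G R := by
    ext v
    constructor
    · rintro ⟨i, hi, hv⟩
      rw [Set.mem_singleton_iff] at hv
      subst hv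
      exact (Set.Finite.mem_toFinset hfin).mp hi
    · intro hv
      exact ⟨v, (Set.Finite.mem_toFinset hfin).mpr hv, rfl⟩
  have h3 : Ch G I A (opN G R) (s.card * D) := by
    have h := hUNF G I A s (fun i => ({i} : Set V)) D hK
      (fun i _ => hSNG G D I A i hD hK h2) (by omega)
    rw [e] at h
    exact h
  have h4 : Ch G I A R m₁ := ⟨R, subset_rfl, hR, hop⟩
  have h5 := hUNI G I A R (opN G R) m₁ (s.card * D) hK h4 h3 (by omega)
  exact ch_mono h5 subset_rfl (by omega)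

end XCEN

open XCEN

theorem i_CEN (hUNI : S_UNI) (hUNF : S_UNF) (hSNG : S_SNG) (hPRT : S_PRT) (hMRG : S_MRG)
    (hPCK : S_PCK) (hHVN : S_HVN) (hTWL : S_TWL) (hGRD : S_GRD) : S_CEN := by
  intro W _ H D a N
  obtain ⟨b₁, hb₁⟩ : ∃ b₁ : ℕ, b₁ = (D + 1) * a + D := ⟨_, rfl⟩
  obtain ⟨w, hw⟩ := hGRD N b₁
  obtain ⟨g, hg⟩ : ∃ g : ℕ, g = (w + 1) * b₁ := ⟨_, rfl⟩
  obtain ⟨m₁, hm₁⟩ := hPCK H D (2 * g + a) (3 * g)
  refine ⟨m₁ * (D + 1) + g + b₁ + 1, ?_⟩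
  intro V _ G I A hD hH hK hcard
  have hm1 : m₁ ≤ m₁ * (D + 1) := Nat.le_mul_of_pos_right m₁ (Nat.succ_pos D)
  obtain ⟨R₀, p₀, X₀, hSm₀, hop₀, hFh₀, hlt₀⟩ := hm₁ G I A hD hH hK (by omega)
  obtain ⟨R, p, X, hSm, hop, hFh, hcp, hUns⟩ := hHVN G I A (2 * g + a) g (3 * g) m₁ R₀ p₀ X₀
    (by omega) hSm₀ hop₀ hFh₀ hlt₀
  have h2g : 2 * g < p := by omega
  have hp0 : 0 < p := by omega
  obtain ⟨⟨x, hx⟩⟩ := (hFh.conn 0 hp0).nonempty
  have hxO : x ∈ R ∪ opN G R := Or.inl (hFh.sub 0 hp0 hx)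
  obtain ⟨W', hW'⟩ : ∃ W' : Set V, W' = cmp G (R ∪ opN G R) x := ⟨_, rfl⟩
  have hWc : (G.induce W').Connected := by
    rw [hW']
    exact cmp_connected hxO
  have hWO : W' ⊆ R ∪ opN G R := by
    rw [hW']
    exact cmp_subset
  have hXW : ∀ i < p, X i ⊆ W' := by
    intro i hi
    obtain ⟨C, hC1, hC2, hC3, hC4⟩ := hUns ∅ (by simp) 0 hp0 i hi (Set.disjoint_empty _)
      (Set.disjoint_empty _)
    rw [Set.diff_empty] at hC2
    rw [hW']
    exact hC4.trans (subset_cmp hC1 (hC3 hx) hC2)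
  have hWcl : ∀ C ⊆ R ∪ opN G R, (G.induce C).Connected → (C ∩ W').Nonempty → C ⊆ W' := by
    rintro C hC1 hC2 ⟨y, hy1, hy2⟩
    rw [hW'] at hy2 ⊢
    rw [← cmp_eq hy2]
    exact subset_cmp hC2 hy1 hC1
  have hWa : ¬ Ch G I A W' a := fun h =>
    hFh.lo 0 hp0 (ch_mono h (hXW 0 hp0) (by omega))
  obtain ⟨r₁, P₁, hPt₁⟩ := hPRT G D I A a W' hD hK (by omega) hWc hWa
  rw [← hb₁] at hPt₁
  obtain ⟨r, P, hPt, hdeg⟩ := hMRG G I A a b₁ W' r₁ P₁ hPt₁
  have htw : ¬ TreewidthLE (qt G r P) w :=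
    hTWL G I A (2 * g + a) g w a b₁ p r R W' X P hK hFh hUns hWO hXW hWcl hPt (by omega)
      (by omega) (by omega) h2g
  obtain ⟨U, hGd, hU⟩ := hw G I A a W' r P hPt hdeg htw
  obtain ⟨R', hR1, hR2, hR3⟩ := ch_region hUNI hUNF hSNG D m₁ R hD hK hSm hop (by omega)
    (by
      have : D ≤ b₁ := by rw [hb₁]; exact Nat.le_add_left _ _
      omega)
  refine ⟨U, R', hGd, fun x hx y hy => ⟨((hU x hx y hy).1.trans hWO).trans hR1, (hU x hx y hy).2⟩,
    hR2, by omega⟩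

end Pool.Agent.IM55.GC
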