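import Pool.Agent.Work.MP_55ff09_co.GC.Stmts

/-!
# MP_55ff09_co, block GC, item CN2: two indices without conflict
-/

set_option autoImplicit false

namespace Pool.Agent.IM55.GC

open SimpleGraph Pool.Agent.IM55 Pool.Agent.IM55.PL Pool.Agent.IM55.CL

theorem i_CN2 : S_CN2 := by
  classical
  intro V _ K B T hK hdis hT
  by_contra hcon
  push Not at hcon
  set n := 2 * K with hn
  set C : Finset (ℕ × ℕ) := (Finset.range n ×ˢ Finset.range n).filter
    (fun p => ¬ Disjoint (T p.1) (B p.2)) with hC
  have hsub : (Finset.range n).offDiag ⊆ C ∪ C.image Prod.swap := by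
    rintro ⟨i, j⟩ hij
    simp only [Finset.mem_offDiag, Finset.mem_range] at hij
    obtain ⟨hi, hj, hne⟩ := hij
    by_cases h : Disjoint (T i) (B j)
    · have h2 := hcon i hi j hj hne h
      refine Finset.mem_union_right _ (Finset.mem_image.2 ⟨(j, i), ?_, rfl⟩)
      exact Finset.mem_filter.2 ⟨Finset.mem_product.2 ⟨Finset.mem_range.2 hj, Finset.mem_range.2 hi⟩, h2⟩
    · refine Finset.mem_union_left _ ?_
      exact Finset.mem_filter.2 ⟨Finset.mem_product.2 ⟨Finset.mem_range.2 hi, Finset.mem_range.2 hj⟩, h⟩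
  have hcC : C.card ≤ (K - 1) * (Finset.range n).card := by
    refine Finset.card_le_mul_card_image_of_maps_to (f := Prod.fst) ?_ (K - 1) ?_
    · intro p hp
      exact (Finset.mem_product.1 (Finset.mem_filter.1 hp).1).1
    · intro i hi
      rw [Finset.mem_range] at hi
      have hex : ∀ p : ℕ × ℕ, p ∈ C.filter (fun p => p.1 = i) → ∃ v, v ∈ T i ∧ v ∈ B p.2 := by
        intro p hp
        rw [Finset.mem_filter] at hp
        have h1 := (Finset.mem_filter.1 hp.1).2
        rw [hp.2] at h1
        obtain ⟨v, hv, hv'⟩ := Set.not_disjoint_iff.1 h1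
        exact ⟨v, hv, hv'⟩
      rcases (C.filter (fun p => p.1 = i)).eq_empty_or_nonempty with hemp | ⟨p₀, hp₀⟩
      · rw [hemp, Finset.card_empty]
        exact Nat.zero_le _
      haveI : Nonempty V := ⟨(hex p₀ hp₀).choose⟩
      choose! g hg1 hg2 using hex
      have hfin : (T i).Finite := Set.toFinite _
      have hTi := hT i hi
      refine le_trans ?_ (show (T i).ncard ≤ K - 1 by omega)
      rw [Set.ncard_eq_toFinset_card _ hfin]
      refine Finset.card_le_card_of_injOn g ?_ ?_
      · intro p hp
        exact hfin.mem_toFinset.2 (hg1 p hp)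
      · intro p hp p' hp' hpp
        have hp2 := Finset.mem_filter.1 (Finset.mem_coe.1 hp)
        have hp2' := Finset.mem_filter.1 (Finset.mem_coe.1 hp')
        have hr := (Finset.mem_product.1 (Finset.mem_filter.1 hp2.1).1).2
        have hr' := (Finset.mem_product.1 (Finset.mem_filter.1 hp2'.1).1).2
        rw [Finset.mem_range] at hr hr'
        by_cases h : p.2 = p'.2
        · exact Prod.ext (hp2.2.trans hp2'.2.symm) h
        · exact (Set.disjoint_left.1 (hdis _ hr _ hr' h) (hg2 p hp) (hpp ▸ hg2 p' hp')).elim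
  have hc : (Finset.range n).offDiag.card ≤ C.card + C.card :=
    (Finset.card_le_card hsub).trans ((Finset.card_union_le _ _).trans
      (Nat.add_le_add_left Finset.card_image_le _))
  rw [Finset.offDiag_card, Finset.card_range] at hc
  rw [Finset.card_range] at hcC
  obtain ⟨k, rfl⟩ : ∃ k, K = k + 1 := ⟨K - 1, by omega⟩
  rw [Nat.add_sub_cancel] at hcC
  have h3 : n * n ≤ k * n + k * n + n := by omega
  have h4 : n * n = k * n + k * n + 2 * n := by
    rw [hn]
    ring
  omega

end Pool.Agent.IM55.GC
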