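import Pool.Agent.Work.MP_55ff09_co.GC.Stmts

/-!
# Block GC, item CRS: a row and a column without obstacles
-/

set_option autoImplicit false

namespace Pool.Agent.IM55.GC

open SimpleGraph Pool.Agent.IM55 Pool.Agent.IM55.PL Pool.Agent.IM55.CL

namespace XCRS

variable {V : Type}

lemma cell_unique (G : SimpleGraph V) (N : ℕ) (U : ℕ → ℕ → Set V) (hU : Gd G N U) (t : V)
    (x y x' y' : ℕ) (hx : x < N) (hy : y < N) (hx' : x' < N) (hy' : y' < N) (h : t ∈ U x y)
    (h' : t ∈ U x' y') : (x, y) = (x', y') := by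
  by_contra hne
  exact Set.disjoint_left.1 (hU.dis x hx y hy x' hx' y' hy' hne) h h'

/-- a line without obstacles: `pr` is one of the two coordinates -/
lemma free_line [Finite V] (K z₀ : ℕ) (T : Set V) (Q' : Finset (ℕ × ℕ))
    (hT : T.ncard + Q'.card < K) (P : ℕ → V → Prop)
    (hP : ∀ t x x', P x t → P x' t → x = x') (pr : ℕ × ℕ → ℕ) :
    ∃ x, z₀ ≤ x ∧ x < z₀ + K ∧ (∀ t ∈ T, ¬ P x t) ∧ ∀ q ∈ Q', pr q ≠ x := by
  classical
  have hfin : T.Finite := Set.toFinite T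
  let rw' : V → ℕ := fun t => if h : ∃ x, P x t then h.choose else 0
  have hrw : ∀ t x, P x t → rw' t = x := by
    intro t x h
    have hex : ∃ x, P x t := ⟨x, h⟩
    have : rw' t = hex.choose := by
      simp only [rw']
      rw [dif_pos hex]
    rw [this]
    exact hP t _ _ hex.choose_spec h
  set B : Finset ℕ := hfin.toFinset.image rw' ∪ Q'.image pr with hB
  have hBc : B.card < K := by
    refine lt_of_le_of_lt (Finset.card_union_le _ _) ?_
    refine lt_of_le_of_lt (Nat.add_le_add Finset.card_image_le Finset.card_image_le) ?_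
    rw [← Set.ncard_eq_toFinset_card T hfin]
    exact hT
  have hne : ∃ x ∈ Finset.Ico z₀ (z₀ + K), x ∉ B := by
    by_contra hno
    push Not at hno
    have h1 : Finset.Ico z₀ (z₀ + K) ⊆ B := fun x hx => hno x hx
    have h2 := Finset.card_le_card h1
    rw [Nat.card_Ico] at h2
    omega
  obtain ⟨x, hx, hxB⟩ := hne
  rw [Finset.mem_Ico] at hx
  refine ⟨x, hx.1, hx.2, ?_, ?_⟩
  · intro t ht hPt
    apply hxB
    rw [hB, Finset.mem_union]
    left
    rw [Finset.mem_image]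
    exact ⟨t, hfin.mem_toFinset.2 ht, hrw t x hPt⟩
  · intro q hq hqx
    apply hxB
    rw [hB, Finset.mem_union]
    right
    exact Finset.mem_image.2 ⟨q, hq, hqx⟩

end XCRS

open XCRS in
theorem i_CRS (hUQC : S_UQC) (hRCT : S_RCT) : S_CRS := by
  intro V _ G N K U T Q' x₀ y₀ hU hT hx₀ hy₀
  have hK : 0 < K := by omega
  have hN : 0 < N := by omega
  obtain ⟨x, hx1, hx2, hxT, hxQ⟩ := free_line K x₀ T Q' hT
    (fun x t => x < N ∧ ∃ y, y < N ∧ t ∈ U x y)
    (by
      rintro t x x' ⟨hx, y, hy, h⟩ ⟨hx', y', hy', h'⟩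
      exact congrArg Prod.fst (cell_unique G N U hU t x y x' y' hx hy hx' hy' h h')) Prod.fst
  obtain ⟨y, hy1, hy2, hyT, hyQ⟩ := free_line K y₀ T Q' hT
    (fun y t => y < N ∧ ∃ x, x < N ∧ t ∈ U x y)
    (by
      rintro t y y' ⟨hy, x, hx, h⟩ ⟨hy', x', hx', h'⟩
      exact congrArg Prod.snd (cell_unique G N U hU t x y x' y' hx hy hx' hy' h h')) Prod.snd
  have hxN : x < N := by omega
  have hyN : y < N := by omega
  refine ⟨x, y, hx1, hx2, hy1, hy2, ?_, ?_, ?_⟩
  · apply hUQC G N U _ hU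
    · intro q hq
      exact ⟨hq.1, hq.2.1⟩
    · have hrow := hRCT x (x + 1) 0 N (by omega) hN
      have hcol := hRCT 0 N y (y + 1) hN (by omega)
      have hun := SimpleGraph.induce_union_connected hrow.preconnected hcol.preconnected
        ⟨(x, y), ⟨⟨le_refl _, by omega, by omega, hyN⟩, ⟨by omega, hxN, le_refl _, by omega⟩⟩⟩
      have heq : ({q : ℕ × ℕ | x ≤ q.1 ∧ q.1 < x + 1 ∧ 0 ≤ q.2 ∧ q.2 < N} ∪
          {q : ℕ × ℕ | 0 ≤ q.1 ∧ q.1 < N ∧ y ≤ q.2 ∧ q.2 < y + 1}) =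
          {q : ℕ × ℕ | q.1 < N ∧ q.2 < N ∧ (q.1 = x ∨ q.2 = y)} := by
        ext q
        simp only [Set.mem_union, Set.mem_ofPred_eq]
        omega
      rw [heq] at hun
      exact hun
  · rw [Set.disjoint_left]
    rintro t ⟨q, ⟨hq1, hq2, hq⟩, htq⟩ htT
    rcases hq with h | h
    · exact hxT t htT ⟨hxN, q.2, hq2, by rw [← h]; exact htq⟩
    · exact hyT t htT ⟨hyN, q.1, hq1, by rw [← h]; exact htq⟩
  · intro q hq
    exact ⟨hxQ q hq, hyQ q hq⟩

end Pool.Agent.IM55.GC
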