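import Pool.Agent.Work.MP_55ff09_co.GC.Stmts
import Pool.Agent.Work.MP_cfa43e_lc.Her.D14
import Pool.Agent.Work.MP_cfa43e_lc.Bd.B05

/-!
# MP_55ff09_co, block GC: item CTS

Cutting a graph of small tree width into small pieces.
-/

set_option autoImplicit false

namespace Pool.Agent.IM55.GC

open SimpleGraph Pool.Agent.IM55 Pool.Agent.IM55.PL Pool.Agent.IM55.CL

namespace XCTS

theorem main {V : Type} [Finite V] [DecidableEq V] (G : SimpleGraph V) (w M : ℕ)
    (htw : TreewidthLE G w) (hM : w + 1 ≤ M) : ∀ n : ℕ, ∀ W : Finset V, W.card = n →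
    ∃ X ⊆ W, ∃ p : V → ℕ, M * X.card ≤ (w + 1) * W.card ∧
      (∀ u ∈ W, u ∉ X → ∀ v ∈ W, v ∉ X → G.Adj u v → p u = p v) ∧
      ∀ i, (W.filter fun v => v ∉ X ∧ p v = i).card ≤ 2 * M := by
  intro n
  induction n using Nat.strong_induction_on with
  | _ n ih =>
    intro W hW
    rcases Nat.lt_or_ge W.card M with hlt | hge
    · refine ⟨∅, Finset.empty_subset _, fun _ => 0, ?_, ?_, ?_⟩
      · rw [Finset.card_empty, mul_zero]
        exact Nat.zero_le _
      · intro u _ _ v _ _ _
        rfl
      · intro i
        have := Finset.card_filter_le W fun v => v ∉ (∅ : Finset V) ∧ (fun _ : V => (0 : ℕ)) v = i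
        exact this.trans (by omega)
    · obtain ⟨U, hU, X₀, hX₀, h1, h2, h3, h4⟩ :=
        Pool.Agent.PHer.D14 Pool.Agent.PReg.S2a Pool.Agent.PReg.S2b G w M W htw hM hge
      have hW'W : W \ (U ∪ X₀) ⊆ W := Finset.sdiff_subset
      have hdis : Disjoint U (W \ (U ∪ X₀)) := by
        rw [Finset.disjoint_left]
        intro v hv hv'
        exact (Finset.mem_sdiff.1 hv').2 (Finset.mem_union_left _ hv)
      have hcard : U.card + (W \ (U ∪ X₀)).card ≤ W.card := by
        rw [← Finset.card_union_of_disjoint hdis]
        exact Finset.card_le_card (Finset.union_subset hU hW'W)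
      obtain ⟨X', hX', p', k1, k2, k3⟩ := ih (W \ (U ∪ X₀)).card (by omega) _ rfl
      refine ⟨X₀ ∪ X', Finset.union_subset hX₀ (hX'.trans hW'W),
        fun v => if v ∈ U then 0 else p' v + 1, ?_, ?_, ?_⟩
      · have e1 : (X₀ ∪ X').card ≤ X₀.card + X'.card := Finset.card_union_le _ _
        calc M * (X₀ ∪ X').card ≤ M * (X₀.card + X'.card) := Nat.mul_le_mul_left _ e1
          _ = M * X₀.card + M * X'.card := by ring
          _ ≤ M * (w + 1) + (w + 1) * (W \ (U ∪ X₀)).card :=
              Nat.add_le_add (Nat.mul_le_mul_left _ h3) k1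
          _ = (w + 1) * (M + (W \ (U ∪ X₀)).card) := by ring
          _ ≤ (w + 1) * W.card := Nat.mul_le_mul_left _ (by omega)
      · intro u hu hux v hv hvx huv
        rw [Finset.mem_union, not_or] at hux hvx
        show (if u ∈ U then 0 else p' u + 1) = if v ∈ U then 0 else p' v + 1
        by_cases hu' : u ∈ U
        · rcases h4 u hu' v hv huv with h | h
          · rw [if_pos hu', if_pos h]
          · exact absurd h hvx.1
        · by_cases hv' : v ∈ U
          · rcases h4 v hv' u hu huv.symm with h | h
            · exact absurd h hu'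
            · exact absurd h hux.1
          · rw [if_neg hu', if_neg hv']
            have e1 : u ∈ W \ (U ∪ X₀) := by
              rw [Finset.mem_sdiff, Finset.mem_union, not_or]
              exact ⟨hu, hu', hux.1⟩
            have e2 : v ∈ W \ (U ∪ X₀) := by
              rw [Finset.mem_sdiff, Finset.mem_union, not_or]
              exact ⟨hv, hv', hvx.1⟩
            rw [k2 u e1 hux.2 v e2 hvx.2 huv]
      · intro i
        rcases Nat.eq_zero_or_pos i with hi | hi
        · refine (Finset.card_le_card ?_).trans h2
          intro v hv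
          rw [Finset.mem_filter] at hv
          by_contra hc
          have : (if v ∈ U then 0 else p' v + 1) = i := hv.2.2
          rw [if_neg hc] at this
          omega
        · refine (Finset.card_le_card ?_).trans (k3 (i - 1))
          intro v hv
          rw [Finset.mem_filter, Finset.mem_union, not_or] at hv
          have hc : v ∉ U := by
            intro hc
            have : (if v ∈ U then 0 else p' v + 1) = i := hv.2.2
            rw [if_pos hc] at this
            omega
          have e : (if v ∈ U then 0 else p' v + 1) = i := hv.2.2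
          rw [if_neg hc] at e
          rw [Finset.mem_filter, Finset.mem_sdiff, Finset.mem_union, not_or]
          exact ⟨⟨hv.1, hc, hv.2.1.1⟩, hv.2.1.2, by omega⟩

end XCTS

theorem i_CTS : S_CTS := by
  intro V _ G w M htw hM
  classical
  have : Fintype V := Fintype.ofFinite V
  obtain ⟨X, _, p, h1, h2, h3⟩ := XCTS.main G w M htw hM _ (Finset.univ : Finset V) rfl
  refine ⟨(X : Set V), p, ?_, ?_, ?_⟩
  · rw [Set.ncard_coe_finset, Nat.card_eq_fintype_card, ← Finset.card_univ]
    exact h1
  · intro u hu v hv huv
    exact h2 u (Finset.mem_univ u) (fun h => hu (Finset.mem_coe.2 h)) v (Finset.mem_univ v)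
      (fun h => hv (Finset.mem_coe.2 h)) huv
  · intro i
    have e : {v | v ∉ (X : Set V) ∧ p v = i} =
        ((Finset.univ.filter fun v => v ∉ X ∧ p v = i : Finset V) : Set V) := by
      ext v
      simp
    rw [e, Set.ncard_coe_finset]
    exact h3 i

end Pool.Agent.IM55.GC
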