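import Pool.Agent.Work.MP_55ff09_co.GC.Stmts

/-!
# MP_55ff09_co, block GC, item EMQ: graphs whose contraction along a clique is planar
-/

set_option autoImplicit false

namespace Pool.Agent.IM55.GC

open SimpleGraph Pool.Agent.IM55 Pool.Agent.IM55.PL Pool.Agent.IM55.CL

namespace XEMQ

/-- the union of connected sets over a connected set of indices is connected -/
theorem conn {V W' : Type} (G : SimpleGraph V) (H' : SimpleGraph W') (Y : W' → Set V)
    (S : Set W') (hY : ∀ i ∈ S, (G.induce (Y i)).Connected)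
    (hadj : ∀ i ∈ S, ∀ j ∈ S, H'.Adj i j → ∃ x ∈ Y i, ∃ y ∈ Y j, G.Adj x y)
    (hS : (H'.induce S).Connected) : (G.induce {v | ∃ i ∈ S, v ∈ Y i}).Connected := by
  have h0 : ∀ a (ha : a ∈ S) u v (hu : u ∈ Y a) (hv : v ∈ Y a),
      (G.induce {v | ∃ i ∈ S, v ∈ Y i}).Reachable ⟨u, a, ha, hu⟩ ⟨v, a, ha, hv⟩ := by
    intro a ha u v hu hv
    have hr := (hY a ha).preconnected ⟨u, hu⟩ ⟨v, hv⟩
    let f : G.induce (Y a) →g G.induce {v | ∃ i ∈ S, v ∈ Y i} :=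
      { toFun := fun x => ⟨x.1, a, ha, x.2⟩
        map_rel' := fun h => h }
    exact hr.map f
  have h1 : ∀ a b : S, (H'.induce S).Walk a b → ∀ u v (hu : u ∈ Y a.1) (hv : v ∈ Y b.1),
      (G.induce {v | ∃ i ∈ S, v ∈ Y i}).Reachable ⟨u, a.1, a.2, hu⟩ ⟨v, b.1, b.2, hv⟩ := by
    intro a b p
    induction p with
    | nil => intro u v hu hv; exact h0 _ (Subtype.property _) u v hu hv
    | @cons a c b h q ih =>
      intro u v hu hv
      obtain ⟨x, hx, y, hy, hxy⟩ := hadj a.1 a.2 c.1 c.2 h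
      have r1 := h0 a.1 a.2 u x hu hx
      have r2 := ih y v hy hv
      have r3 : (G.induce {v | ∃ i ∈ S, v ∈ Y i}).Adj ⟨x, a.1, a.2, hx⟩ ⟨y, c.1, c.2, hy⟩ := hxy
      exact r1.trans (r3.reachable.trans r2)
  refine (connected_iff _).mpr ⟨?_, ?_⟩
  · rintro ⟨u, a, ha, hu⟩ ⟨v, b, hb, hv⟩
    obtain ⟨p⟩ := hS.preconnected ⟨a, ha⟩ ⟨b, hb⟩
    exact h1 _ _ p u v hu hv
  · obtain ⟨⟨a, ha⟩⟩ := hS.nonempty
    obtain ⟨⟨u, hu⟩⟩ := (hY a ha).nonempty
    exact ⟨⟨u, a, ha, hu⟩⟩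

/-- the square of the position `q` -/
def sq (k a : ℕ) (q : ℕ × ℕ) : Set (Fin k ⊕ (Fin k × Fin k)) :=
  {p | ∃ x y : Fin k, p = Sum.inr (x, y) ∧ (x : ℕ) / a = q.1 ∧ (y : ℕ) / a = q.2}

theorem lt_k {k a n i s : ℕ} (hk : k = a * (n + 1)) (hi : i ≤ n) (hs : s < a) :
    a * i + s < k := by
  have h1 : a * (i + 1) ≤ a * (n + 1) := Nat.mul_le_mul le_rfl (by omega)
  have h2 : a * (i + 1) = a * i + a := by ring
  omega

theorem div_eq {a i s : ℕ} (hs : s < a) : (a * i + s) / a = i := by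
  rw [Nat.mul_add_div (by omega), Nat.div_eq_of_lt hs, Nat.add_zero]

theorem sq_conn {k a n : ℕ} (ha : 0 < a) (hk : k = a * (n + 1)) (q : ℕ × ℕ) (h1 : q.1 < n)
    (h2 : q.2 < n) : ((Qk k).induce (sq k a q)).Connected := by
  have hx : ∀ s, s < a → a * q.1 + s < k := fun s hs => lt_k hk h1.le hs
  have hy : ∀ s, s < a → a * q.2 + s < k := fun s hs => lt_k hk h2.le hs
  have mem : ∀ s t (hs : s < a) (ht : t < a),
      (Sum.inr (⟨a * q.1 + s, hx s hs⟩, ⟨a * q.2 + t, hy t ht⟩) : Fin k ⊕ (Fin k × Fin k)) ∈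
        sq k a q :=
    fun s t hs ht => ⟨_, _, rfl, div_eq hs, div_eq ht⟩
  have r1 : ∀ s (hs : s < a), ((Qk k).induce (sq k a q)).Reachable
      ⟨_, mem 0 0 ha ha⟩ ⟨_, mem s 0 hs ha⟩ := by
    intro s
    induction s with
    | zero => intro hs; exact Reachable.refl _
    | succ s ih =>
      intro hs
      refine (ih (by omega)).trans (Adj.reachable ?_)
      exact Or.inr ⟨rfl, Or.inl rfl⟩
  have r2 : ∀ s (hs : s < a) t (ht : t < a), ((Qk k).induce (sq k a q)).Reachable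
      ⟨_, mem s 0 hs ha⟩ ⟨_, mem s t hs ht⟩ := by
    intro s hs t
    induction t with
    | zero => intro ht; exact Reachable.refl _
    | succ t ih =>
      intro ht
      refine (ih (by omega)).trans (Adj.reachable ?_)
      exact Or.inl ⟨rfl, Or.inl rfl⟩
  refine (connected_iff_exists_forall_reachable _).mpr ⟨⟨_, mem 0 0 ha ha⟩, ?_⟩
  rintro ⟨p, x, y, rfl, hxq, hyq⟩
  have hs := Nat.mod_lt (x : ℕ) ha
  have ht := Nat.mod_lt (y : ℕ) ha
  have e1 : a * q.1 + (x : ℕ) % a = x := by rw [← hxq]; exact Nat.div_add_mod _ _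
  have e2 : a * q.2 + (y : ℕ) % a = y := by rw [← hyq]; exact Nat.div_add_mod _ _
  have key := (r1 _ hs).trans (r2 _ hs _ ht)
  have e3 : (⟨Sum.inr (⟨a * q.1 + (x : ℕ) % a, hx _ hs⟩, ⟨a * q.2 + (y : ℕ) % a, hy _ ht⟩),
      mem _ _ hs ht⟩ : sq k a q) = ⟨Sum.inr (x, y), x, y, rfl, hxq, hyq⟩ := by
    apply Subtype.ext
    simp only [Sum.inr.injEq, Prod.mk.injEq]
    exact ⟨Fin.ext e1, Fin.ext e2⟩
  rw [e3] at key
  exact key

/-- adjacent fine positions are in the same square or in adjacent squares -/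
theorem nb_div {a x y x' y' : ℕ} (h : Nb (x, y) (x', y')) :
    (x / a, y / a) = (x' / a, y' / a) ∨ Nb (x / a, y / a) (x' / a, y' / a) := by
  unfold Nb at *
  simp only at *
  rcases h with ⟨rfl, rfl | rfl⟩ | ⟨rfl, rfl | rfl⟩
  · rw [Nat.succ_div]
    split_ifs
    · right; left; exact ⟨rfl, Or.inl rfl⟩
    · left; rfl
  · rw [Nat.succ_div]
    split_ifs
    · right; left; exact ⟨rfl, Or.inr rfl⟩
    · left; rfl
  · rw [Nat.succ_div]
    split_ifs
    · right; right; exact ⟨rfl, Or.inl rfl⟩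
    · left; rfl
  · rw [Nat.succ_div]
    split_ifs
    · right; right; exact ⟨rfl, Or.inr rfl⟩
    · left; rfl

/-- adjacent squares are joined -/
theorem div_nb {k a n : ℕ} (ha : 0 < a) (hk : k = a * (n + 1)) (p q : ℕ × ℕ) (hp1 : p.1 < n)
    (hp2 : p.2 < n) (hq1 : q.1 < n) (hq2 : q.2 < n) (h : Nb p q) :
    ∃ s ∈ sq k a p, ∃ t ∈ sq k a q, (Qk k).Adj s t := by
  have h0 : a - 1 < a := by omega
  obtain ⟨i, j⟩ := p
  obtain ⟨i', j'⟩ := q
  unfold Nb at h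
  simp only at h hp1 hp2 hq1 hq2
  have e : ∀ i, a * i + (a - 1) + 1 = a * (i + 1) + 0 := by
    intro i
    have : a * (i + 1) = a * i + a := by ring
    omega
  rcases h with ⟨rfl, rfl | rfl⟩ | ⟨rfl, rfl | rfl⟩
  · refine ⟨Sum.inr (⟨a * i + 0, lt_k hk hp1.le ha⟩, ⟨a * j + (a - 1), lt_k hk hp2.le h0⟩),
      ⟨_, _, rfl, div_eq ha, div_eq h0⟩,
      Sum.inr (⟨a * i + 0, lt_k hk hp1.le ha⟩, ⟨a * (j + 1) + 0, lt_k hk hq2.le ha⟩),
      ⟨_, _, rfl, div_eq ha, div_eq ha⟩, ?_⟩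
    exact Or.inl ⟨rfl, Or.inl (e j)⟩
  · refine ⟨Sum.inr (⟨a * i + 0, lt_k hk hp1.le ha⟩, ⟨a * (j' + 1) + 0, lt_k hk hp2.le ha⟩),
      ⟨_, _, rfl, div_eq ha, div_eq ha⟩,
      Sum.inr (⟨a * i + 0, lt_k hk hp1.le ha⟩, ⟨a * j' + (a - 1), lt_k hk hq2.le h0⟩),
      ⟨_, _, rfl, div_eq ha, div_eq h0⟩, ?_⟩
    exact Or.inl ⟨rfl, Or.inr (e j')⟩
  · refine ⟨Sum.inr (⟨a * i + (a - 1), lt_k hk hp1.le h0⟩, ⟨a * j + 0, lt_k hk hp2.le ha⟩),
      ⟨_, _, rfl, div_eq h0, div_eq ha⟩,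
      Sum.inr (⟨a * (i + 1) + 0, lt_k hk hq1.le ha⟩, ⟨a * j + 0, lt_k hk hp2.le ha⟩),
      ⟨_, _, rfl, div_eq ha, div_eq ha⟩, ?_⟩
    exact Or.inr ⟨rfl, Or.inl (e i)⟩
  · refine ⟨Sum.inr (⟨a * (i' + 1) + 0, lt_k hk hp1.le ha⟩, ⟨a * j + 0, lt_k hk hp2.le ha⟩),
      ⟨_, _, rfl, div_eq ha, div_eq ha⟩,
      Sum.inr (⟨a * i' + (a - 1), lt_k hk hq1.le h0⟩, ⟨a * j + 0, lt_k hk hp2.le ha⟩),
      ⟨_, _, rfl, div_eq h0, div_eq ha⟩, ?_⟩
    exact Or.inr ⟨rfl, Or.inr (e i')⟩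

/-- the columns of the branch set of a vertex of the clique -/
def J {m : ℕ} (H : SimpleGraph (Fin m)) (K : Set (Fin m)) (n a : ℕ) (yy : Fin m → ℕ)
    (u : Fin m) : Set ℕ :=
  {c | c = a * n + u ∨ ∃ v, v ∉ K ∧ H.Adj u v ∧ c = a * yy v + u}

theorem J_mod {m : ℕ} {H : SimpleGraph (Fin m)} {K : Set (Fin m)} {n a : ℕ} {yy : Fin m → ℕ}
    (ham : m < a) {u : Fin m} {c : ℕ} (h : c ∈ J H K n a yy u) : c % a = u := by
  have hu : (u : ℕ) < a := lt_trans u.2 ham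
  rcases h with rfl | ⟨v, -, -, rfl⟩
  · rw [Nat.mul_add_mod, Nat.mod_eq_of_lt hu]
  · rw [Nat.mul_add_mod, Nat.mod_eq_of_lt hu]

open Classical in
/-- the branch sets -/
noncomputable def X {m : ℕ} (H : SimpleGraph (Fin m)) (K : Set (Fin m)) (n a k : ℕ)
    (yy : Fin m → ℕ) (B : Fin m → Set (ℕ × ℕ)) (v : Fin m) : Set (Fin k ⊕ (Fin k × Fin k)) :=
  if v ∈ K then {p | ∃ c : Fin k, p = Sum.inl c ∧ (c : ℕ) ∈ J H K n a yy v}
  else {p | ∃ q ∈ B v, p ∈ sq k a q}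

section

variable {m : ℕ} {H : SimpleGraph (Fin m)} {K : Set (Fin m)} {n a k : ℕ}
    {yy : Fin m → ℕ} {B : Fin m → Set (ℕ × ℕ)}

theorem X_mem {v : Fin m} (hv : v ∈ K) :
    X H K n a k yy B v = {p | ∃ c : Fin k, p = Sum.inl c ∧ (c : ℕ) ∈ J H K n a yy v} := by
  unfold X
  rw [if_pos hv]

theorem X_not {v : Fin m} (hv : v ∉ K) :
    X H K n a k yy B v = {p | ∃ q ∈ B v, p ∈ sq k a q} := by
  unfold X
  rw [if_neg hv]

theorem adj_mixed (hB : Hp H K n B) (ham : m < a) (hk : k = a * (n + 1))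
    (hyy : ∀ v, v ∉ K → (∃ y, (0, y) ∈ B v) → (0, yy v) ∈ B v) {u v : Fin m} (hu : u ∈ K)
    (hv : v ∉ K) : H.Adj u v ↔ ∃ x ∈ X H K n a k yy B u, ∃ y ∈ X H K n a k yy B v,
      (Qk k).Adj x y := by
  have hua : (u : ℕ) < a := lt_trans u.2 ham
  have ha : 0 < a := by omega
  rw [X_mem hu, X_not hv]
  constructor
  · intro h
    have h1 := hyy v hv (hB.row u hu v hv h)
    have h2 := (hB.sub v hv _ h1).2
    simp only at h2
    refine ⟨Sum.inl ⟨a * yy v + u, lt_k hk h2.le hua⟩, ⟨_, rfl, Or.inr ⟨v, hv, h, rfl⟩⟩,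
      Sum.inr (⟨a * 0 + 0, lt_k hk (Nat.zero_le _) ha⟩, ⟨a * yy v + u, lt_k hk h2.le hua⟩),
      ⟨(0, yy v), h1, _, _, rfl, div_eq ha, div_eq hua⟩, ?_⟩
    refine ⟨?_, rfl⟩
    simp
  · rintro ⟨_, ⟨c, rfl, hc⟩, _, ⟨q, hq, x, y, rfl, hx, hy⟩, h⟩
    have hadj : (x : ℕ) = 0 ∧ y = c := h
    obtain ⟨hx0, rfl⟩ := hadj
    have hq1 : q.1 = 0 := by rw [← hx, hx0, Nat.zero_div]
    rcases hc with hc | ⟨v', hv', hav, hc⟩
    · exfalso
      rw [hc, div_eq hua] at hy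
      have := (hB.sub v hv q hq).2
      omega
    · rw [hc, div_eq hua] at hy
      have h1 := hyy v' hv' (hB.row u hu v' hv' hav)
      have h2 : q = (0, yy v') := Prod.ext hq1 hy.symm
      rw [h2] at hq
      by_cases hvv : v = v'
      · rw [hvv]; exact hav
      · exact absurd h1 (Set.disjoint_left.1 (hB.dis v hv v' hv' hvv) hq)

end

end XEMQ

open XEMQ in
theorem i_EMQ : S_EMQ := by
  classical
  intro m H K n B hB
  set a : ℕ := m + 1 with hadef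
  have ha : 0 < a := by omega
  have ham : m < a := by omega
  set k : ℕ := a * (n + 1) with hk
  let yy : Fin m → ℕ := fun v => if h : ∃ y, (0, y) ∈ B v then h.choose else 0
  have hyy : ∀ v, v ∉ K → (∃ y, (0, y) ∈ B v) → (0, yy v) ∈ B v := by
    intro v _ h
    have : yy v = h.choose := by
      simp only [yy]
      rw [dif_pos h]
    rw [this]
    exact h.choose_spec
  refine ⟨k, X H K n a k yy B, ?_, ?_, ?_⟩
  · intro v
    by_cases hv : v ∈ K
    · rw [X_mem hv]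
      have hva : (v : ℕ) < a := lt_trans v.2 ham
      refine (connected_iff_exists_forall_reachable _).mpr
        ⟨⟨Sum.inl ⟨a * n + v, lt_k hk le_rfl hva⟩, _, rfl, Or.inl rfl⟩, ?_⟩
      rintro ⟨p, c, rfl, hc⟩
      by_cases hcc : (⟨a * n + v, lt_k hk le_rfl hva⟩ : Fin k) = c
      · subst hcc
        exact Reachable.refl _
      · exact Adj.reachable hcc
    · rw [X_not hv]
      refine XEMQ.conn (Qk k) ngr (sq k a) (B v) ?_ ?_ (hB.conn v hv)
      · intro q hq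
        exact sq_conn ha hk q (hB.sub v hv q hq).1 (hB.sub v hv q hq).2
      · intro p hp q hq h
        exact div_nb ha hk p q (hB.sub v hv p hp).1 (hB.sub v hv p hp).2 (hB.sub v hv q hq).1
          (hB.sub v hv q hq).2 h
  · intro u v huv
    by_cases hu : u ∈ K
    · by_cases hv : v ∈ K
      · rw [X_mem hu, X_mem hv, Set.disjoint_left]
        rintro _ ⟨c, rfl, hc⟩ ⟨c', h', hc'⟩
        rw [Sum.inl.injEq] at h'
        subst h'
        exact huv (Fin.ext ((J_mod ham hc).symm.trans (J_mod ham hc')))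
      · rw [X_mem hu, X_not hv, Set.disjoint_left]
        rintro _ ⟨c, rfl, hc⟩ ⟨q, hq, x, y, h', -⟩
        cases h'
    · by_cases hv : v ∈ K
      · rw [X_not hu, X_mem hv, Set.disjoint_left]
        rintro _ ⟨q, hq, x, y, h', -⟩ ⟨c, rfl, hc⟩
        cases h'
      · rw [X_not hu, X_not hv, Set.disjoint_left]
        rintro _ ⟨q, hq, x, y, rfl, hx, hy⟩ ⟨q', hq', x', y', h', hx', hy'⟩
        rw [Sum.inr.injEq, Prod.mk.injEq] at h'
        obtain ⟨rfl, rfl⟩ := h'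
        have e : q = q' := Prod.ext (hx.symm.trans hx') (hy.symm.trans hy')
        rw [← e] at hq'
        exact Set.disjoint_left.1 (hB.dis u hu v hv huv) hq hq'
  · intro u v huv
    by_cases hu : u ∈ K
    · by_cases hv : v ∈ K
      · rw [X_mem hu, X_mem hv]
        have hua : (u : ℕ) < a := lt_trans u.2 ham
        have hva : (v : ℕ) < a := lt_trans v.2 ham
        refine ⟨fun _ => ⟨_, ⟨⟨a * n + u, lt_k hk le_rfl hua⟩, rfl, Or.inl rfl⟩, _,
          ⟨⟨a * n + v, lt_k hk le_rfl hva⟩, rfl, Or.inl rfl⟩, ?_⟩,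
          fun _ => hB.clq u hu v hv huv⟩
        intro h
        apply huv
        rw [Fin.mk.injEq] at h
        exact Fin.ext (by omega)
      · exact adj_mixed hB ham hk hyy hu hv
    · by_cases hv : v ∈ K
      · rw [SimpleGraph.adj_comm, adj_mixed hB ham hk hyy hv hu]
        constructor
        · rintro ⟨x, hx, y, hy, h⟩
          exact ⟨y, hy, x, hx, h.symm⟩
        · rintro ⟨x, hx, y, hy, h⟩
          exact ⟨y, hy, x, hx, h.symm⟩
      · rw [X_not hu, X_not hv, hB.adj u hu v hv huv]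
        constructor
        · rintro ⟨p, hp, q, hq, h⟩
          obtain ⟨s, hs, t, ht, hst⟩ := div_nb ha hk p q (hB.sub u hu p hp).1
            (hB.sub u hu p hp).2 (hB.sub v hv q hq).1 (hB.sub v hv q hq).2 h
          exact ⟨s, ⟨p, hp, hs⟩, t, ⟨q, hq, ht⟩, hst⟩
        · rintro ⟨_, ⟨p, hp, x, y, rfl, hx, hy⟩, _, ⟨q, hq, x', y', rfl, hx', hy'⟩, h⟩
          have h1 : Nb ((x : ℕ), (y : ℕ)) ((x' : ℕ), (y' : ℕ)) := h
          have ep : p = ((x : ℕ) / a, (y : ℕ) / a) := Prod.ext hx.symm hy.symm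
          have eq : q = ((x' : ℕ) / a, (y' : ℕ) / a) := Prod.ext hx'.symm hy'.symm
          rcases nb_div (a := a) h1 with h2 | h2
          · exfalso
            rw [← ep, ← eq] at h2
            rw [← h2] at hq
            exact Set.disjoint_left.1 (hB.dis u hu v hv huv) hp hq
          · rw [← ep, ← eq] at h2
            exact ⟨p, hp, q, hq, h2⟩

end Pool.Agent.IM55.GC
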