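import Pool.Agent.Work.MP_55ff09_co.GC.Stmts

/-!
# MP_55ff09_co, block GC, item ESC: a heavy set is not separated from the boundary of a region
-/

set_option autoImplicit false

namespace Pool.Agent.IM55.GC

open SimpleGraph Pool.Agent.IM55 Pool.Agent.IM55.PL Pool.Agent.IM55.CL

namespace XESC

variable {V : Type}

theorem sm_mono {G : SimpleGraph V} {I : Finset ℕ} {A : ℕ → Set V} {S T : Set V}
    (h : Sm G I A T) (hST : S ⊆ T) : Sm G I A S := by
  obtain ⟨i, hi, ha⟩ := h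
  exact ⟨i, hi, ha.mono hST (le_refl _)⟩

end XESC

theorem i_ESC (h1 : S_IPA) : S_ESC := by
  intro V _ G I A a R Y S hR hY hYc hCh hS hdis
  obtain ⟨⟨y, hy⟩⟩ := hYc.nonempty
  set W : Set V := (R ∪ opN G R) \ S with hW
  have hYW : Y ⊆ W := fun v hv => ⟨Or.inl (hY hv), Set.disjoint_left.1 hdis hv⟩
  set C : Set V := cmp G W y with hC
  have hYC : Y ⊆ C := subset_cmp hYc hy hYW
  have hCW : C ⊆ W := cmp_subset
  have hCc : (G.induce C).Connected := cmp_connected (hYW hy)
  have hne : (C ∩ opN G R).Nonempty := by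
    by_contra hcon
    rw [Set.not_nonempty_iff_eq_empty] at hcon
    have hCR : C ⊆ R := by
      intro v hv
      rcases (hCW hv).1 with h | h
      · exact h
      · exact absurd (show v ∈ C ∩ opN G R from ⟨hv, h⟩) (by rw [hcon]; exact Set.notMem_empty v)
    have hop : opN G C ⊆ S := by
      rintro v ⟨hvC, u, hu, huv⟩
      by_contra hvS
      apply hvC
      apply cmp_adj hu _ huv
      refine ⟨?_, hvS⟩
      by_cases hvR : v ∈ R
      · exact Or.inl hvR
      · exact Or.inr ⟨hvR, u, hCR hu, huv⟩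
    exact hCh ⟨C, hYC, XESC.sm_mono hR hCR, (Set.ncard_le_ncard hop (Set.toFinite S)).trans hS⟩
  obtain ⟨w, l, hw⟩ := h1 G W Y (opN G R) C
    ⟨hCc, hCW, ⟨y, hYC hy, hy⟩, hne⟩
  exact ⟨w, l, hw.ip, (hw.hA 0 (Nat.zero_le _)).2 rfl, (hw.hB l le_rfl).2 rfl,
    hw.sub.trans hCW⟩

end Pool.Agent.IM55.GC
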