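import Pool.Agent.Work.MP_55ff09_co.GC.Stmts

/-!
# MP_55ff09_co, block GC, item FNL: the theorem
-/

set_option autoImplicit false

namespace Pool.Agent.IM55.GC

open SimpleGraph Pool.Agent.IM55 Pool.Agent.IM55.PL Pool.Agent.IM55.CL

namespace XFNL

/-- the model of a complete graph on `Fin t` is a `KM` -/
theorem model {V : Type} (G : SimpleGraph V) (t : ℕ)
    (h : IsInducedMinor (⊤ : SimpleGraph (Fin t)) G) :
    ∃ A : ℕ → Set V, KM G (Finset.range t) A := by
  obtain ⟨X, h1, h2, h3⟩ := h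
  refine ⟨fun i => if h : i < t then X ⟨i, h⟩ else ∅, ?_, ?_, ?_⟩
  · intro i hi
    have hi' : i < t := Finset.mem_range.1 hi
    have e : (if h : i < t then X ⟨i, h⟩ else ∅) = X ⟨i, hi'⟩ := dif_pos hi'
    show (G.induce (if h : i < t then X ⟨i, h⟩ else ∅)).Connected
    rw [e]
    exact h1 ⟨i, hi'⟩
  · intro i hi j hj hij
    have hi' : i < t := Finset.mem_range.1 hi
    have hj' : j < t := Finset.mem_range.1 hj
    simp only [hi', hj', dif_pos]
    exact h2 _ _ fun e => hij (congrArg Fin.val e)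
  · intro i hi j hj hij
    have hi' : i < t := Finset.mem_range.1 hi
    have hj' : j < t := Finset.mem_range.1 hj
    have hne : (⟨i, hi'⟩ : Fin t) ≠ ⟨j, hj'⟩ := fun e => hij (congrArg Fin.val e)
    simp only [hi', hj', dif_pos]
    obtain ⟨x, hx, y, hy, hxy⟩ := (h3 _ _ hne).1 hne
    exact ⟨x, hx, y, hy, Or.inr hxy⟩

/-- a small set containing `R` with the least boundary -/
theorem least {V : Type} (G : SimpleGraph V) (I : Finset ℕ) (A : ℕ → Set V) (R : Set V) (m : ℕ)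
    (hR : Sm G I A R) (hm : (opN G R).ncard ≤ m) :
    ∃ R' : Set V, R ⊆ R' ∧ Sm G I A R' ∧ (opN G R').ncard ≤ m ∧
      ∀ S, R' ⊆ S → Sm G I A S → (opN G R').ncard ≤ (opN G S).ncard := by
  classical
  have hex : ∃ q : ℕ, ∃ R' : Set V, R ⊆ R' ∧ Sm G I A R' ∧ (opN G R').ncard = q :=
    ⟨_, R, subset_rfl, hR, rfl⟩
  obtain ⟨R', h1, h2, h3⟩ := Nat.find_spec hex
  refine ⟨R', h1, h2, ?_, ?_⟩
  · rw [h3]
    exact (Nat.find_min' hex ⟨R, subset_rfl, hR, rfl⟩).trans hm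
  · intro S hS hSm
    rw [h3]
    exact Nat.find_min' hex ⟨S, h1.trans hS, hSm, rfl⟩

theorem mem_tch {V : Type} {G : SimpleGraph V} {Q : Finset (ℕ × ℕ)} {U : ℕ → ℕ → Set V}
    {T : Set V} {q : ℕ × ℕ} : q ∈ tch G Q U T ↔ q ∈ Q ∧ Touch G T (U q.1 q.2) := by
  classical
  unfold tch
  exact Finset.mem_filter

end XFNL

open XFNL in
theorem i_FNL (hCEN : S_CEN) (hTLZ : S_TLZ) (hROO : S_ROO) (hTCU : S_TCU) (hTAI : S_TAI)
    (hSDR : S_SDR) (hASQ : S_ASQ) (hSHF : S_SHF) (hSHT : S_SHT) : S_FNL := by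
  intro D k
  rcases Nat.eq_zero_or_pos k with hk | hk
  · subst hk
    refine ⟨0, fun G _ _ => ?_⟩
    refine ⟨fun _ => ∅, ?_, ?_, ?_⟩
    · rintro (i | q)
      · exact i.elim0
      · exact q.1.elim0
    · rintro (i | q)
      · exact i.elim0
      · exact q.1.elim0
    · rintro (i | q)
      · exact i.elim0
      · exact q.1.elim0
  obtain ⟨K, hK⟩ : ∃ K, K = 2 * (k - 1) ^ 2 + 1 := ⟨_, rfl⟩
  obtain ⟨M, hM⟩ : ∃ M, M = K * (K + D) := ⟨_, rfl⟩
  obtain ⟨n, hn⟩ : ∃ n, n = K + 2 * k + k * (M + 1) := ⟨_, rfl⟩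
  obtain ⟨m, hm⟩ := hCEN (Qk k) D (2 * K) (2 * K * n)
  choose tq htq using hTLZ
  refine ⟨m + 1 + ∑ q ∈ Finset.range (m + 1), tq q, fun {V} _ G hG hKt => ?_⟩
  by_contra hno
  obtain ⟨A, hA⟩ := model G _ hKt
  set I : Finset ℕ := Finset.range (m + 1 + ∑ q ∈ Finset.range (m + 1), tq q) with hI
  have hIc : I.card = m + 1 + ∑ q ∈ Finset.range (m + 1), tq q := by
    rw [hI, Finset.card_range]
  obtain ⟨U, R₀, hU, hU2, hR₀, hR₀m⟩ := hm G I A hG hno hA (by omega)
  obtain ⟨R, hRR, hR, hRm, hRmin⟩ := least G I A R₀ m hR₀ hR₀m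
  -- tails
  have hq : (opN G R).ncard ∈ Finset.range (m + 1) := Finset.mem_range.2 (by omega)
  have htle : tq (opN G R).ncard ≤ ∑ q ∈ Finset.range (m + 1), tq q :=
    Finset.single_le_sum (f := tq) (fun _ _ => Nat.zero_le _) hq
  obtain ⟨X, hX⟩ := htq (opN G R).ncard G I A R hA hR rfl hRmin (by omega)
  -- rooting
  have hK1 : 1 ≤ K := by omega
  have hKn : K ≤ n := by omega
  have hUR : ∀ x < 2 * K * n, ∀ y < 2 * K * n, U x y ⊆ R ∧ ¬ Ch G I A (U x y) (2 * K) :=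
    fun x hx y hy => ⟨(hU2 x hx y hy).1.trans hRR, (hU2 x hx y hy).2⟩
  obtain ⟨a, ha, w, l, α, hRt⟩ := hROO G I A K n U R hK1 hKn hU hR hUR
  have han : a * n + n ≤ 2 * K * n := by
    have : (a + 1) * n ≤ 2 * K * n := Nat.mul_le_mul_right n ha
    linarith
  have hmemQ : ∀ q ∈ Bk (a * n) (a * n) n, (a * n ≤ q.1 ∧ q.1 < a * n + n) ∧
      (a * n ≤ q.2 ∧ q.2 < a * n + n) := by
    intro q hq
    unfold Bk at hq
    rw [Finset.mem_product, Finset.mem_Ico, Finset.mem_Ico] at hq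
    exact hq
  have hUQR : ∀ q ∈ Bk (a * n) (a * n) n, U q.1 q.2 ⊆ R := by
    intro q hq
    have := hmemQ q hq
    exact (hUR q.1 (by omega) q.2 (by omega)).1
  have hUdis : ∀ q ∈ Bk (a * n) (a * n) n, ∀ q' ∈ Bk (a * n) (a * n) n, q ≠ q' →
      Disjoint (U q.1 q.2) (U q'.1 q'.2) := by
    intro q hq q' hq' hne
    have h1 := hmemQ q hq
    have h2 := hmemQ q' hq'
    exact hU.dis q.1 (by omega) q.2 (by omega) q'.1 (by omega) q'.2 (by omega) hne
  -- cutting the paths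
  have hcut : ∀ c, ∃ j, c < K → j ≤ l c ∧
      (tch G (Bk (a * n) (a * n) n) U (rng (w c) j)).card ≤ K + D ∧
      (K ≤ (tch G (Bk (a * n) (a * n) n) U (rng (w c) j)).card ∨ j = l c) := by
    intro c
    by_cases hc : c < K
    · obtain ⟨j, hj1, hj2, hj3⟩ := hTCU G D K (Bk (a * n) (a * n) n) U (w c) (l c) hG hUdis
        (hRt.off c hc)
      exact ⟨j, fun _ => ⟨hj1, hj2, hj3⟩⟩
    · exact ⟨0, fun h => absurd h hc⟩
  choose j hj using hcut
  -- the sets `T c`
  obtain ⟨T, hT1, hT2⟩ := hTAI G R (Bk (a * n) (a * n) n) U K w l α j X hRt hUQR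
    (fun c hc => (hj c hc).1) hX
  -- different representatives
  obtain ⟨β, hβ1, hβ2⟩ := hSDR K (fun c => tch G (Bk (a * n) (a * n) n) U (T c)) α (by
    intro c hc
    rw [(hT1 c hc).2.2]
    rcases (hj c hc).2.2 with h | h
    · exact Or.inl h
    · right
      rw [h]
      rw [mem_tch]
      refine ⟨hRt.mem c hc, (hRt.foot c hc).mono ?_ subset_rfl⟩
      intro v hv
      rw [Set.mem_singleton_iff] at hv
      exact ⟨l c, le_rfl, hv.symm⟩) hRt.inj
  have hβQ : ∀ c < K, β c ∈ Bk (a * n) (a * n) n := by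
    intro c hc
    exact (mem_tch.1 (hβ1 c hc)).1
  have hU' : Gd G n (fun x y => U (a * n + x) (a * n + y)) :=
    (hSHF G (2 * K * n) n (a * n) (a * n) U hU han han).1
  refine hno (hASQ G n k K M (fun x y => U (a * n + x) (a * n + y)) T
    (fun c => ((β c).1 - a * n, (β c).2 - a * n)) hU' hk (by omega) (by omega) (by omega)
    (fun c hc => (hT1 c hc).1) ?_ ?_ ?_ ?_)
  · intro c hc c' hc' hne
    refine ⟨(hT2 c hc c' hc' hne).1, (hT2 c hc c' hc' hne).2, ?_⟩
    intro e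
    have h1 := hmemQ _ (hβQ c hc)
    have h2 := hmemQ _ (hβQ c' hc')
    have e1 : (β c).1 - a * n = (β c').1 - a * n := congrArg Prod.fst e
    have e2 : (β c).2 - a * n = (β c').2 - a * n := congrArg Prod.snd e
    exact hβ2 c hc c' hc' hne (Prod.ext (by omega) (by omega))
  · intro c hc
    refine (hT1 c hc).2.1.mono_right ?_
    rintro v ⟨q, hq, hv⟩
    have hq' : q ∈ Bk 0 0 n := hq
    unfold Bk at hq'
    rw [Finset.mem_product, Finset.mem_Ico, Finset.mem_Ico] at hq'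
    refine ⟨(a * n + q.1, a * n + q.2), ?_, hv⟩
    show (a * n + q.1, a * n + q.2) ∈ Bk (a * n) (a * n) n
    unfold Bk
    rw [Finset.mem_product, Finset.mem_Ico, Finset.mem_Ico]
    simp only
    omega
  · intro c hc
    rw [hSHT G n (a * n) (a * n) U (T c), Finset.mem_image]
    exact ⟨β c, hβ1 c hc, rfl⟩
  · refine (Finset.card_biUnion_le).trans ?_
    have hle : ∀ c ∈ Finset.range K,
        (tch G (Bk 0 0 n) (fun x y => U (a * n + x) (a * n + y)) (T c)).card ≤ K + D := by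
      intro c hc
      have hc' := Finset.mem_range.1 hc
      rw [hSHT G n (a * n) (a * n) U (T c)]
      refine Finset.card_image_le.trans ?_
      rw [(hT1 c hc').2.2]
      exact (hj c hc').2.1
    refine (Finset.sum_le_sum hle).trans ?_
    rw [Finset.sum_const, Finset.card_range, smul_eq_mul, hM]

end Pool.Agent.IM55.GC
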