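import Pool.Agent.Work.MP_55ff09_co.GC.Stmts
import Pool.Agent.Work.MP_55ff09_co.Kor.Main

/-!
# MP_55ff09_co, block GC, item GRD: an induced grid with heavy cells
-/

set_option autoImplicit false

namespace Pool.Agent.IM55.GC

open SimpleGraph Pool.Agent.IM55 Pool.Agent.IM55.PL Pool.Agent.IM55.CL

namespace XGRD

theorem tw_iff {V : Type} (G : SimpleGraph V) (w : ℕ) :
    TreewidthLE G w ↔ Pool.Agent.PEmb.TreeWidthLE G w := Iff.rfl

theorem adj_iff (M x y x' y' : ℕ) (hx : x < M) (hy : y < M) (hx' : x' < M) (hy' : y' < M) :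
    (grid M).Adj (⟨x, hx⟩, ⟨y, hy⟩) (⟨x', hx'⟩, ⟨y', hy'⟩) ↔ Nb (x, y) (x', y') := by
  unfold Nb
  simp only [grid, boxProd_adj, pathGraph_adj, Fin.mk.injEq]
  omega

end XGRD

theorem i_GRD (h1 : S_IMI) (h2 : S_QTM) : S_GRD := by
  intro N b
  obtain ⟨w, hw⟩ := Pool.Agent.IM55.Kor.korhonen b N
  refine ⟨w, ?_⟩
  intro V _ G I A a W r P hP hdeg htw
  obtain ⟨X, hX⟩ := (h1 (grid (N + 2)) (qt G r P)).1 (hw (Fin r) (qt G r P) hdeg htw)
  have hZ := h2 G r P (grid (N + 2)) X hP.conn hP.dis hX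
  obtain ⟨Z, hZd⟩ : ∃ Z : Fin (N + 2) × Fin (N + 2) → Set V,
      Z = fun h => {v | ∃ i ∈ X h, v ∈ P i} := ⟨_, rfl⟩
  rw [← hZd] at hZ
  obtain ⟨U, hU⟩ : ∃ U : ℕ → ℕ → Set V, ∀ (x y : ℕ) (hx : x < N + 2) (hy : y < N + 2),
      U x y = Z (⟨x, hx⟩, ⟨y, hy⟩) :=
    ⟨fun x y => if h : x < N + 2 ∧ y < N + 2 then Z (⟨x, h.1⟩, ⟨y, h.2⟩) else ∅,
      fun x y hx hy => dif_pos ⟨hx, hy⟩⟩
  refine ⟨U, ⟨?_, ?_, ?_⟩, ?_⟩
  · intro x hx y hy
    rw [hU x y (by omega) (by omega)]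
    exact hZ.conn _
  · intro x hx y hy x' hx' y' hy' hne
    rw [hU x y (by omega) (by omega), hU x' y' (by omega) (by omega)]
    refine hZ.dis _ _ fun e => hne ?_
    simp only [Prod.mk.injEq, Fin.mk.injEq] at e
    rw [e.1, e.2]
  · intro x hx y hy x' hx' y' hy' hne
    rw [hU x y (by omega) (by omega), hU x' y' (by omega) (by omega),
      ← XGRD.adj_iff (N + 2) x y x' y' (by omega) (by omega) (by omega) (by omega)]
    refine (hZ.adj _ _ fun e => hne ?_).symm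
    simp only [Prod.mk.injEq, Fin.mk.injEq] at e
    rw [e.1, e.2]
  · intro x hx y hy
    rw [hU x y (by omega) (by omega), hZd]
    refine ⟨?_, ?_⟩
    · rintro v ⟨i, _, hv⟩
      exact (hP.cov v).2 ⟨i, i.2, hv⟩
    · rintro ⟨R, hR, hs, hb⟩
      obtain ⟨⟨i, hi⟩⟩ := (hX.conn (⟨x, by omega⟩, ⟨y, by omega⟩)).nonempty
      exact hP.lo i i.2 ⟨R, fun v hv => hR ⟨i, hi, hv⟩, hs, hb⟩

end Pool.Agent.IM55.GC
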