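import Pool.Agent.Work.MP_55ff09_co.GC.Stmts

/-!
# MP_55ff09_co, block GC, item HND: the form of the hand-in
-/

set_option autoImplicit false

namespace Pool.Agent.IM55.GC

open SimpleGraph Pool.Agent.IM55 Pool.Agent.IM55.PL Pool.Agent.IM55.CL

theorem i_HND (hE : S_EMQ) (hF : S_FNL) (hT : S_TRN) : S_HND := by
  intro m H K n B hB D
  obtain ⟨k, hk⟩ := hE m H K n B hB
  obtain ⟨t, ht⟩ := hF D k
  exact ⟨t, fun G hG hn hm => hn (hT H (Qk k) G hk (ht G hG hm))⟩

end Pool.Agent.IM55.GC
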