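import Pool.Agent.Work.MP_55ff09_co.GC.Stmts

/-!
# MP_55ff09_co, block GC, item HVN: the extremal choice of a region
-/

set_option autoImplicit false

namespace Pool.Agent.IM55.GC

open SimpleGraph Pool.Agent.IM55 Pool.Agent.IM55.PL Pool.Agent.IM55.CL

namespace XHVN

variable {V : Type}

theorem sm_mono {G : SimpleGraph V} {I : Finset ℕ} {A : ℕ → Set V} {S T : Set V} (h : S ⊆ T)
    (hT : Sm G I A T) : Sm G I A S := by
  obtain ⟨i, hi, hA⟩ := hT
  exact ⟨i, hi, fun x hx y hy => hA x (h hx) y hy⟩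

/-- a subfamily -/
theorem sub_fh {G : SimpleGraph V} {I : Finset ℕ} {A : ℕ → Set V} {a p : ℕ} {R R' : Set V}
    {X : ℕ → Set V} (h : Fh G I A a R p X) (s : Finset ℕ) (hs : ∀ k ∈ s, k < p)
    (hR : ∀ k ∈ s, X k ⊆ R') : ∃ X', Fh G I A a R' s.card X' := by
  classical
  let e := s.equivFin.symm
  have hmem : ∀ i (hi : i < s.card), ((e ⟨i, hi⟩ : s) : ℕ) ∈ s := fun i hi => (e ⟨i, hi⟩).2
  have hX' : ∃ X' : ℕ → Set V, ∀ i (hi : i < s.card), X' i = X ((e ⟨i, hi⟩ : s) : ℕ) :=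
    ⟨fun i => if hi : i < s.card then X ((e ⟨i, hi⟩ : s) : ℕ) else ∅, fun i hi => dif_pos hi⟩
  obtain ⟨X', hX'⟩ := hX'
  refine ⟨X', ?_, ?_, ?_, ?_⟩
  · intro i hi
    rw [hX' i hi]
    exact h.conn _ (hs _ (hmem i hi))
  · intro i hi j hj hij
    rw [hX' i hi, hX' j hj]
    refine h.dis _ (hs _ (hmem i hi)) _ (hs _ (hmem j hj)) ?_
    intro he
    apply hij
    have h1 := e.injective (Subtype.ext he)
    exact congrArg Fin.val h1
  · intro i hi
    rw [hX' i hi]
    exact hR _ (hmem i hi)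
  · intro i hi
    rw [hX' i hi]
    exact h.lo _ (hs _ (hmem i hi))

/-- few sets meet a small set -/
theorem card_meet [Finite V] {p : ℕ} {X : ℕ → Set V}
    (hX : ∀ i < p, ∀ j < p, i ≠ j → Disjoint (X i) (X j)) (S : Set V) (s : Finset ℕ)
    (hs : ∀ k ∈ s, k < p ∧ ¬ Disjoint (X k) S) : s.card ≤ S.ncard := by
  classical
  have hch : ∀ k : {k // k ∈ s}, ∃ v, v ∈ X k.1 ∧ v ∈ S := fun k =>
    Set.not_disjoint_iff.1 (hs k.1 k.2).2
  choose f hf using hch
  rw [Set.ncard_eq_toFinset_card S (Set.toFinite S), ← Finset.card_attach]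
  refine Finset.card_le_card_of_injOn f (fun k _ => ?_) (fun k _ k' _ he => ?_)
  · rw [Finset.mem_coe, Set.Finite.mem_toFinset]
    exact (hf k).2
  · by_contra hne
    have hne' : k.1 ≠ k'.1 := fun h => hne (Subtype.ext h)
    have hd := hX k.1 (hs k.1 k.2).1 k'.1 (hs k'.1 k'.2).1 hne'
    refine Set.disjoint_left.1 hd (hf k).1 ?_
    rw [he]
    exact (hf k').1

/-- the property of the extremal choice -/
def PZ (G : SimpleGraph V) (I : Finset ℕ) (A : ℕ → Set V) (a g c z : ℕ) : Prop :=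
  ∃ (R : Set V) (p : ℕ) (X : ℕ → Set V), Sm G I A R ∧ Fh G I A a R p X ∧ 1 ≤ p ∧
    c * (opN G R).ncard < p + g + 2 * g * c ∧ (opN G R).ncard = z

end XHVN

theorem i_HVN : S_HVN := by
  classical
  intro V _ G I A a g c m R₀ p₀ X₀ hga hsm₀ hm hF₀ hc₀
  have hex : ∃ z, XHVN.PZ G I A a g c z :=
    ⟨_, R₀, p₀, X₀, hsm₀, hF₀, by omega, by omega, rfl⟩
  obtain ⟨R, p, X, hsm, hF, hp, hcz, hz⟩ := Nat.find_spec hex
  have hmin : ∀ z, XHVN.PZ G I A a g c z → (opN G R).ncard ≤ z := by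
    intro z hz'
    rw [hz]
    exact Nat.find_min' hex hz'
  -- heavy sets in small sets
  have hheavy : ∀ (R' Y : Set V), Sm G I A R' → Y ⊆ R' → ¬ Ch G I A Y a →
      a < (opN G R').ncard := by
    intro R' Y hR' hY hnc
    by_contra hcon
    exact hnc ⟨R', hY, hR', by omega⟩
  have h1 : a < (opN G R).ncard := hheavy R (X 0) hsm (hF.sub 0 (by omega)) (hF.lo 0 (by omega))
  refine ⟨R, p, X, hsm, (hmin _ ⟨R₀, p₀, X₀, hsm₀, hF₀, by omega, by omega, rfl⟩).trans hm, hF, ?_,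
    ?_⟩
  · have h2 : c * (2 * g + 1) ≤ c * (opN G R).ncard := Nat.mul_le_mul_left c (by omega)
    have h3 : c * (2 * g + 1) = 2 * g * c + c := by ring
    omega
  · intro S hS i hi j hj hiS hjS
    by_contra hcon
    push Not at hcon
    -- the components
    obtain ⟨⟨x, hx⟩⟩ := (hF.conn i hi).nonempty
    have hiO : X i ⊆ (R ∪ opN G R) \ S := fun v hv =>
      ⟨Or.inl (hF.sub i hi hv), fun h => Set.disjoint_left.1 hiS hv h⟩
    have hjO : X j ⊆ (R ∪ opN G R) \ S := fun v hv =>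
      ⟨Or.inl (hF.sub j hj hv), fun h => Set.disjoint_left.1 hjS hv h⟩
    have hiC : X i ⊆ cmp G ((R ∪ opN G R) \ S) x := subset_cmp (hF.conn i hi) hx hiO
    have hjC : ∀ y ∈ X j, y ∉ cmp G ((R ∪ opN G R) \ S) x := by
      intro y hy hyC
      have h2 : X j ⊆ cmp G ((R ∪ opN G R) \ S) x := by
        rw [← cmp_eq hyC]
        exact subset_cmp (hF.conn j hj) hy hjO
      exact hcon _ (cmp_connected (hiO hx)) cmp_subset hiC h2
    have hR₁ : Sm G I A (R ∩ cmp G ((R ∪ opN G R) \ S) x) :=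
      XHVN.sm_mono Set.inter_subset_left hsm
    have hR₂ : Sm G I A ((R \ S) \ cmp G ((R ∪ opN G R) \ S) x) :=
      XHVN.sm_mono (fun v hv => hv.1.1) hsm
    have ho₁ : opN G (R ∩ cmp G ((R ∪ opN G R) \ S) x) ⊆
        S ∪ (opN G R ∩ cmp G ((R ∪ opN G R) \ S) x) := by
      rintro v ⟨hv, u, hu, huv⟩
      by_cases hvS : v ∈ S
      · exact Or.inl hvS
      · right
        have hvR : v ∈ R ∪ opN G R := by
          by_cases hvR : v ∈ R
          · exact Or.inl hvR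
          · exact Or.inr ⟨hvR, u, hu.1, huv⟩
        have hvC : v ∈ cmp G ((R ∪ opN G R) \ S) x := cmp_adj hu.2 ⟨hvR, hvS⟩ huv
        refine ⟨?_, hvC⟩
        rcases hvR with hvR | hvR
        · exact absurd ⟨hvR, hvC⟩ hv
        · exact hvR
    have ho₂ : opN G ((R \ S) \ cmp G ((R ∪ opN G R) \ S) x) ⊆
        S ∪ (opN G R \ cmp G ((R ∪ opN G R) \ S) x) := by
      rintro v ⟨hv, u, hu, huv⟩
      by_cases hvS : v ∈ S
      · exact Or.inl hvS
      · right
        have hvR : v ∈ R ∪ opN G R := by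
          by_cases hvR : v ∈ R
          · exact Or.inl hvR
          · exact Or.inr ⟨hvR, u, hu.1.1, huv⟩
        have hvC : v ∉ cmp G ((R ∪ opN G R) \ S) x := fun hvC =>
          hu.2 (cmp_adj hvC ⟨Or.inl hu.1.1, hu.1.2⟩ huv.symm)
        refine ⟨?_, hvC⟩
        rcases hvR with hvR | hvR
        · exact absurd ⟨⟨hvR, hvS⟩, hvC⟩ hv
        · exact hvR
    have hn₁ : (opN G (R ∩ cmp G ((R ∪ opN G R) \ S) x)).ncard ≤
        g + (opN G R ∩ cmp G ((R ∪ opN G R) \ S) x).ncard :=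
      (Set.ncard_le_ncard ho₁ (Set.toFinite _)).trans ((Set.ncard_union_le _ _).trans (by omega))
    have hn₂ : (opN G ((R \ S) \ cmp G ((R ∪ opN G R) \ S) x)).ncard ≤
        g + (opN G R \ cmp G ((R ∪ opN G R) \ S) x).ncard :=
      (Set.ncard_le_ncard ho₂ (Set.toFinite _)).trans ((Set.ncard_union_le _ _).trans (by omega))
    have hn : (opN G R ∩ cmp G ((R ∪ opN G R) \ S) x).ncard +
        (opN G R \ cmp G ((R ∪ opN G R) \ S) x).ncard = (opN G R).ncard :=
      Set.ncard_inter_add_ncard_sdiff_eq_ncard _ _ (Set.toFinite _)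
    have hg₁ := hheavy _ (X i) hR₁ (fun v hv => ⟨hF.sub i hi hv, hiC hv⟩) (hF.lo i hi)
    have hg₂ := hheavy _ (X j) hR₂
      (fun v hv => ⟨⟨hF.sub j hj hv, (hjO hv).2⟩, hjC v hv⟩) (hF.lo j hj)
    -- the numbers of sets
    let s₁ := (Finset.range p).filter fun k => X k ⊆ R ∩ cmp G ((R ∪ opN G R) \ S) x
    let s₂ := (Finset.range p).filter fun k => X k ⊆ (R \ S) \ cmp G ((R ∪ opN G R) \ S) x
    let s₃ := (Finset.range p).filter fun k => ¬ Disjoint (X k) S
    have hs₁ : i ∈ s₁ := Finset.mem_filter.2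
      ⟨Finset.mem_range.2 hi, fun v hv => ⟨hF.sub i hi hv, hiC hv⟩⟩
    have hs₂ : j ∈ s₂ := Finset.mem_filter.2
      ⟨Finset.mem_range.2 hj, fun v hv => ⟨⟨hF.sub j hj hv, (hjO hv).2⟩, hjC v hv⟩⟩
    have hs₃ : s₃.card ≤ g := by
      refine (XHVN.card_meet (p := p) (X := X) hF.dis S s₃ (fun k hk => ?_)).trans hS
      have := Finset.mem_filter.1 hk
      exact ⟨Finset.mem_range.1 this.1, this.2⟩
    have hcov : Finset.range p ⊆ (s₁ ∪ s₂) ∪ s₃ := by
      intro k hk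
      have hk' := Finset.mem_range.1 hk
      by_cases hd : Disjoint (X k) S
      · apply Finset.mem_union_left
        have hkO : X k ⊆ (R ∪ opN G R) \ S := fun v hv =>
          ⟨Or.inl (hF.sub k hk' hv), fun h => Set.disjoint_left.1 hd hv h⟩
        by_cases hm' : ∃ y ∈ X k, y ∈ cmp G ((R ∪ opN G R) \ S) x
        · obtain ⟨y, hy, hyC⟩ := hm'
          apply Finset.mem_union_left
          refine Finset.mem_filter.2 ⟨hk, fun v hv => ⟨hF.sub k hk' hv, ?_⟩⟩
          rw [← cmp_eq hyC]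
          exact subset_cmp (hF.conn k hk') hy hkO hv
        · push Not at hm'
          apply Finset.mem_union_right
          exact Finset.mem_filter.2
            ⟨hk, fun v hv => ⟨⟨hF.sub k hk' hv, (hkO hv).2⟩, hm' v hv⟩⟩
      · exact Finset.mem_union_right _ (Finset.mem_filter.2 ⟨hk, hd⟩)
    have hcard : p ≤ s₁.card + s₂.card + s₃.card := by
      have h2 := Finset.card_le_card hcov
      rw [Finset.card_range] at h2
      have h3 := Finset.card_union_le (s₁ ∪ s₂) s₃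
      have h4 := Finset.card_union_le s₁ s₂
      omega
    obtain ⟨X₁, hX₁⟩ := XHVN.sub_fh hF s₁
      (fun k hk => Finset.mem_range.1 (Finset.mem_filter.1 hk).1)
      (fun k hk => (Finset.mem_filter.1 hk).2)
    obtain ⟨X₂, hX₂⟩ := XHVN.sub_fh hF s₂
      (fun k hk => Finset.mem_range.1 (Finset.mem_filter.1 hk).1)
      (fun k hk => (Finset.mem_filter.1 hk).2)
    have hp₁ : 1 ≤ s₁.card := Finset.card_pos.2 ⟨i, hs₁⟩
    have hp₂ : 1 ≤ s₂.card := Finset.card_pos.2 ⟨j, hs₂⟩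
    have hb₁ : s₁.card + g + 2 * g * c ≤
        c * (opN G (R ∩ cmp G ((R ∪ opN G R) \ S) x)).ncard := by
      by_contra hlt
      have := hmin _ ⟨_, _, X₁, hR₁, hX₁, hp₁, by omega, rfl⟩
      omega
    have hb₂ : s₂.card + g + 2 * g * c ≤
        c * (opN G ((R \ S) \ cmp G ((R ∪ opN G R) \ S) x)).ncard := by
      by_contra hlt
      have := hmin _ ⟨_, _, X₂, hR₂, hX₂, hp₂, by omega, rfl⟩
      omega
    have hd₁ := Nat.mul_le_mul_left c hn₁
    have hd₂ := Nat.mul_le_mul_left c hn₂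
    have he : c * (g + (opN G R ∩ cmp G ((R ∪ opN G R) \ S) x).ncard) +
        c * (g + (opN G R \ cmp G ((R ∪ opN G R) \ S) x).ncard) =
        2 * g * c + c * (opN G R).ncard := by
      rw [← hn]
      ring
    omega

end Pool.Agent.IM55.GC
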