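import Pool.Agent.Work.MP_55ff09_co.GC.Stmts

/-!
# MP_55ff09_co, block GC, item HYP: a bounded set with small boundary (helper73)
-/

set_option autoImplicit false

namespace Pool.Agent.IM55.GC

open SimpleGraph Pool.Agent.IM55 Pool.Agent.IM55.PL Pool.Agent.IM55.CL

namespace XHYP

/-- double counting: a vertex of `X` is in the outer neighbourhood of at most `D` classes -/
lemma sum_opN {V : Type} [Finite V] (G : SimpleGraph V) (D : ℕ) (hD : DegLe G D) (X : Set V)
    (p : V → ℕ) (S : ℕ → Set V) (hS : ∀ i, ∀ v ∈ S i, p v = i) (hop : ∀ i, opN G (S i) ⊆ X)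
    (I : Finset ℕ) : ∑ i ∈ I, (opN G (S i)).ncard ≤ D * X.ncard := by
  classical
  haveI := Fintype.ofFinite V
  have e1 : ∀ i, (opN G (S i)).ncard =
      ((Finset.univ.filter (· ∈ X)).filter fun x => x ∈ opN G (S i)).card := by
    intro i
    rw [← Set.ncard_coe_finset]
    congr 1
    ext x
    simp only [Finset.coe_filter, Finset.mem_filter, Finset.mem_univ, true_and,
      Set.mem_setOf_eq]
    exact ⟨fun h => ⟨hop i h, h⟩, fun h => h.2⟩
  have e2 : X.ncard = (Finset.univ.filter (· ∈ X)).card := by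
    rw [← Set.ncard_coe_finset]
    congr 1
    ext x
    simp
  rw [e2]
  simp only [e1, Finset.card_filter (fun x => x ∈ opN G (S _)) (Finset.univ.filter (· ∈ X))]
  rw [Finset.sum_comm]
  have e3 : ∀ x ∈ Finset.univ.filter (· ∈ X),
      ∑ i ∈ I, (if x ∈ opN G (S i) then 1 else 0) ≤ D := by
    intro x _
    rw [← Finset.card_filter]
    have h1 : (I.filter fun i => x ∈ opN G (S i)) ⊆
        (Finset.univ.filter fun y => G.Adj x y).image p := by
      intro i hi
      obtain ⟨-, -, y, hy, hxy⟩ := Finset.mem_filter.1 hi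
      exact Finset.mem_image.2 ⟨y, Finset.mem_filter.2 ⟨Finset.mem_univ _, hxy.symm⟩, hS i y hy⟩
    refine (Finset.card_le_card h1).trans (Finset.card_image_le.trans ?_)
    have h2 := hD x
    have h3 : (G.neighborSet x).ncard = (Finset.univ.filter fun y => G.Adj x y).card := by
      rw [← Set.ncard_coe_finset]
      congr 1
      ext y
      simp
    omega
  calc _ ≤ ∑ x ∈ Finset.univ.filter (· ∈ X), D := Finset.sum_le_sum e3
    _ = D * (Finset.univ.filter (· ∈ X)).card := by
      rw [Finset.sum_const, smul_eq_mul, mul_comm]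

end XHYP

theorem i_HYP (h : S_SEP) : S_HYP := by
  classical
  intro W _ H D c
  obtain ⟨m, hm⟩ := h H D (2 * (c * D + 1))
  refine ⟨m, fun {V} _ _ G hG hD => ?_⟩
  obtain ⟨X, p, h1, h2, h3⟩ := hm G hG hD
  by_contra hcon
  push Not at hcon
  haveI := Fintype.ofFinite V
  set S : ℕ → Set V := fun i => {v | v ∉ X ∧ p v = i} with hSdef
  have hS : ∀ i, (S i).ncard ≤ c * (opN G (S i)).ncard := by
    intro i
    rcases (S i).eq_empty_or_nonempty with h | h
    · rw [h]
      simp
    · exact hcon _ h (h3 i)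
  have hop : ∀ i, opN G (S i) ⊆ X := by
    rintro i y ⟨hy, x, ⟨hx, hpx⟩, hxy⟩
    by_contra hyX
    exact hy ⟨hyX, (h2 x hx y hyX hxy).symm.trans hpx⟩
  have hsum := XHYP.sum_opN G D hD X p S (fun i v hv => hv.2) hop
    ((Finset.univ.filter (· ∉ X)).image p)
  have e1 : (Finset.univ.filter (· ∉ X)).card =
      ∑ i ∈ (Finset.univ.filter (· ∉ X)).image p, (S i).ncard := by
    rw [Finset.card_eq_sum_card_image p]
    refine Finset.sum_congr rfl fun i _ => ?_
    rw [← Set.ncard_coe_finset]
    congr 1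
    ext x
    simp [hSdef]
  have e2 : (Finset.univ.filter (· ∉ X)).card ≤ c * (D * X.ncard) := by
    rw [e1]
    calc _ ≤ ∑ i ∈ (Finset.univ.filter (· ∉ X)).image p, c * (opN G (S i)).ncard :=
          Finset.sum_le_sum fun i _ => hS i
      _ = c * ∑ i ∈ (Finset.univ.filter (· ∉ X)).image p, (opN G (S i)).ncard := by
          rw [Finset.mul_sum]
      _ ≤ _ := Nat.mul_le_mul_left _ hsum
  have e3 : X.ncard + (Finset.univ.filter (· ∉ X)).card = Nat.card V := by
    have e4 : X.ncard = (Finset.univ.filter (· ∈ X)).card := by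
      rw [← Set.ncard_coe_finset]
      congr 1
      ext x
      simp
    rw [e4, Nat.card_eq_fintype_card, ← Finset.card_univ]
    exact Finset.card_filter_add_card_filter_not _
  have e5 : 0 < Nat.card V := Nat.card_pos
  have e6 : c * (D * X.ncard) = c * D * X.ncard := by ring
  have e7 : 2 * (c * D + 1) * X.ncard = 2 * (c * D * X.ncard + X.ncard) := by ring
  rw [e6] at e2
  rw [e7] at h1
  omega

end Pool.Agent.IM55.GC
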