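import Pool.Agent.Work.MP_55ff09_co.GC.Defs

/-!
# MP_55ff09_co, block GC: statements with proofs

THEOREM. For all `D` and `k` there is `t` such that every finite graph of maximum degree at most `D`
with a `K_t` minor has `Q_k` as an induced minor, where `Q_k` is the `k × k` grid with a clique on `k`
further vertices matched to its first row. Hence for every `H` with a clique `K` such that `H/K` is
planar, bounded degree graphs without induced minor `H` have no `K_t` minor.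

Every statement is a `Prop` `S_XXX`; prove `theorem i_XXX (h : S_AAA) (h' : S_BBB) : S_XXX` in
`GC/I_XXX.lean` (namespace `Pool.Agent.IM55.GC`); any other `S_...` of this file, of `CL/Stmts.lean`
or of `PL/Stmts.lean` may be used as a hypothesis, so nobody has to wait. `PL/Base.lean` and `Defs.lean`
(of MP_55ff09_co) have small lemmas (`conn_subset`, `exit_edge`, `conn_union`, `conn_iUnion`,
`conn_singleton`, `rng_conn`, `seg_conn`, `cmp`, `cmp_connected`, `subset_cmp`, `cmp_adj`, `cmp_eq`,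
`clN_ncard`, ...). `opN G S`: vertices outside `S` with a neighbour in `S`. A connected set is
nonempty. All degrees are at most `D`, `A i`, `i ∈ I`, is the model of a complete graph. Used again and
again: a subset of a small set is small; a connected set disjoint from `opN G R` is contained in `R`
or disjoint from `R` (`conn_subset`); `Ch G I A X b` is monotone in `b` and antitone in `X`.
-/

set_option autoImplicit false

namespace Pool.Agent.IM55.GC

open SimpleGraph Pool.Agent.IM55 Pool.Agent.IM55.PL Pool.Agent.IM55.CL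

/-! ## Costs -/

/-- UNI (EASY): costs of unions. Proof: the union of the two small sets is small by SMU (of `CL`), and
`opN G (R ∪ R') ⊆ opN G R ∪ opN G R'`. -/
def S_UNI : Prop := ∀ {V : Type} [Finite V] (G : SimpleGraph V) (I : Finset ℕ) (A : ℕ → Set V)
  (X Y : Set V) (b c : ℕ), KM G I A → Ch G I A X b → Ch G I A Y c → b + c < I.card →
  Ch G I A (X ∪ Y) (b + c)

/-- UNF (EASY): costs of finite unions. Proof: induction on `s` with UNI; for `s = ∅` take `R = ∅`
(`I` is not empty). -/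
def S_UNF : Prop := ∀ {V ι : Type} [Finite V] (G : SimpleGraph V) (I : Finset ℕ) (A : ℕ → Set V)
  (s : Finset ι) (X : ι → Set V) (b : ℕ), KM G I A → (∀ i ∈ s, Ch G I A (X i) b) →
  s.card * b < I.card → Ch G I A {v | ∃ i ∈ s, v ∈ X i} (s.card * b)

/-- SNG (EASY): a vertex has cost at most `D`. Proof: `R = {v}`; `clN G {v}` has at most `D + 1`
vertices (`clN_ncard`), so it misses one of the disjoint sets `A i`. (See `CL/I_PTH.lean`.) -/
def S_SNG : Prop := ∀ {V : Type} [Finite V] (G : SimpleGraph V) (D : ℕ) (I : Finset ℕ)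
  (A : ℕ → Set V) (v : V), DegLe G D → KM G I A → D + 1 < I.card → Ch G I A {v} D

/-- SPL (MEDIUM): splitting an expensive connected set. Proof: among the connected `Y ⊆ X` with
`¬ Ch Y a` such that `X \ Y` is empty or connected (e.g. `Y = X`) choose `X₁` with `X₁.ncard` minimal;
`X₂ = X \ X₁`. Suppose `Ch X₂ a`. Choose `v ∈ X₁`, adjacent to `X₂` if `X₂ ≠ ∅` (`exit_edge`). For
`u ∈ X₁` adjacent to `v` let `K u = cmp G (X₁ \ {v}) u`. Every vertex of `X₁ \ {v}` is in some `K u`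
(`exit_edge` for `X₁` and its component in `X₁ \ {v}`; use `cmp_eq`). If all `K u` satisfy `Ch (K u) a`
then (UNF for the at most `D` vertices `u`, SNG, UNI twice) `Ch X ((D + 1) a + D)`, a contradiction. So
`¬ Ch (K u) a` for some `u`. `K u` is connected, `K u ⊆ X₁ \ {v}` is smaller than `X₁`, and
`X \ K u` is connected: it is the union of `{v}`, of `X₂` (connected and adjacent to `v`, or empty) and
of the sets `K u' ≠ K u` (connected, adjacent to `v`, disjoint from `K u`). This contradicts the choice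
of `X₁`. So `¬ Ch X₂ a`, in particular `X₂ ≠ ∅` is connected. -/
def S_SPL : Prop := ∀ {V : Type} [Finite V] (G : SimpleGraph V) (D : ℕ) (I : Finset ℕ)
  (A : ℕ → Set V) (a : ℕ) (X : Set V), DegLe G D → KM G I A → (D + 1) * a + D + 1 < I.card →
  (G.induce X).Connected → ¬ Ch G I A X ((D + 1) * a + D) →
  ∃ X₁ X₂ : Set V, X₁ ∪ X₂ = X ∧ Disjoint X₁ X₂ ∧ (G.induce X₁).Connected ∧
    (G.induce X₂).Connected ∧ ¬ Ch G I A X₁ a ∧ ¬ Ch G I A X₂ a

/-- PRT (EASY-MEDIUM): a partition. Proof: strong induction on `W.ncard`. If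
`Ch W ((D + 1) a + D)`: `r = 1`, `P 0 = W`. Otherwise SPL gives `W = X₁ ∪ X₂`, both smaller than `W`
(they are nonempty and disjoint); put the two partitions one after the other:
`P i = P₁ i` for `i < r₁`, `P (r₁ + i) = P₂ i`. -/
def S_PRT : Prop := ∀ {V : Type} [Finite V] (G : SimpleGraph V) (D : ℕ) (I : Finset ℕ)
  (A : ℕ → Set V) (a : ℕ) (W : Set V), DegLe G D → KM G I A → (D + 1) * a + D + 1 < I.card →
  (G.induce W).Connected → ¬ Ch G I A W a →
  ∃ (r : ℕ) (P : ℕ → Set V), Pt G I A a ((D + 1) * a + D) W r P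

/-- MRG (MEDIUM): a partition with quotient of bounded degree. Proof: choose `(r, P)` with `r`
minimal. Suppose `i` has more than `b` neighbours in `qt G r P`. Let `R ⊇ P i` be small with
`|opN G R| ≤ b`, `𝓡 = {j | P j ⊆ R}`, `Y` the component (`cmp`) of `⋃ j ∈ 𝓡, P j` which contains `P i`,
`𝓢 = {j ∈ 𝓡 | P j ⊆ Y}`. Every `P j`, `j ∈ 𝓡`, is connected, so it is inside `Y` or disjoint from `Y`
and not touching `Y`; `Y = ⋃ j ∈ 𝓢, P j`. If `P j`, `j ∉ 𝓢`, touches `Y` then `j ∉ 𝓡`, so `P j ⊄ R`;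
`P j` touches `Y ⊆ R`, so it meets `opN G R` (if it meets `R`, an edge of `P j` leaves `R`). The `P j` are
disjoint, so at most `b` of them touch `Y`, `j ∉ 𝓢`. Hence `𝓢 ≠ {i}`. Replace the sets `P j`, `j ∈ 𝓢`, by
the single set `Y`: connected, `Ch Y b` (`Y ⊆ R`), `¬ Ch Y a` (`P i ⊆ Y`). This is a partition with
less than `r` parts, a contradiction. -/
def S_MRG : Prop := ∀ {V : Type} [Finite V] (G : SimpleGraph V) (I : Finset ℕ)
  (A : ℕ → Set V) (a b : ℕ) (W : Set V) (r : ℕ) (P : ℕ → Set V), Pt G I A a b W r P →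
  ∃ (r' : ℕ) (P' : ℕ → Set V), Pt G I A a b W r' P' ∧ DegLe (qt G r' P') b

/-! ## Quotients and induced minors -/

/-- IMI (EASY): disjoint sets touch iff they are joined by an edge. -/
def S_IMI : Prop := ∀ {V W : Type} (H : SimpleGraph W) (G : SimpleGraph V),
  IsInducedMinor H G ↔ ∃ X, Mdl H G X

/-- TRN (EASY-MEDIUM): transitivity. Proof: with models `X` of `H` in `H'` and `Y` of `H'` in `G`:
`Z h = ⋃ i ∈ X h, Y i`. Connected: two vertices of `Y i`, `Y j`, `i, j ∈ X h`, are joined along a walk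
in `H'[X h]`. (See `conn_preimage` in `Kor/Quo.lean`, or `claimTrans` used in
`Results/MP_55ff09_co/BoundedBakerTreewidth.lean`.) -/
def S_TRN : Prop := ∀ {V W W' : Type} (H : SimpleGraph W) (H' : SimpleGraph W')
  (G : SimpleGraph V), IsInducedMinor H H' → IsInducedMinor H' G → IsInducedMinor H G

/-- QTM (EASY-MEDIUM): models in the quotient. Proof: the union of the sets `P i` over a connected set
of indices is connected (along a walk in `qt G r P`, consecutive sets touch); the rest is clear from the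
definitions. -/
def S_QTM : Prop := ∀ {V W : Type} (G : SimpleGraph V) (r : ℕ) (P : ℕ → Set V)
  (H : SimpleGraph W) (X : W → Set (Fin r)), (∀ i < r, (G.induce (P i)).Connected) →
  (∀ i < r, ∀ j < r, i ≠ j → Disjoint (P i) (P j)) → Mdl H (qt G r P) X →
  Mdl H G fun h => {v | ∃ i ∈ X h, v ∈ P i}

/-- QTC (EASY-MEDIUM): image of a connected set in the quotient. Proof: for adjacent (or equal)
vertices `x ∈ P i`, `y ∈ P j` of `C` one has `i = j` or `(qt G r P).Adj i j`; follow a walk in `G[C]`. -/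
def S_QTC : Prop := ∀ {V : Type} (G : SimpleGraph V) (r : ℕ) (P : ℕ → Set V) (C : Set V),
  (G.induce C).Connected → (∀ v ∈ C, ∃ i < r, v ∈ P i) →
  ((qt G r P).induce {i : Fin r | (P i ∩ C).Nonempty}).Connected

/-! ## Hyperfiniteness -/

/-- LAY (EASY): breadth first search layers. Proof: the proof term of
`Results/MP_55ff09_co/BoundedBakerTreewidth.lean` (import the same files) for `H` transported to
`Fin (Nat.card W)` (IND of `CL`), with `ly = bfs G ρ`, `ρ c` any vertex of the component `c`. -/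
def S_LAY : Prop := ∀ {W : Type} [Finite W] (H : SimpleGraph W) (D : ℕ), ∃ f : ℕ → ℕ,
  ∀ {V : Type} [Finite V] (G : SimpleGraph V), ¬ IsInducedMinor H G → DegLe G D →
  ∃ ly : V → ℕ, (∀ u v, G.Adj u v → ly u ≤ ly v + 1) ∧
    ∀ i l : ℕ, TreewidthLE (G.induce {v | i ≤ ly v ∧ ly v ≤ i + l}) (f l)

/-- TWM (EASY): induced subgraphs. Proof: same tree, restrict the bags (the nodes whose bags contain a
given vertex of `S` are the same). -/
def S_TWM : Prop := ∀ {V : Type} (G : SimpleGraph V) (S T : Set V) (w : ℕ), S ⊆ T →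
  TreewidthLE (G.induce T) w → TreewidthLE (G.induce S) w

/-- CTS (MEDIUM): cutting a graph of small tree width into small pieces. Proof: for every `W : Finset V`
there are `X ⊆ W` with `M |X| ≤ (w + 1) |W|` and `p` with `p u = p v` for adjacent `u, v ∈ W \ X` and
classes of `W \ X` of size at most `2 M`: strong induction on `|W|`. If `|W| < M`: `X = ∅`, `p = 0`.
Otherwise `Pool.Agent.PHer.D14` (`MP_cfa43e_lc/Her/D14.lean`; `PD14` of `Her/StmtsD.lean`, with
`Pool.Agent.PReg.S2a`, `S2b`; `TreeWidthLE` there has the same definition) gives `U`, `X₀`; apply the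
induction hypothesis to `W' = W \ (U ∪ X₀)`: `X'`, `p'`; `X = X₀ ∪ X'`, `p v = 0` for `v ∈ U`,
`p v = p' v + 1` otherwise. `M |X| ≤ M (w + 1) + (w + 1) |W'| ≤ (w + 1) |W|` because `M ≤ |U|`. Take
`W = univ`. -/
def S_CTS : Prop := ∀ {V : Type} [Finite V] (G : SimpleGraph V) (w M : ℕ), TreewidthLE G w →
  w + 1 ≤ M → ∃ (X : Set V) (p : V → ℕ), M * X.ncard ≤ (w + 1) * Nat.card V ∧
    (∀ u, u ∉ X → ∀ v, v ∉ X → G.Adj u v → p u = p v) ∧
    ∀ i, {v | v ∉ X ∧ p v = i}.ncard ≤ 2 * M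

/-- SEP (MEDIUM): the same for graphs without induced minor `H`. Proof: `f` from LAY,
`l = 2 (e + 1)`, `w = f l`, `M = 2 (e + 1) (w + 1)`, `m = 2 M`. For some `j < l` the set
`Y = {v | ly v % l = j}` has `l |Y| ≤ |V|` (the `l` residue classes partition `V`). Group of `v`:
`s v = (ly v + (l - 1 - j)) / l`. The layers of a group are at most `l` consecutive ones:
`{v | s v = i} ⊆ {v | i₀ ≤ ly v ≤ i₀ + l}`, `i₀ = i l - (l - 1 - j)` (truncated), so its induced graph
has tree width at most `w` (TWM). Adjacent vertices outside `Y` are in the same group (a vertex in the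
last layer of its group is in `Y`). CTS in every group `i` (finitely many): `X i`, `p i`; `X = Y ∪ ⋃ X i`,
`p v = Nat.pair (s v) (p (s v) v)`. `2 (e + 1) |Y| ≤ |V|`, `M ∑ |X i| ≤ (w + 1) |V|`, so
`2 (e + 1) |X| ≤ 2 |V|`. -/
def S_SEP : Prop := ∀ {W : Type} [Finite W] (H : SimpleGraph W) (D e : ℕ), ∃ m : ℕ,
  ∀ {V : Type} [Finite V] (G : SimpleGraph V), ¬ IsInducedMinor H G → DegLe G D →
  ∃ (X : Set V) (p : V → ℕ), e * X.ncard ≤ Nat.card V ∧
    (∀ u, u ∉ X → ∀ v, v ∉ X → G.Adj u v → p u = p v) ∧ ∀ i, {v | v ∉ X ∧ p v = i}.ncard ≤ m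

/-- HYP (MEDIUM): a bounded set with small boundary. Proof: SEP with `e = 2 (c D + 1)`. Suppose every
class `S i = {v ∉ X | p v = i}` which is not empty has `|S i| ≤ c |opN G (S i)|`. `opN G (S i) ⊆ X`, and
every `x ∈ X` is in `opN G (S i)` for at most `D` different `i` (one neighbour each), so
`|V| - |X| = ∑ |S i| ≤ c ∑ |opN G (S i)| ≤ c D |X|`, `2 |V| ≤ 2 (c D + 1) |X| ≤ |V|`, a
contradiction. -/
def S_HYP : Prop := ∀ {W : Type} [Finite W] (H : SimpleGraph W) (D c : ℕ), ∃ m : ℕ,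
  ∀ {V : Type} [Finite V] [Nonempty V] (G : SimpleGraph V), ¬ IsInducedMinor H G → DegLe G D →
  ∃ S : Set V, S.Nonempty ∧ S.ncard ≤ m ∧ c * (opN G S).ncard < S.ncard

/-! ## A region of bounded boundary with many heavy sets -/

/-- PCK (MEDIUM): Proof: `b = (D + 1) a + D`; `m₁` from HYP for `H`, degree `b` and `c b + 1`;
`m = 2 m₁ b + m₁ b + b + 1`. `W₀ = cmp G univ x`, `x ∈ A i₀`: it contains all `A i` (connected, touching
`A i₀`), so it is contained in no small set, `¬ Ch W₀ a`. PRT, MRG: `r`, `P` with `DegLe (qt G r P) b`;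
`0 < r` (`W₀` is not empty). `H` is not an induced minor of `qt G r P` (QTM, IMI). HYP: `S`. For `j < r`
let `R j ⊇ P j` be small with `|opN G (R j)| ≤ b`; `R = (⋃ i ∈ S, P i) ∪ ⋃ j ∈ opN (qt G r P) S, R j`.
`|opN S| < |S| ≤ m₁`. `R` is contained in the union of at most `2 m₁` sets `R j`, which is contained in a
small set (UNF), so `R` is small. Let `x ∈ opN G R`, adjacent to `y ∈ R`. If `y ∈ R j`, `j ∈ opN S`, then
`x ∈ opN G (R j)`. If `y ∈ P i`, `i ∈ S`: `x ∈ W₀`, `x ∈ P j`, `j ∉ S` (`x ∉ R`), so `j ∈ opN S` and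
`x ∈ R j ⊆ R`, impossible. So `|opN G R| ≤ b |opN S| ≤ b m₁`, `c |opN G R| ≤ c b |opN S| < |S| = p`; the
sets `X i` are the `P i`, `i ∈ S`. -/
def S_PCK : Prop := ∀ {W : Type} [Finite W] (H : SimpleGraph W) (D a c : ℕ), ∃ m : ℕ,
  ∀ {V : Type} [Finite V] (G : SimpleGraph V) (I : Finset ℕ) (A : ℕ → Set V), DegLe G D →
  ¬ IsInducedMinor H G → KM G I A → m < I.card →
  ∃ (R : Set V) (p : ℕ) (X : ℕ → Set V), Sm G I A R ∧ (opN G R).ncard ≤ m ∧
    Fh G I A a R p X ∧ c * (opN G R).ncard < p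

/-- HVN (MEDIUM): the extremal choice. Proof: consider all `(R, p, X)` with `Sm R`, `Fh a R p X`,
`1 ≤ p` and `c |opN G R| < p + g + 2 g c` (e.g. the given one) and choose one with `z = |opN G R|`
minimal. `X 0 ⊆ R` is heavy, so `2 g ≤ a < z`, hence `c (2 g + 1) ≤ c z < p + g + 2 g c`, `c < p + g`.
Suppose `Unsep` fails for `S`, `i`, `j`. `O = (R ∪ opN G R) \ S`, `C₁ = cmp G O x` for an `x ∈ X i`,
`C₂ = O \ C₁`. `X i ⊆ C₁`; `X j ⊆ C₂` (otherwise `C₁` contains `X j`, and `C = C₁`). `R₁ = R ∩ C₁`,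
`R₂ = R ∩ C₂` are small. A vertex of `opN G R₁` is in `R ∪ opN G R` (`R₁ ⊆ R`); if it is not in `S`, it is
in `C₁` (`cmp_adj`), so in `C₁ ∩ opN G R`; so `|opN G R₁| ≤ z₁ + g`, `z₁ = |C₁ ∩ opN G R|`. In the same
way `|opN G R₂| ≤ z₂ + g`, and `z₁ + z₂ ≤ z`. `X i ⊆ R₁` is heavy, so `2 g < |opN G R₁| ≤ z₁ + g`,
`g < z₁`; in the same way `g < z₂`. So `|opN G R₁|, |opN G R₂| < z`. Let `p₁`, `p₂` be the numbers of `k < p`
with `X k ⊆ R₁`, `X k ⊆ R₂` (both `≥ 1`). Every other `X k` meets `S` (it is connected): at most `g` of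
them, `p ≤ p₁ + p₂ + g`. By the choice of `z`: `p₁ + g + 2 g c ≤ c |opN G R₁| ≤ c (z₁ + g)`, and
`p₂ + g + 2 g c ≤ c (z₂ + g)`. Sum: `p + g + 2 g c ≤ p₁ + p₂ + 2 g + 2 g c ≤ c (z₁ + z₂) ≤ c z`, a
contradiction. (To get families indexed by `k < p₁` renumber.) -/
def S_HVN : Prop := ∀ {V : Type} [Finite V] (G : SimpleGraph V) (I : Finset ℕ) (A : ℕ → Set V)
  (a g c m : ℕ) (R₀ : Set V) (p₀ : ℕ) (X₀ : ℕ → Set V), 2 * g ≤ a → Sm G I A R₀ →
  (opN G R₀).ncard ≤ m → Fh G I A a R₀ p₀ X₀ → c * (opN G R₀).ncard < p₀ →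
  ∃ (R : Set V) (p : ℕ) (X : ℕ → Set V), Sm G I A R ∧ (opN G R).ncard ≤ m ∧
    Fh G I A a R p X ∧ c < p + g ∧ Unsep G R g p X

/-- BRB (EASY-MEDIUM): brambles. Proof: let `t`, `bag` be a tree decomposition. By
`Pool.Agent.PReg.S2b` (`MP_cfa43e_lc`, used in `Bd/B13.lean`) for every `S` with `|S| ≤ w + 1` the nodes
whose bags meet `C S` form a connected set `N S`; any two of them intersect (a vertex of `C S ∩ C S'` is in
some bag); by `S2a` (finite index type `{S : Set V // S.ncard ≤ w + 1}`) there is a common node `x`. But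
`S = bag x` has at most `w + 1` vertices and is disjoint from `C S`. -/
def S_BRB : Prop := ∀ {V : Type} [Finite V] (G : SimpleGraph V) (w : ℕ) (C : Set V → Set V),
  TreewidthLE G w →
  (∀ S, S.ncard ≤ w + 1 → (G.induce (C S)).Connected ∧ Disjoint (C S) S) →
  (∀ S S', S.ncard ≤ w + 1 → S'.ncard ≤ w + 1 → (C S ∩ C S').Nonempty) → False

/-- TWL (MEDIUM): the quotient has large tree width. Proof: suppose not. Let `𝒮 : Set (Fin r)`,
`|𝒮| ≤ w + 1`. By `Pt.up` and UNF there is a small `R' ⊇ ⋃ i ∈ 𝒮, P i` with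
`|opN G R'| ≤ (w + 1) b₁ ≤ g ≤ a`; `S = opN G R'`. A set `X k` disjoint from `S` is disjoint from `R'`
(connected; it is not contained in `R'` because `¬ Ch (X k) a`). At most `g` of the disjoint sets `X k`
meet `S`. Let `X k` be one disjoint from `S`, `x ∈ X k`, `C = cmp G ((R ∪ opN G R) \ S) x`. By `Unsep` it
contains all `X k'` disjoint from `S`. `C` is connected, avoids `S = opN G R'` and is not contained in
`R'`, so it is disjoint from `R'`; `C ⊆ W`. Let `C' 𝒮 = {i : Fin r | (P i ∩ C).Nonempty}`: connected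
(QTC) and disjoint from `𝒮`. For two sets `𝒮`, `𝒮'` some `X k` is disjoint from both `S` and `S'`
(`2 g < p`), so it is in both `C`, and the `i` with `x ∈ P i`, `x ∈ X k`, is in both `C'`. This
contradicts BRB. -/
def S_TWL : Prop := ∀ {V : Type} [Finite V] (G : SimpleGraph V) (I : Finset ℕ) (A : ℕ → Set V)
  (a g w a₁ b₁ p r : ℕ) (R W : Set V) (X P : ℕ → Set V), KM G I A → Fh G I A a R p X →
  Unsep G R g p X → W ⊆ R ∪ opN G R → (∀ i < p, X i ⊆ W) →
  (∀ C ⊆ R ∪ opN G R, (G.induce C).Connected → (C ∩ W).Nonempty → C ⊆ W) →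
  Pt G I A a₁ b₁ W r P → (w + 1) * b₁ ≤ g → g ≤ a → (w + 1) * b₁ < I.card → 2 * g < p →
  ¬ TreewidthLE (qt G r P) w

/-- GRD (EASY-MEDIUM): an induced grid with heavy cells. Proof: `w` from `Kor.korhonen b N`
(`Kor/Main.lean`; `TreeWidthLE` there has the same definition): `grid (N + 2)` is an induced minor of
`qt G r P`; IMI, QTM: a model in `G`; `U x y` is the branch set of `(x, y)` for `x, y < N`. It contains
some `P i`, so it is heavy. -/
def S_GRD : Prop := ∀ N b : ℕ, ∃ w : ℕ, ∀ {V : Type} [Finite V] (G : SimpleGraph V)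
  (I : Finset ℕ) (A : ℕ → Set V) (a : ℕ) (W : Set V) (r : ℕ) (P : ℕ → Set V),
  Pt G I A a b W r P → DegLe (qt G r P) b → ¬ TreewidthLE (qt G r P) w →
  ∃ U : ℕ → ℕ → Set V, Gd G N U ∧ ∀ x < N, ∀ y < N, U x y ⊆ W ∧ ¬ Ch G I A (U x y) a

/-- CEN (MEDIUM): an induced grid with heavy cells in a region of bounded boundary. Proof:
`b₁ = (D + 1) a + D`, `w` from GRD for `N`, `b₁`; `g = (w + 1) b₁`, `a' = 2 g + a`, `c = 3 g`; `m₁` from
PCK for `H`, `D`, `a'`, `c`; `m = m₁ (D + 1) + g + b₁ + 1`. PCK, HVN (with `m = m₁`): `R`, `p`, `X`;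
`3 g < p + g`, so `2 g < p`. `W = cmp G (R ∪ opN G R) x`, `x ∈ X 0`: connected, contains all `X i`
(`Unsep` for `S = ∅`), `¬ Ch W a` (`Ch W a` would give `Ch (X 0) a'`). PRT and MRG for `W`: `r`, `P`. TWL, GRD:
`U`. By UNI, UNF and SNG `Ch (R ∪ opN G R) (m₁ + m₁ D)`: this gives the `R` of the conclusion. -/
def S_CEN : Prop := ∀ {W : Type} [Finite W] (H : SimpleGraph W) (D a N : ℕ), ∃ m : ℕ,
  ∀ {V : Type} [Finite V] (G : SimpleGraph V) (I : Finset ℕ) (A : ℕ → Set V), DegLe G D →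
  ¬ IsInducedMinor H G → KM G I A → m < I.card →
  ∃ (U : ℕ → ℕ → Set V) (R : Set V), Gd G N U ∧
    (∀ x < N, ∀ y < N, U x y ⊆ R ∧ ¬ Ch G I A (U x y) a) ∧ Sm G I A R ∧ (opN G R).ncard ≤ m

/-! ## Rooting the grid -/

/-- MCT (MEDIUM): Menger with contracted cells (model: `CL/I_MNQ.lean`). Proof: choose `ρ q ∈ U q` for
`q ∈ Q`; `κ x = ρ q` if `x ∈ U q`, `q ∈ Q`, and `κ x = x` otherwise. `G'` on `V`: `a ~ b` iff `a ≠ b` and
`κ x = a`, `κ y = b` for some adjacent `x, y ∈ O`. MEN (of `PL`) in `G'` with `U' = κ '' O`, `A' = Z`,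
`B' = {ρ q | q ∈ Q}`, `m = K`. (1) If `T' ⊆ U'`, `|T'| < K`, meets all connectors: `T = T' \ B'`,
`Q' = {q ∈ Q | ρ q ∈ T'}`. If `C` as in `Sp.sep` met a cell in `Q` then `κ '' C` would be a connector (it
is `G'`-connected, as `C ⊆ O`) avoiding `T'`. (2) Otherwise there are `K` disjoint connectors; by IPA
each contains an induced `G'`-path `w 0, ..., w l'` with only `w 0` in `Z` and only `w l' = ρ q` in `B'`;
`1 ≤ l'` because the cells are disjoint from `Z`. Take `w 0, ..., w (l' - 1)`, `α = q`: these vertices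
are in `O` and in no cell, and for two such vertices adjacency in `G` and in `G'` is the same;
`w (l' - 1) ~ ρ q` in `G'` means that `w (l' - 1)` touches `U q`. -/
def S_MCT : Prop := ∀ {V : Type} [Finite V] (G : SimpleGraph V) (O Z : Set V)
  (Q : Finset (ℕ × ℕ)) (U : ℕ → ℕ → Set V) (K : ℕ), 1 ≤ K → Z ⊆ O →
  (∀ q ∈ Q, (G.induce (U q.1 q.2)).Connected ∧ U q.1 q.2 ⊆ O ∧ Disjoint (U q.1 q.2) Z) →
  (∀ q ∈ Q, ∀ q' ∈ Q, q ≠ q' → Disjoint (U q.1 q.2) (U q'.1 q'.2)) →
  (∃ w l α, Rt G O Z Q U K w l α) ∨ ∃ T Q', Sp G O Z Q U K T Q'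

/-- CN2 (EASY): two indices without conflict. Proof: for every `a` the set `T a` meets at most `K - 1`
of the disjoint sets `B b`: at most `2 K (K - 1)` ordered pairs `(a, b)` with `T a ∩ B b ≠ ∅`, less than
the `K (2 K - 1)` pairs `a < b`. (Model: `CL/I_CNF.lean`.) -/
def S_CN2 : Prop := ∀ {V : Type} [Finite V] (K : ℕ) (B T : ℕ → Set V), 1 ≤ K →
  (∀ a < 2 * K, ∀ b < 2 * K, a ≠ b → Disjoint (B a) (B b)) → (∀ a < 2 * K, (T a).ncard < K) →
  ∃ a < 2 * K, ∃ b < 2 * K, a ≠ b ∧ Disjoint (T a) (B b) ∧ Disjoint (T b) (B a)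

/-- ESC (EASY-MEDIUM): a heavy set is not separated from the boundary of a region by few vertices.
Proof: `C = cmp G ((R ∪ opN G R) \ S) y`, `y ∈ Y`; `Y ⊆ C`. If `C` does not meet `opN G R` then `C ⊆ R` is
small and `opN G C ⊆ S` (a neighbour of `C ⊆ R` is in `R ∪ opN G R`), so `Ch Y a`, a contradiction. IPA
(of `PL`) for the connector `C` between `Y` and `opN G R`. -/
def S_ESC : Prop := ∀ {V : Type} [Finite V] (G : SimpleGraph V) (I : Finset ℕ) (A : ℕ → Set V)
  (a : ℕ) (R Y S : Set V), Sm G I A R → Y ⊆ R → (G.induce Y).Connected → ¬ Ch G I A Y a →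
  S.ncard ≤ a → Disjoint Y S →
  ∃ (w : ℕ → V) (l : ℕ), IP G w l ∧ w 0 ∈ Y ∧ w l ∈ opN G R ∧ rng w l ⊆ (R ∪ opN G R) \ S

/-- UQC (EASY-MEDIUM): the union of the cells of a connected set of positions is connected. Proof: along
a walk in `ngr.induce Q` consecutive cells touch (`Gd.adj`), `conn_union`. -/
def S_UQC : Prop := ∀ {V : Type} (G : SimpleGraph V) (N : ℕ) (U : ℕ → ℕ → Set V)
  (Q : Set (ℕ × ℕ)), Gd G N U → (∀ q ∈ Q, q.1 < N ∧ q.2 < N) → (ngr.induce Q).Connected →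
  (G.induce (UQ U Q)).Connected

/-- RCT (EASY): rectangles are connected. -/
def S_RCT : Prop := ∀ x₀ x₁ y₀ y₁ : ℕ, x₀ < x₁ → y₀ < y₁ →
  (ngr.induce {q : ℕ × ℕ | x₀ ≤ q.1 ∧ q.1 < x₁ ∧ y₀ ≤ q.2 ∧ q.2 < y₁}).Connected

/-- CRS (EASY-MEDIUM): a row and a column without obstacles. Proof: every `t ∈ T` is in at most one cell
and every `q ∈ Q'` is one position, so together they hit less than `K` rows and less than `K` columns;
choose `x` among the `K` rows, `y` among the `K` columns. The row and the column are connected (UQC,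
RCT) and share the cell `(x, y)`. -/
def S_CRS : Prop := ∀ {V : Type} [Finite V] (G : SimpleGraph V) (N K : ℕ)
  (U : ℕ → ℕ → Set V) (T : Set V) (Q' : Finset (ℕ × ℕ)) (x₀ y₀ : ℕ), Gd G N U →
  T.ncard + Q'.card < K → x₀ + K ≤ N → y₀ + K ≤ N →
  ∃ x y, x₀ ≤ x ∧ x < x₀ + K ∧ y₀ ≤ y ∧ y < y₀ + K ∧
    (G.induce (UQ U {q | q.1 < N ∧ q.2 < N ∧ (q.1 = x ∨ q.2 = y)})).Connected ∧
    Disjoint (UQ U {q | q.1 < N ∧ q.2 < N ∧ (q.1 = x ∨ q.2 = y)}) T ∧
    ∀ q ∈ Q', q.1 ≠ x ∧ q.2 ≠ y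

/-- ROO (MEDIUM): rooting. Proof: `O = R ∪ opN G R`, `Z = opN G R`, `Q a = Bk (a n) (a n) n`. Suppose not.
MCT gives `T a`, `Q' a` with `Sp` for all `a < 2 K`. CN2 with `B a = UQ U (Q a)`: `a ≠ b`. The cell
`Y = U (b n) (b n)` is disjoint from `T a` (CN2) and from `T b` (`Sp.off`); ESC with `S = T a ∪ T b`
(less than `2 K` vertices): a path `w` in `O \ S` from `Y` to `Z`. Let `j ≤ l` be the largest index with
`w j ∈ UQ U (Q a) ∪ UQ U (Q b)`; both cases are the same up to exchanging `a` and `b` (the path avoids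
`T a` and `T b`), so let `w j ∈ UQ U (Q b)`. `C₁ = UQ U (Q b) ∪ {w i | j ≤ i ≤ l}` is connected (UQC,
RCT), contained in `O`, meets `Z`, avoids `T a` and `UQ U (Q a)` (the blocks are disjoint). CRS with
`T a`, `Q' a`, `x₀ = b n`, `y₀ = a n`: `x`, `y` and the cross `L`; `L` contains the cell `(x, b n)` of the
block `b` and the cell `(a n, y)` of the block `a`, avoids `T a` and all cells in `Q' a`. `C = C₁ ∪ L`
is connected, contained in `O`, avoids `T a` and `UQ U (Q' a)` and meets `Z`, so by `Sp.sep` it is disjoint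
from `UQ U (Q a)`, but it contains the cell `(a n, y)`, a contradiction. -/
def S_ROO : Prop := ∀ {V : Type} [Finite V] (G : SimpleGraph V) (I : Finset ℕ) (A : ℕ → Set V)
  (K n : ℕ) (U : ℕ → ℕ → Set V) (R : Set V), 1 ≤ K → K ≤ n → Gd G (2 * K * n) U → Sm G I A R →
  (∀ x < 2 * K * n, ∀ y < 2 * K * n, U x y ⊆ R ∧ ¬ Ch G I A (U x y) (2 * K)) →
  ∃ a < 2 * K, ∃ w l α, Rt G (R ∪ opN G R) (opN G R) (Bk (a * n) (a * n) n) U K w l α

/-- TCU (EASY-MEDIUM): cutting a path. Proof: a vertex outside all cells touches at most `D` cells (one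
neighbour in each). Let `j` be the least index `≤ l` with `K ≤ |tch (rng w j)|`, or `j = l` if there is
none. `|tch (rng w j)| ≤ |tch (rng w (j - 1))| + D < K + D` if `j ≥ 1`, and `≤ D` if `j = 0`. -/
def S_TCU : Prop := ∀ {V : Type} [Finite V] (G : SimpleGraph V) (D K : ℕ)
  (Q : Finset (ℕ × ℕ)) (U : ℕ → ℕ → Set V) (w : ℕ → V) (l : ℕ), DegLe G D →
  (∀ q ∈ Q, ∀ q' ∈ Q, q ≠ q' → Disjoint (U q.1 q.2) (U q'.1 q'.2)) →
  Disjoint (rng w l) (UQ U Q) → ∃ j ≤ l, (tch G Q U (rng w j)).card ≤ K + D ∧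
    (K ≤ (tch G Q U (rng w j)).card ∨ j = l)

/-- SDR (EASY): different representatives. Proof: Hall's theorem (Mathlib,
`Finset.all_card_le_biUnion_card_iff_exists_injective`) on `Fin K`: if some `F c`, `c ∈ s`, has at least
`K ≥ |s|` elements, fine; otherwise the `α c`, `c ∈ s`, are `|s|` different elements of the union. -/
def S_SDR : Prop := ∀ (K : ℕ) (F : ℕ → Finset (ℕ × ℕ)) (α : ℕ → ℕ × ℕ),
  (∀ c < K, K ≤ (F c).card ∨ α c ∈ F c) → (∀ c < K, ∀ c' < K, c ≠ c' → α c ≠ α c') →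
  ∃ β : ℕ → ℕ × ℕ, (∀ c < K, β c ∈ F c) ∧ ∀ c < K, ∀ c' < K, c ≠ c' → β c ≠ β c'

/-! ## Routing and assembly -/

/-- RTE (MEDIUM): routing in a rectangle. Proof: (1) if `F` has elements in at least `k` different
columns, choose `k` of these columns `c 0 < ... < c (k - 1)`, `b j ∈ F` in the column `c j`,
`L j = {(x, c j) | (b j).1 ≤ x < r}`. (2) Otherwise some column `y` contains at least `k` elements of `F`
(`(k - 1) ^ 2 < |F|`): `(x 0, y), ..., (x (k - 1), y)`, `x 0 > x 1 > ... > x (k - 1)`. If `y + k ≤ n`: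
`c j = y + j`, `b j = (x j, y)`, `L j = {(x j, y') | y ≤ y' ≤ y + j} ∪ {(x', y + j) | x j ≤ x' < r}`.
For `i < j`: `x j < x i`, the cells of `L j` are in row `x j` or in column `y + j`, those of `L i` in rows
`≥ x i` and columns `≤ y + i`, so they are disjoint; for `j ≥ 1` the row `x j` is not the last one. If
`n < y + k` then `k ≤ y`; reflect: `c j = y - (k - 1 - j)`, `b j = (x i, y)`, `i = k - 1 - j`,
`L j = {(x i, y') | y - i ≤ y' ≤ y} ∪ {(x', y - i) | x i ≤ x' < r}`. -/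
def S_RTE : Prop := ∀ (r n k : ℕ) (F : Finset (ℕ × ℕ)), 1 ≤ k → 2 * k ≤ n →
  (∀ q ∈ F, q.1 < r ∧ q.2 < n) → (k - 1) ^ 2 < F.card →
  ∃ b L c, Ro r n k b L c ∧ ∀ j < k, b j ∈ F

/-- ASR (MEDIUM): assembly, one side. Proof: RTE with `F = {β c | c < K}` gives `b`, `L`, `γ`; for
`j < k` let `b j = β (c j)` (the `c j` are different because the `L j` are disjoint). Branch set of `inl j`:
`T (c j) ∪ UQ U (L j)` (UQC; they touch at the cell `b j`); of `inr (i, j)`:
`UQ U {(r + i, y) | γ j ≤ y < γ (j + 1)}`, where `γ k` is replaced by `γ (k - 1) + 1` (UQC, RCT). They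
are disjoint. `inl j`, `inl j'`: the `T` touch. `inl j`, `inr (i, j')`: `T (c j)` touches no cell of the
rows `r, ..., r + k - 1`; a cell of `L j` (row `< r`) touches `(r + i, y)` iff it is `(r - 1, γ j)`,
`i = 0` and `y = γ j`; so iff `i = 0`, `j = j'`. `inr (i, j)`, `inr (i', j')`: by `Gd.adj`, iff
`i = i'` and `j`, `j'` are consecutive (cells `(r + i, γ (j + 1) - 1)` and `(r + i, γ (j + 1))`), or
`j = j'` and `i`, `i'` are consecutive. -/
def S_ASR : Prop := ∀ {V : Type} [Finite V] (G : SimpleGraph V) (n k K r : ℕ)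
  (U : ℕ → ℕ → Set V) (T : ℕ → Set V) (β : ℕ → ℕ × ℕ), Gd G n U → 1 ≤ k → 2 * k ≤ n →
  r + k ≤ n → (∀ c < K, (G.induce (T c)).Connected) →
  (∀ c < K, ∀ c' < K, c ≠ c' → Disjoint (T c) (T c') ∧ Touch G (T c) (T c') ∧ β c ≠ β c') →
  (∀ c < K, ∀ x < n, ∀ y < n, Disjoint (T c) (U x y)) →
  (∀ c < K, (β c).1 < r ∧ (β c).2 < n ∧ Touch G (T c) (U (β c).1 (β c).2)) →
  (∀ c < K, ∀ x < n, ∀ y < n, r ≤ x → x < r + k → ¬ Touch G (T c) (U x y)) →
  (k - 1) ^ 2 < K → IsInducedMinor (Qk k) G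

/-- SHF (EASY): sub-blocks and reflections of grid models. -/
def S_SHF : Prop := ∀ {V : Type} (G : SimpleGraph V) (N n x₀ y₀ : ℕ) (U : ℕ → ℕ → Set V),
  Gd G N U → x₀ + n ≤ N → y₀ + n ≤ N → Gd G n (fun x y => U (x₀ + x) (y₀ + y)) ∧
    Gd G N fun x y => U (N - 1 - x) y

/-- SHT (EASY): touched cells of a shifted block. -/
def S_SHT : Prop := ∀ {V : Type} (G : SimpleGraph V) (n x₀ y₀ : ℕ) (U : ℕ → ℕ → Set V)
  (T : Set V), tch G (Bk 0 0 n) (fun x y => U (x₀ + x) (y₀ + y)) T =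
    (tch G (Bk x₀ y₀ n) U T).image fun q => (q.1 - x₀, q.2 - y₀)

/-- ASQ (EASY-MEDIUM): assembly. Proof: `F = ⋃ c < K, tch (T c)` has at most `M` elements, so one of the
`M + 1` bands of rows `i k, ..., i k + k - 1`, `i ≤ M`, contains no element of `F`; `r = i k`. Every
`β c ∈ F` is in a row `< r` or `≥ r + k`. If more than `(k - 1) ^ 2` of them are in rows `< r`:
renumber these and apply ASR. Otherwise more than `(k - 1) ^ 2` are in rows `≥ r + k`: apply ASR to
the reflected model (SHF), `r' = n - r - k`, `β' c = (n - 1 - (β c).1, (β c).2)`. -/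
def S_ASQ : Prop := ∀ {V : Type} [Finite V] (G : SimpleGraph V) (n k K M : ℕ)
  (U : ℕ → ℕ → Set V) (T : ℕ → Set V) (β : ℕ → ℕ × ℕ), Gd G n U → 1 ≤ k → 2 * k ≤ n →
  k * (M + 1) ≤ n → 2 * (k - 1) ^ 2 < K → (∀ c < K, (G.induce (T c)).Connected) →
  (∀ c < K, ∀ c' < K, c ≠ c' → Disjoint (T c) (T c') ∧ Touch G (T c) (T c') ∧ β c ≠ β c') →
  (∀ c < K, Disjoint (T c) (UQ U (Bk 0 0 n))) → (∀ c < K, β c ∈ tch G (Bk 0 0 n) U (T c)) →
  ((Finset.range K).biUnion fun c => tch G (Bk 0 0 n) U (T c)).card ≤ M →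
  IsInducedMinor (Qk k) G

/-- TLZ (EASY): tails. Proof: `M` from LNK (of `CL`, with `n = 0`), `t = M + q`; OUT gives `E` with
`M ≤ |E|`; LNK gives `D ⊆ E` with `q ≤ fo G A D S` for all `S ⊇ R` disjoint from `UA A D`; MNQ. -/
def S_TLZ : Prop := ∀ q : ℕ, ∃ t : ℕ, ∀ {V : Type} [Finite V] (G : SimpleGraph V)
  (I : Finset ℕ) (A : ℕ → Set V) (R : Set V), KM G I A → Sm G I A R → (opN G R).ncard = q →
  (∀ S, R ⊆ S → Sm G I A S → q ≤ (opN G S).ncard) → t ≤ I.card →
  ∃ X : V → Set V, ∀ z ∈ opN G R, (G.induce (X z)).Connected ∧ z ∈ X z ∧ Disjoint (X z) R ∧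
    ∀ z' ∈ opN G R, z ≠ z' → Disjoint (X z) (X z') ∧ Touch G (X z) (X z')

/-- TAI (EASY-MEDIUM): tails and paths. Proof: `T c = rng (w c) (j c) ∪ X (w c 0)`: both are connected
and contain `w c 0`. `X z ∩ (R ∪ opN G R) = {z}` for `z ∈ opN G R` (`z' ∈ X z'` is disjoint from `X z`).
So the `T c` are pairwise disjoint and disjoint from the cells; they touch because the `X z` do. If a
vertex of `X (w c 0)` is equal or adjacent to a vertex of a cell (in `R`), it is in `opN G R`, so it is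
`w c 0 ∈ rng (w c) (j c)`: hence `tch (T c) = tch (rng (w c) (j c))`. -/
def S_TAI : Prop := ∀ {V : Type} [Finite V] (G : SimpleGraph V) (R : Set V)
  (Q : Finset (ℕ × ℕ)) (U : ℕ → ℕ → Set V) (K : ℕ) (w : ℕ → ℕ → V) (l : ℕ → ℕ)
  (α : ℕ → ℕ × ℕ) (j : ℕ → ℕ) (X : V → Set V), Rt G (R ∪ opN G R) (opN G R) Q U K w l α →
  (∀ q ∈ Q, U q.1 q.2 ⊆ R) → (∀ c < K, j c ≤ l c) →
  (∀ z ∈ opN G R, (G.induce (X z)).Connected ∧ z ∈ X z ∧ Disjoint (X z) R ∧
    ∀ z' ∈ opN G R, z ≠ z' → Disjoint (X z) (X z') ∧ Touch G (X z) (X z')) →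
  ∃ T : ℕ → Set V, (∀ c < K, (G.induce (T c)).Connected ∧ Disjoint (T c) (UQ U Q) ∧
    tch G Q U (T c) = tch G Q U (rng (w c) (j c))) ∧
    ∀ c < K, ∀ c' < K, c ≠ c' → Disjoint (T c) (T c') ∧ Touch G (T c) (T c')

/-- FNL (MEDIUM): the theorem. Proof: `k = 0` is trivial (no vertices). `K = 2 (k - 1) ^ 2 + 1`,
`M = K (K + D)`, `n = K + 2 k + k (M + 1)`, `N = 2 K n`; suppose `Qk k` is not an induced minor; `m` from
CEN for `H = Qk k`, `D`, `a = 2 K`, `N`; `t = m + 1 + ∑ q ≤ m, t q`, `t q` from TLZ. The model of `K_t`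
is a `KM G (range t) A`. CEN: `U`, `R`. Choose a small `R' ⊇ R` with `q = |opN G R'| ≤ m` minimal; TLZ for
`R'`: `X`. ROO for `R'`: a block `a`, `w`, `l`, `α`. TCU for every `c < K` (`Q = Bk (a n) (a n) n`): `j c`.
TAI: `T`. SDR with `F c = tch (T c)` (if `j c = l c` then `α c ∈ F c` by `Rt.foot`): `β`. `|F c| ≤ K + D`,
so the union of the `F c` has at most `M` elements. ASQ for `U' x y = U (a n + x) (a n + y)` (SHF, SHT) and
`β' c = β c - (a n, a n)`. -/
def S_FNL : Prop := ∀ D k : ℕ, ∃ t : ℕ, ∀ {V : Type} [Finite V] (G : SimpleGraph V),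
  DegLe G D → IsInducedMinor (⊤ : SimpleGraph (Fin t)) G → IsInducedMinor (Qk k) G

/-! ## Graphs whose contraction along a clique is planar -/

/-- EMQ (MEDIUM): Proof: `a = m + 1`, `k = a (n + 1)`. For `v ∉ K` the branch set is
`{inr (x, y) | (x / a, y / a) ∈ B v}`: connected (the square of a position is connected, the squares of
adjacent positions touch), disjoint, and two of them are joined iff some `p ∈ B u`, `q ∈ B v` are adjacent
(adjacent fine positions are in the same square or in adjacent squares). For `v ∉ K` adjacent to `K`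
choose `y v` with `(0, y v) ∈ B v`. For `u ∈ K` (`u : Fin m`, `u < a`) the branch set is `{inl c | c ∈ J u}`,
`J u = {a n + u} ∪ {a (y v) + u | v ∉ K, H.Adj u v}`: nonempty, so connected (clique), disjoint for
different `u` (`c % a = u`), joined for different `u` (clique). `J u` is joined to the branch set of
`v ∉ K` iff some `c ∈ J u` has `(0, c / a) ∈ B v`: for `c = a n + u` this is impossible (`B v` has
columns `< n`), for `c = a (y v') + u` it means `(0, y v') ∈ B v`, so `v = v'` and `H.Adj u v`. -/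
def S_EMQ : Prop := ∀ (m : ℕ) (H : SimpleGraph (Fin m)) (K : Set (Fin m)) (n : ℕ)
  (B : Fin m → Set (ℕ × ℕ)), Hp H K n B → ∃ k : ℕ, IsInducedMinor H (Qk k)

/-- HND (EASY): the form of the hand-in, from EMQ, FNL, TRN. -/
def S_HND : Prop := ∀ (m : ℕ) (H : SimpleGraph (Fin m)) (K : Set (Fin m)) (n : ℕ)
  (B : Fin m → Set (ℕ × ℕ)), Hp H K n B → ∀ D : ℕ, ∃ t : ℕ, ∀ {V : Type} [Finite V]
  (G : SimpleGraph V), DegLe G D → ¬ IsInducedMinor H G →
  ¬ IsInducedMinor (⊤ : SimpleGraph (Fin t)) G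

end Pool.Agent.IM55.GC
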