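import Mathlib
import Pool.Agent.Work.MP_55ff09_co.GC.Stmts

/-!
# MP_55ff09_co, block GC, item IMI: induced minors and models
-/

namespace Pool.Agent.IM55.GC

open SimpleGraph Pool.Agent.IM55

namespace XIMI

theorem touch_iff {V : Type} (G : SimpleGraph V) {A B : Set V} (h : Disjoint A B) :
    Touch G A B ↔ ∃ x ∈ A, ∃ y ∈ B, G.Adj x y := by
  constructor
  · rintro ⟨x, hx, y, hy, hxy⟩
    refine ⟨x, hx, y, hy, hxy.resolve_left ?_⟩
    rintro rfl
    exact Set.disjoint_left.mp h hx hy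
  · rintro ⟨x, hx, y, hy, hxy⟩
    exact ⟨x, hx, y, hy, Or.inr hxy⟩

end XIMI

theorem i_IMI : S_IMI := by
  intro V W H G
  constructor
  · rintro ⟨X, h1, h2, h3⟩
    exact ⟨X, h1, h2, fun h h' hh => (h3 h h' hh).trans (XIMI.touch_iff G (h2 h h' hh)).symm⟩
  · rintro ⟨X, hX⟩
    exact ⟨X, hX.conn, hX.dis, fun h h' hh =>
      (hX.adj h h' hh).trans (XIMI.touch_iff G (hX.dis h h' hh))⟩

end Pool.Agent.IM55.GC
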