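import Pool.Agent.Work.MP_55ff09_co.GC.Stmts
import Pool.Agent.Work.MP_55ff09_co.CL.I_IND
import Pool.Agent.Work.MP_55ff09_co.Kor.Baker
import Pool.Agent.Work.MP_55ff09_co.T
import Pool.Agent.Work.MP_55ff09_co.I
import Pool.Agent.Work.MP_55ff09_co.TC
import Pool.Agent.Work.MP_55ff09_co.SP
import Pool.Agent.Work.MP_55ff09_co.SE
import Pool.Agent.Work.MP_55ff09_co.LG
import Pool.Agent.Work.MP_55ff09_co.PG
import Pool.Agent.Work.MP_55ff09_co.ST
import Pool.Agent.Work.MP_55ff09_co.BL
import Pool.Agent.Work.MP_55ff09_co.BT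
import Pool.Agent.Work.MP_55ff09_co.LI
import Pool.Agent.Work.MP_55ff09_co.BG
import Pool.Agent.Work.MP_55ff09_co.AR
import Pool.Agent.Work.MP_55ff09_co.LO
import Pool.Agent.Work.MP_55ff09_co.NL
import Pool.Agent.Work.MP_55ff09_co.MN
import Pool.Agent.Work.MP_55ff09_co.BF
import Pool.Agent.Work.MP_55ff09_co.Link

/-!
# MP_55ff09_co, block GC, item LAY: breadth first search layers
-/

set_option autoImplicit false

namespace Pool.Agent.IM55.GC

open SimpleGraph Pool.Agent.IM55 Pool.Agent.IM55.PL Pool.Agent.IM55.CL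

namespace XLAY

/-- bounded Baker treewidth, for excluded induced minors with vertex set `Fin m` -/
theorem baker (m : ℕ) (H : SimpleGraph (Fin m)) (D : ℕ) :
    ∃ f : ℕ → ℕ, ∀ (V : Type) [Finite V] (G : SimpleGraph V), ¬ IsInducedMinor H G →
      (∀ v, (G.neighborSet v).ncard ≤ D) →
      (∀ S : Set V, (G.induce S).Connected →
        ∀ l : ℕ, TreewidthLE (G.induce (annulus G S l)) (f l)) ∧
      ∀ ρ : G.ConnectedComponent → V, (∀ c, G.connectedComponentMk (ρ c) = c) →
        (∀ u v, G.Adj u v → bfs G ρ u ≤ bfs G ρ v + 1) ∧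
        ∀ i l : ℕ, TreewidthLE (G.induce {v | i ≤ bfs G ρ v ∧ bfs G ρ v ≤ i + l}) (f l) := by
  have hSE := claimSelect claimTrans claimInterval
  have hLK := claimLink (claimLinkStep claimSpine (claimLegs hSE) claimPigeon)
  have hAR := claimArray (claimBlockG claimBlock (claimBlockT claimBlock) claimLift) claimLift
  have hLO := claimLocal hLK claimTouchCard hAR
  have hNL := claimNonlocal claimTrans claimBall claimTouchCard hAR
  have hMN := claimMain hLO hNL
  exact Kor.baker_of hMN (claimBFS hMN) m H D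

end XLAY

theorem i_LAY : S_LAY := by
  intro W hW H D
  let e : W ≃ Fin (Nat.card W) := Finite.equivFin W
  let H' : SimpleGraph (Fin (Nat.card W)) := H.comap e.symm
  obtain ⟨f, hf⟩ := XLAY.baker (Nat.card W) H' D
  refine ⟨f, fun {V} hV G hG hD => ?_⟩
  have hG' : ¬ IsInducedMinor H' G := fun h => by
    refine hG (CL.i_IND H H' G e e.injective (fun u v => ?_) h)
    show H.Adj u v ↔ H.Adj (e.symm (e u)) (e.symm (e v))
    rw [e.symm_apply_apply, e.symm_apply_apply]
  have hρ : ∀ c : G.ConnectedComponent, ∃ v, G.connectedComponentMk v = c :=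
    fun c => c.exists_rep
  choose ρ hρ using hρ
  obtain ⟨h1, h2⟩ := (hf V G hG' hD).2 ρ hρ
  exact ⟨bfs G ρ, h1, h2⟩

end Pool.Agent.IM55.GC
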