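import Pool.Agent.Work.MP_55ff09_co.GC.Stmts

/-!
# MP_55ff09_co, block GC, item MCT: Menger with contracted cells

`i_MCTn : S_MCTn` is the version without `1 ≤ K` for nonempty types.
-/

set_option autoImplicit false

namespace Pool.Agent.IM55.GC

open SimpleGraph Pool.Agent.IM55 Pool.Agent.IM55.PL Pool.Agent.IM55.CL

/-- `S_MCT` with the hypothesis `Nonempty V` instead of `1 ≤ K` -/
def S_MCTn : Prop := ∀ {V : Type} [Finite V] [Nonempty V] (G : SimpleGraph V) (O Z : Set V)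
  (Q : Finset (ℕ × ℕ)) (U : ℕ → ℕ → Set V) (K : ℕ), Z ⊆ O →
  (∀ q ∈ Q, (G.induce (U q.1 q.2)).Connected ∧ U q.1 q.2 ⊆ O ∧ Disjoint (U q.1 q.2) Z) →
  (∀ q ∈ Q, ∀ q' ∈ Q, q ≠ q' → Disjoint (U q.1 q.2) (U q'.1 q'.2)) →
  (∃ w l α, Rt G O Z Q U K w l α) ∨ ∃ T Q', Sp G O Z Q U K T Q'

namespace XMCT

variable {V : Type}

/-- `x` is mapped to `a` when the cells in `Q` are contracted to `ρ q` -/
def Rl (U : ℕ → ℕ → Set V) (Q : Finset (ℕ × ℕ)) (ρ : ℕ × ℕ → V) (x a : V) : Prop :=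
  (x ∉ UQ U Q ∧ a = x) ∨ ∃ q ∈ Q, x ∈ U q.1 q.2 ∧ a = ρ q

/-- the contracted graph -/
def GQ (G : SimpleGraph V) (O : Set V) (U : ℕ → ℕ → Set V) (Q : Finset (ℕ × ℕ))
    (ρ : ℕ × ℕ → V) : SimpleGraph V where
  Adj a b := a ≠ b ∧ ∃ x y, G.Adj x y ∧ x ∈ O ∧ y ∈ O ∧ Rl U Q ρ x a ∧ Rl U Q ρ y b
  symm := ⟨fun _ _ ⟨h, x, y, h1, h2, h3, h4, h5⟩ => ⟨h.symm, y, x, h1.symm, h3, h2, h5, h4⟩⟩
  loopless := ⟨fun _ h => h.1 rfl⟩

theorem rl_ex (U : ℕ → ℕ → Set V) (Q : Finset (ℕ × ℕ)) (ρ : ℕ × ℕ → V) (x : V) :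
    ∃ a, Rl U Q ρ x a := by
  by_cases h : x ∈ UQ U Q
  · obtain ⟨q, hq, hx⟩ := h
    exact ⟨ρ q, Or.inr ⟨q, hq, hx, rfl⟩⟩
  · exact ⟨x, Or.inl ⟨h, rfl⟩⟩

theorem rl_self {U : ℕ → ℕ → Set V} {Q : Finset (ℕ × ℕ)} {ρ : ℕ × ℕ → V} {x : V}
    (h : x ∉ UQ U Q) : Rl U Q ρ x x := Or.inl ⟨h, rfl⟩

theorem rl_eq {U : ℕ → ℕ → Set V} {Q : Finset (ℕ × ℕ)} {ρ : ℕ × ℕ → V} {x a : V}
    (h : x ∉ UQ U Q) (hr : Rl U Q ρ x a) : a = x := by
  rcases hr with ⟨-, h1⟩ | ⟨q, hq, hx, -⟩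
  · exact h1
  · exact absurd ⟨q, hq, hx⟩ h

theorem rl_out {U : ℕ → ℕ → Set V} {Q : Finset (ℕ × ℕ)} {ρ : ℕ × ℕ → V}
    (hr : ∀ q ∈ Q, ρ q ∈ U q.1 q.2) {x a : V} (ha : a ∉ UQ U Q) (h : Rl U Q ρ x a) : x = a := by
  rcases h with ⟨-, h⟩ | ⟨q, hq, -, h⟩
  · exact h.symm
  · exact absurd ⟨q, hq, by rw [h]; exact hr q hq⟩ ha

theorem rl_in {U : ℕ → ℕ → Set V} {Q : Finset (ℕ × ℕ)} {ρ : ℕ × ℕ → V}
    (hr : ∀ q ∈ Q, ρ q ∈ U q.1 q.2)
    (hdis : ∀ q ∈ Q, ∀ q' ∈ Q, q ≠ q' → Disjoint (U q.1 q.2) (U q'.1 q'.2)) {x : V} {q : ℕ × ℕ}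
    (hq : q ∈ Q) (h : Rl U Q ρ x (ρ q)) : x ∈ U q.1 q.2 := by
  rcases h with ⟨h1, h2⟩ | ⟨q', hq', h1, h2⟩
  · exact absurd ⟨q, hq, by rw [← h2]; exact hr q hq⟩ h1
  · by_cases e : q = q'
    · rw [e]; exact h1
    · exact absurd (hr q hq) (fun h3 => Set.disjoint_left.1 (hdis q hq q' hq' e) h3
        (by rw [h2]; exact hr q' hq'))

/-- the image of a connected set is connected in the contracted graph -/
theorem image_conn {G : SimpleGraph V} {O : Set V} {U : ℕ → ℕ → Set V} {Q : Finset (ℕ × ℕ)}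
    {ρ : ℕ × ℕ → V} {C : Set V} (hCO : C ⊆ O) (hC : (G.induce C).Connected) {z : V} (hz : z ∈ C)
    (hzQ : z ∉ UQ U Q) :
    ((GQ G O U Q ρ).induce {a | ∃ x ∈ C, Rl U Q ρ x a}).Connected := by
  set X : Set V := {a | ∃ x ∈ C, Rl U Q ρ x a} with hX
  have hzX : z ∈ X := ⟨z, hz, rl_self hzQ⟩
  have hsub : C ⊆ {x | ∀ a, Rl U Q ρ x a → a ∈ cmp (GQ G O U Q ρ) X z} := by
    refine conn_subset hC ⟨z, hz, ?_⟩ ?_
    · intro a ha
      rw [rl_eq hzQ ha]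
      exact mem_cmp_self hzX
    · intro u huC hu v hvC huv b hb
      obtain ⟨a, ha⟩ := rl_ex U Q ρ u
      have h1 := hu a ha
      by_cases hab : a = b
      · rw [← hab]; exact h1
      · exact cmp_adj h1 ⟨v, hvC, hb⟩ ⟨hab, u, v, huv, hCO huC, hCO hvC, ha, hb⟩
  have hXe : X = cmp (GQ G O U Q ρ) X z := by
    apply Set.Subset.antisymm
    · rintro a ⟨x, hx, ha⟩
      exact hsub hx a ha
    · exact cmp_subset
  rw [hXe]
  exact cmp_connected hzX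

end XMCT

open XMCT in
theorem i_MCTn (h1 : S_MEN) (h2 : S_IPA) : S_MCTn := by
  classical
  intro V _ _ G O Z Q U K hZO hQ hdis
  have hchoose : ∃ ρ : ℕ × ℕ → V, ∀ q ∈ Q, ρ q ∈ U q.1 q.2 := by
    have hne : ∀ q ∈ Q, (U q.1 q.2).Nonempty := by
      intro q hq
      obtain ⟨⟨x, hx⟩⟩ := (hQ q hq).1.nonempty
      exact ⟨x, hx⟩
    refine ⟨fun q => if h : q ∈ Q then (hne q h).some else Classical.arbitrary V, fun q hq => ?_⟩
    simp only [hq, dif_pos]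
    exact (hne q hq).some_mem
  obtain ⟨ρ, hr⟩ := hchoose
  have hinjρ : ∀ q ∈ Q, ∀ q' ∈ Q, ρ q = ρ q' → q = q' := by
    intro q hq q' hq' e
    by_contra hne
    exact Set.disjoint_left.1 (hdis q hq q' hq' hne) (hr q hq) (by rw [e]; exact hr q' hq')
  have hZQ : ∀ z ∈ Z, z ∉ UQ U Q := by
    rintro z hz ⟨q, hq, hzq⟩
    exact Set.disjoint_left.1 (hQ q hq).2.2 hzq hz
  set U' : Set V := {a | a ∈ O ∧ (a ∈ UQ U Q → ∃ q ∈ Q, a = ρ q)} with hU'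
  set B' : Set V := {a | ∃ q ∈ Q, a = ρ q} with hB'
  have hBQ : ∀ a ∈ B', a ∈ UQ U Q := by
    rintro a ⟨q, hq, rfl⟩
    exact ⟨q, hq, hr q hq⟩
  have hU'sub : ∀ x ∈ O, ∀ a, Rl U Q ρ x a → a ∈ U' := by
    rintro x hx a (⟨h3, rfl⟩ | ⟨q, hq, -, rfl⟩)
    · exact ⟨hx, fun h => absurd h h3⟩
    · exact ⟨(hQ q hq).2.1 (hr q hq), fun _ => ⟨q, hq, rfl⟩⟩
  rcases h1 (GQ G O U Q ρ) U' Z B' K with ⟨P, hP1, hP2⟩ | ⟨T, hTU, hT, hcut⟩
  · left
    have hone : ∀ c : ℕ, ∃ (w : ℕ → V) (l : ℕ) (q : ℕ × ℕ), c < K →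
        PC (GQ G O U Q ρ) (P c) Z B' w (l + 1) ∧ q ∈ Q ∧ w (l + 1) = ρ q := by
      intro c
      by_cases hc : c < K
      · obtain ⟨w, l, hw⟩ := h2 (GQ G O U Q ρ) U' Z B' (P c) (hP1 c hc)
        have h0 := (hw.hA 0 (Nat.zero_le _)).2 rfl
        obtain ⟨q, hq, hwq⟩ := (hw.hB l le_rfl).2 rfl
        have hl : l ≠ 0 := by
          rintro rfl
          exact hZQ _ h0 ⟨q, hq, by rw [hwq]; exact hr q hq⟩
        obtain ⟨l', rfl⟩ := Nat.exists_eq_succ_of_ne_zero hl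
        exact ⟨w, l', q, fun _ => ⟨hw, hq, hwq⟩⟩
      · exact ⟨fun _ => Classical.arbitrary V, 0, (0, 0), fun h => absurd h hc⟩
    choose w l α hw using hone
    have hout : ∀ c < K, ∀ i ≤ l c, w c i ∈ O ∧ w c i ∉ UQ U Q := by
      intro c hc i hi
      obtain ⟨hpc, hq, hwq⟩ := hw c hc
      have hm : w c i ∈ U' := (hP1 c hc).sub (hpc.sub ⟨i, by omega, rfl⟩)
      refine ⟨hm.1, fun h => ?_⟩
      have := (hpc.hB i (by omega)).1 (hm.2 h)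
      omega
    refine ⟨w, l, α, ?_, ?_, ?_, ?_, ?_, ?_, ?_, ?_⟩
    · intro c hc
      obtain ⟨hpc, hq, hwq⟩ := hw c hc
      refine ⟨fun i hi => ?_, fun i hi j hj e => hpc.ip.inj i (by omega) j (by omega) e,
        fun i hi j hj ha => ?_⟩
      · obtain ⟨-, x, y, hxy, -, -, hx, hy⟩ := hpc.ip.adj i (by omega)
        have e1 := rl_out hr (hout c hc i (by omega)).2 hx
        have e2 := rl_out hr (hout c hc (i + 1) (by omega)).2 hy
        rw [e1, e2] at hxy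
        exact hxy
      · exact hpc.ip.ind i (by omega) j (by omega)
          ⟨ha.ne, _, _, ha, (hout c hc i hi).1, (hout c hc j hj).1, rl_self (hout c hc i hi).2,
            rl_self (hout c hc j hj).2⟩
    · rintro c hc v ⟨i, hi, rfl⟩
      exact (hout c hc i hi).1
    · intro c hc
      exact ((hw c hc).1.hA 0 (Nat.zero_le _)).2 rfl
    · intro c hc
      exact (hw c hc).2.1
    · intro c hc
      obtain ⟨hpc, hq, hwq⟩ := hw c hc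
      obtain ⟨-, x, y, hxy, -, -, hx, hy⟩ := hpc.ip.adj (l c) (by omega)
      have e1 := rl_out hr (hout c hc (l c) le_rfl).2 hx
      rw [hwq] at hy
      have e2 := rl_in hr hdis hq hy
      rw [e1] at hxy
      exact ⟨w c (l c), rfl, y, e2, Or.inr hxy⟩
    · intro c hc
      rw [Set.disjoint_left]
      rintro v ⟨i, hi, rfl⟩
      exact (hout c hc i hi).2
    · intro c hc c' hc' hne
      refine Set.disjoint_of_subset ?_ ?_ (hP2 c hc c' hc' hne)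
      · rintro v ⟨i, hi, rfl⟩
        exact (hw c hc).1.sub ⟨i, by omega, rfl⟩
      · rintro v ⟨i, hi, rfl⟩
        exact (hw c' hc').1.sub ⟨i, by omega, rfl⟩
    · intro c hc c' hc' hne e
      have e1 : w c (l c + 1) ∈ P c := (hw c hc).1.sub ⟨_, le_rfl, rfl⟩
      have e2 : w c' (l c' + 1) ∈ P c' := (hw c' hc').1.sub ⟨_, le_rfl, rfl⟩
      rw [(hw c hc).2.2, e] at e1
      rw [(hw c' hc').2.2] at e2
      exact Set.disjoint_left.1 (hP2 c hc c' hc' hne) e1 e2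
  · right
    refine ⟨T \ B', Q.filter fun q => ρ q ∈ T, ?_, ?_, ?_, ?_⟩
    · rw [Set.disjoint_left]
      rintro a ⟨haT, haB⟩ haQ
      exact haB ((hTU haT).2 haQ)
    · exact Finset.filter_subset _ _
    · have e2 : (Q.filter fun q => ρ q ∈ T).card ≤ (T ∩ B').ncard := by
        rw [← Set.ncard_coe_finset]
        refine Set.ncard_le_ncard_of_injOn ρ ?_ ?_ (Set.toFinite _)
        · intro q hq
          rw [Finset.mem_coe, Finset.mem_filter] at hq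
          exact ⟨hq.2, q, hq.1, rfl⟩
        · intro q hq q' hq' e
          rw [Finset.mem_coe, Finset.mem_filter] at hq hq'
          exact hinjρ q hq.1 q' hq'.1 e
      have e3 : (T \ B').ncard + (T ∩ B').ncard = T.ncard := by
        rw [add_comm]
        exact Set.ncard_inter_add_ncard_diff_eq_ncard T B' (Set.toFinite _)
      omega
    · rintro C hCO hC hCT hCQ ⟨z, hzC, hzZ⟩
      rw [Set.disjoint_left]
      rintro v hvC ⟨q, hq, hvq⟩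
      have hcr : Cr (GQ G O U Q ρ) U' Z B' {a | ∃ x ∈ C, Rl U Q ρ x a} := by
        refine ⟨image_conn hCO hC hzC (hZQ z hzZ), ?_, ?_, ?_⟩
        · rintro a ⟨x, hx, ha⟩
          exact hU'sub x (hCO hx) a ha
        · exact ⟨z, ⟨z, hzC, rl_self (hZQ z hzZ)⟩, hzZ⟩
        · exact ⟨ρ q, ⟨v, hvC, Or.inr ⟨q, hq, hvq, rfl⟩⟩, q, hq, rfl⟩
      obtain ⟨a, ⟨x, hxC, hxa⟩, haT⟩ := hcut _ hcr
      rcases hxa with ⟨hxQ, rfl⟩ | ⟨q', hq', hxq', rfl⟩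
      · exact Set.disjoint_left.1 hCT hxC ⟨haT, fun h => hxQ (hBQ _ h)⟩
      · exact Set.disjoint_left.1 hCQ hxC ⟨q', by
          rw [Finset.mem_coe, Finset.mem_filter]; exact ⟨hq', haT⟩, hxq'⟩

theorem i_MCT (h1 : S_MEN) (h2 : S_IPA) : S_MCT := by
  intro V _ G O Z Q U K hK hZO hQ hdis
  rcases isEmpty_or_nonempty V with hV | hV
  · right
    refine ⟨∅, ∅, Set.empty_disjoint _, Finset.empty_subset _, ?_, ?_⟩
    · rw [Set.ncard_empty, Finset.card_empty]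
      omega
    · rintro C - - - - ⟨z, -⟩
      exact (hV.false z).elim
  · exact i_MCTn h1 h2 G O Z Q U K hZO hQ hdis

end Pool.Agent.IM55.GC
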