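import Pool.Agent.Work.MP_55ff09_co.GC.Stmts

/-!
# MP_55ff09_co, block GC, item MRG: a partition with quotient of bounded degree
-/

set_option autoImplicit false

namespace Pool.Agent.IM55.GC

open SimpleGraph Pool.Agent.IM55 Pool.Agent.IM55.PL Pool.Agent.IM55.CL

namespace XMRG

variable {V : Type} {G : SimpleGraph V}

/-- a connected set which touches a subset of `R` and is not contained in `R` meets the outer
boundary of `R` -/
theorem meets_opN {X Y R : Set V} (hX : (G.induce X).Connected) (hY : Y ⊆ R)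
    (h : Touch G X Y) (hR : ¬ X ⊆ R) : (X ∩ opN G R).Nonempty := by
  obtain ⟨x, hx, y, hy, hxy⟩ := h
  by_cases hxR : x ∈ R
  · obtain ⟨z, hz, hzR⟩ := Set.not_subset.1 hR
    obtain ⟨u, hu, v, hv, h1, h2, h3⟩ := exit_edge hX (fun w => w ∈ R) hx hxR hz hzR
    exact ⟨v, hv, h2, u, h1, h3⟩
  · rcases hxy with rfl | hxy
    · exact absurd (hY hy) hxR
    · exact ⟨x, hx, hxR, y, hY hy, hxy.symm⟩

/-- the union of the parts contained in `R` -/
def UU (R : Set V) (r : ℕ) (P : ℕ → Set V) : Set V := {v | ∃ j < r, P j ⊆ R ∧ v ∈ P j}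

theorem sub_of_touch {R : Set V} {r : ℕ} {P : ℕ → Set V} {v0 : V}
    (hc : ∀ j < r, (G.induce (P j)).Connected) {j : ℕ} (hj : j < r) (hjR : P j ⊆ R)
    (ht : Touch G (P j) (cmp G (UU R r P) v0)) : P j ⊆ cmp G (UU R r P) v0 := by
  have hU : P j ⊆ UU R r P := fun v hv => ⟨j, hj, hjR, hv⟩
  obtain ⟨x, hx, y, hy, hxy⟩ := ht
  have hxY : x ∈ cmp G (UU R r P) v0 := by
    rcases hxy with rfl | hxy
    · exact hy
    · exact cmp_adj hy (hU hx) hxy.symm
  have := subset_cmp (hc j hj) hx hU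
  rwa [cmp_eq hxY] at this

theorem step [Finite V] {I : Finset ℕ} {A : ℕ → Set V} {a b : ℕ} {W : Set V} {r : ℕ}
    {P : ℕ → Set V} (hP : Pt G I A a b W r P) (i : Fin r)
    (hi : b < ((qt G r P).neighborSet i).ncard) :
    ∃ r' < r, ∃ P', Pt G I A a b W r' P' := by
  classical
  obtain ⟨R, hPR, hSm, hRb⟩ := hP.up i i.2
  obtain ⟨⟨v0, hv0⟩⟩ := (hP.conn i i.2).nonempty
  set Y : Set V := cmp G (UU R r P) v0 with hYdef
  have hv0U : v0 ∈ UU R r P := ⟨i, i.2, hPR, hv0⟩
  have hYc : (G.induce Y).Connected := cmp_connected hv0U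
  have hYU : Y ⊆ UU R r P := cmp_subset
  have hYR : Y ⊆ R := fun v hv => by
    obtain ⟨j, _, hjR, hvj⟩ := hYU hv
    exact hjR hvj
  have hiY : P i ⊆ Y := subset_cmp (hP.conn i i.2) hv0 (fun v hv => ⟨i, i.2, hPR, hv⟩)
  have hF1 : ∀ j < r, P j ⊆ R → Touch G (P j) Y → P j ⊆ Y :=
    fun j hj hjR ht => sub_of_touch hP.conn hj hjR ht
  have hF2 : ∀ v ∈ Y, ∃ j < r, P j ⊆ Y ∧ v ∈ P j := by
    intro v hv
    obtain ⟨j, hj, hjR, hvj⟩ := hYU hv
    exact ⟨j, hj, hF1 j hj hjR ⟨v, hvj, v, hv, Or.inl rfl⟩, hvj⟩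
  have hF3 : ∀ j < r, ¬ P j ⊆ Y → Touch G (P j) Y → (P j ∩ opN G R).Nonempty := by
    intro j hj hjY ht
    exact meets_opN (hP.conn j hj) hYR ht (fun h => hjY (hF1 j hj h ht))
  -- there is another part inside `Y`
  have hF5 : ∃ j0 < r, j0 ≠ (i : ℕ) ∧ P j0 ⊆ Y := by
    by_contra hcon
    push Not at hcon
    have hch : ∀ j : Fin r, ∃ v, j ∈ (qt G r P).neighborSet i → v ∈ P j ∧ v ∈ opN G R := by
      intro j
      by_cases hj : j ∈ (qt G r P).neighborSet i
      · obtain ⟨hne, ht⟩ := hj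
        have h1 : ¬ P j ⊆ Y := hcon j j.2 (fun e => hne (Fin.ext e.symm))
        have h2 : Touch G (P j) Y := (ht.symm).mono le_rfl hiY
        obtain ⟨v, hv1, hv2⟩ := hF3 j j.2 h1 h2
        exact ⟨v, fun _ => ⟨hv1, hv2⟩⟩
      · exact ⟨v0, fun h => absurd h hj⟩
    choose f hf using hch
    have hle : ((qt G r P).neighborSet i).ncard ≤ (opN G R).ncard := by
      refine Set.ncard_le_ncard_of_injOn f (fun j hj => (hf j hj).2) ?_ (Set.toFinite _)
      intro j hj j' hj' e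
      by_contra hne
      have hd := hP.dis j j.2 j' j'.2 (fun h => hne (Fin.ext h))
      have h1 := (hf j hj).1
      have h2 := (hf j' hj').1
      rw [← e] at h2
      exact Set.disjoint_left.1 hd h1 h2
    omega
  obtain ⟨j0, hj0, hj0i, hj0Y⟩ := hF5
  set T : Finset ℕ := (Finset.range r).filter (fun j => ¬ P j ⊆ Y) with hT
  set S : Finset ℕ := (Finset.range r).filter (fun j => P j ⊆ Y) with hS
  have hTS : S.card + T.card = r := by
    have := Finset.card_filter_add_card_filter_not (s := Finset.range r) (fun j => P j ⊆ Y)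
    rw [Finset.card_range] at this
    exact this
  have hS2 : 2 ≤ S.card := by
    have hsub : ({(i : ℕ), j0} : Finset ℕ) ⊆ S := by
      intro x hx
      rw [Finset.mem_insert, Finset.mem_singleton] at hx
      rcases hx with rfl | rfl
      · exact Finset.mem_filter.2 ⟨Finset.mem_range.2 i.2, hiY⟩
      · exact Finset.mem_filter.2 ⟨Finset.mem_range.2 hj0, hj0Y⟩
    have := Finset.card_le_card hsub
    rwa [Finset.card_pair hj0i.symm] at this
  set t := T.card with ht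
  let e : Fin t ↪o ℕ := T.orderEmbOfFin rfl
  have heT : ∀ k, e k ∈ T := fun k => Finset.orderEmbOfFin_mem T rfl k
  have her : ∀ k, e k < r := fun k => Finset.mem_range.1 (Finset.mem_filter.1 (heT k)).1
  have heY : ∀ k, ¬ P (e k) ⊆ Y := fun k => (Finset.mem_filter.1 (heT k)).2
  have hesurj : ∀ j ∈ T, ∃ k, e k = j := by
    intro j hj
    have hr : Set.range e = (T : Set ℕ) := Finset.range_orderEmbOfFin T rfl
    have : j ∈ Set.range e := by rw [hr]; exact hj
    exact this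
  let P' : ℕ → Set V := fun k => if h : k < t then P (e ⟨k, h⟩) else Y
  have hP'lt : ∀ k (h : k < t), P' k = P (e ⟨k, h⟩) := fun k h => dif_pos h
  have hP't : P' t = Y := dif_neg (lt_irrefl t)
  have hdY : ∀ k, Disjoint (P (e k)) Y := by
    intro k
    rw [Set.disjoint_left]
    intro v hv hvY
    obtain ⟨j, hj, hjY, hvj⟩ := hF2 v hvY
    have hne : e k ≠ j := fun h => heY k (h ▸ hjY)
    exact Set.disjoint_left.1 (hP.dis _ (her k) j hj hne) hv hvj
  have hcase : ∀ k < t + 1, (∃ h : k < t, P' k = P (e ⟨k, h⟩)) ∨ (k = t ∧ P' k = Y) := by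
    intro k hk
    rcases Nat.lt_or_ge k t with h | h
    · exact Or.inl ⟨h, hP'lt k h⟩
    · have : k = t := by omega
      subst this
      exact Or.inr ⟨rfl, hP't⟩
  refine ⟨t + 1, by omega, P', ?_, ?_, ?_, ?_, ?_⟩
  · intro k hk
    rcases hcase k hk with ⟨h, e1⟩ | ⟨_, e1⟩
    · rw [e1]; exact hP.conn _ (her _)
    · rw [e1]; exact hYc
  · intro k hk k' hk' hne
    rcases hcase k hk with ⟨h, e1⟩ | ⟨h, e1⟩ <;> rcases hcase k' hk' with ⟨h', e2⟩ | ⟨h', e2⟩
    · rw [e1, e2]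
      refine hP.dis _ (her _) _ (her _) (fun hh => hne ?_)
      have := e.injective hh
      exact congrArg Fin.val this
    · rw [e1, e2]; exact hdY _
    · rw [e1, e2]; exact (hdY _).symm
    · exact absurd (h.trans h'.symm) hne
  · intro v
    constructor
    · intro hv
      obtain ⟨j, hj, hvj⟩ := (hP.cov v).1 hv
      by_cases hjY : P j ⊆ Y
      · exact ⟨t, Nat.lt_succ_self t, by rw [hP't]; exact hjY hvj⟩
      · obtain ⟨k, hk⟩ := hesurj j (Finset.mem_filter.2 ⟨Finset.mem_range.2 hj, hjY⟩)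
        refine ⟨k, by omega, ?_⟩
        rw [hP'lt k k.2]
        rw [← hk] at hvj
        exact hvj
    · rintro ⟨k, hk, hv⟩
      rcases hcase k hk with ⟨h, e1⟩ | ⟨_, e1⟩
      · rw [e1] at hv
        exact (hP.cov v).2 ⟨_, her _, hv⟩
      · rw [e1] at hv
        obtain ⟨j, hj, _, hvj⟩ := hYU hv
        exact (hP.cov v).2 ⟨j, hj, hvj⟩
  · intro k hk
    rcases hcase k hk with ⟨h, e1⟩ | ⟨_, e1⟩
    · rw [e1]; exact hP.lo _ (her _)
    · rw [e1]
      rintro ⟨R', h1, h2, h3⟩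
      exact hP.lo i i.2 ⟨R', hiY.trans h1, h2, h3⟩
  · intro k hk
    rcases hcase k hk with ⟨h, e1⟩ | ⟨_, e1⟩
    · rw [e1]; exact hP.up _ (her _)
    · rw [e1]
      exact ⟨R, hYR, hSm, hRb⟩

end XMRG

theorem i_MRG : S_MRG := by
  intro V _ G I A a b W r P hP
  classical
  have hex : ∃ r, ∃ P, Pt G I A a b W r P := ⟨r, P, hP⟩
  obtain ⟨P0, hP0⟩ := Nat.find_spec hex
  refine ⟨_, P0, hP0, ?_⟩
  intro i
  by_contra hdeg
  push Not at hdeg
  obtain ⟨r', hr', P', hP'⟩ := XMRG.step hP0 i hdeg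
  exact Nat.find_min hex hr' ⟨P', hP'⟩

end Pool.Agent.IM55.GC
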