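import Pool.Agent.Work.MP_55ff09_co.GC.Stmts

/-!
# MP_55ff09_co, block GC: a region of bounded boundary with many heavy sets
-/

set_option autoImplicit false

namespace Pool.Agent.IM55.GC

open SimpleGraph Pool.Agent.IM55 Pool.Agent.IM55.PL Pool.Agent.IM55.CL

namespace XPCK

variable {V : Type}

theorem sm_mono {G : SimpleGraph V} {I : Finset ℕ} {A : ℕ → Set V} {S T : Set V}
    (h : Sm G I A T) (hS : S ⊆ T) : Sm G I A S := by
  obtain ⟨i, hi, ha⟩ := h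
  exact ⟨i, hi, ha.mono hS subset_rfl⟩

theorem heavy_cmp {G : SimpleGraph V} {I : Finset ℕ} {A : ℕ → Set V} (hA : KM G I A) {i₀ : ℕ}
    (hi₀ : i₀ ∈ I) {x : V} (hx : x ∈ A i₀) (a : ℕ) : ¬ Ch G I A (cmp G Set.univ x) a := by
  rintro ⟨R, hR, ⟨i, hi, hanti⟩, -⟩
  have h1 : A i₀ ⊆ cmp G Set.univ x := subset_cmp (hA.conn i₀ hi₀) hx (Set.subset_univ _)
  by_cases h : i = i₀
  · subst h
    exact (hanti x (hR (h1 hx)) x hx).1 rfl
  · obtain ⟨u, hu, v, hv, huv⟩ := hA.adj i₀ hi₀ i hi (fun e => h e.symm)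
    have h2 := hanti u (hR (h1 hu)) v hv
    rcases huv with h3 | h3
    · exact h2.1 h3
    · exact h2.2 h3

theorem main {G : SimpleGraph V} [Finite V] {I : Finset ℕ} {A : ℕ → Set V} (hUNF : S_UNF)
    (hA : KM G I A) {x : V} {a b c r m₁ : ℕ} {P : ℕ → Set V}
    (hP : Pt G I A a b (cmp G Set.univ x) r P) {S : Set (Fin r)} (hSm : S.ncard ≤ m₁)
    (hS : (c * b + 1) * (opN (qt G r P) S).ncard < S.ncard) (hI : 2 * m₁ * b < I.card) :
    ∃ (R : Set V) (p : ℕ) (X : ℕ → Set V), Sm G I A R ∧ (opN G R).ncard ≤ m₁ * b ∧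
      Fh G I A a R p X ∧ c * (opN G R).ncard < p := by
  classical
  have hup : ∀ j : Fin r, ∃ R, P j ⊆ R ∧ Sm G I A R ∧ (opN G R).ncard ≤ b :=
    fun j => hP.up j j.2
  choose Rf hRf1 hRf2 hRf3 using hup
  set Q := qt G r P with hQ
  have hk : (opN Q S).ncard < S.ncard := by
    exact lt_of_le_of_lt (Nat.le_mul_of_pos_left _ (Nat.succ_pos _)) hS
  obtain ⟨R, hR⟩ : ∃ R : Set V, R = (⋃ i ∈ S, P i) ∪ ⋃ j ∈ opN Q S, Rf j := ⟨_, rfl⟩
  have hRP : ∀ i ∈ S, P i ⊆ R := by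
    intro i hi v hv
    rw [hR]
    exact Or.inl (Set.mem_biUnion hi hv)
  have hRR : ∀ j ∈ opN Q S, Rf j ⊆ R := by
    intro j hj v hv
    rw [hR]
    exact Or.inr (Set.mem_biUnion hj hv)
  -- small
  have hsmall : Sm G I A R := by
    have hfin : (S ∪ opN Q S).Finite := Set.toFinite _
    have hcard : hfin.toFinset.card ≤ 2 * m₁ := by
      rw [← Set.ncard_eq_toFinset_card _ hfin]
      have := Set.ncard_union_le S (opN Q S)
      omega
    have h1 := hUNF G I A hfin.toFinset Rf b hA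
      (fun i _ => ⟨Rf i, subset_rfl, hRf2 i, hRf3 i⟩)
      (lt_of_le_of_lt (Nat.mul_le_mul_right _ hcard) hI)
    obtain ⟨R', hR', hR'2, -⟩ := h1
    refine sm_mono hR'2 (fun v hv => hR' ?_)
    rw [hR] at hv
    rcases hv with hv | hv
    · obtain ⟨i, hi, hv⟩ := Set.mem_iUnion₂.1 hv
      exact ⟨i, hfin.mem_toFinset.2 (Or.inl hi), hRf1 i hv⟩
    · obtain ⟨j, hj, hv⟩ := Set.mem_iUnion₂.1 hv
      exact ⟨j, hfin.mem_toFinset.2 (Or.inr hj), hv⟩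
  -- boundary
  have hbd : opN G R ⊆ ⋃ j ∈ (Set.toFinite (opN Q S)).toFinset, opN G (Rf j) := by
    rintro z ⟨hz, y, hy, hyz⟩
    have hy' := hy
    rw [hR] at hy
    rcases hy with hy | hy
    · obtain ⟨i, hi, hy⟩ := Set.mem_iUnion₂.1 hy
      exfalso
      have hyW : y ∈ cmp G Set.univ x := (hP.cov y).2 ⟨i, i.2, hy⟩
      have hzW : z ∈ cmp G Set.univ x := cmp_adj hyW (Set.mem_univ _) hyz
      obtain ⟨j, hj, hzj⟩ := (hP.cov z).1 hzW
      have hjS : (⟨j, hj⟩ : Fin r) ∉ S := fun h => hz (hRP _ h hzj)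
      have hadj : Q.Adj i ⟨j, hj⟩ := by
        refine ⟨fun e => hjS (e ▸ hi), y, hy, z, hzj, Or.inr hyz⟩
      exact hz (hRR ⟨j, hj⟩ ⟨hjS, i, hi, hadj⟩ (hRf1 ⟨j, hj⟩ hzj))
    · obtain ⟨j, hj, hy⟩ := Set.mem_iUnion₂.1 hy
      refine Set.mem_biUnion (x := j) (by simpa using hj) ⟨fun h => hz (hRR j hj h), y, hy, hyz⟩
  have hbdc : (opN G R).ncard ≤ (opN Q S).ncard * b := by
    have hfin : (opN Q S).Finite := Set.toFinite _
    refine (Set.ncard_le_ncard hbd (Set.toFinite _)).trans ?_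
    refine (Finset.set_ncard_biUnion_le _ _).trans ?_
    refine (Finset.sum_le_card_nsmul _ _ b (fun j _ => hRf3 j)).trans ?_
    rw [smul_eq_mul, ← Set.ncard_eq_toFinset_card _ _]
  -- enumeration
  obtain ⟨e⟩ : Nonempty (Fin S.ncard ≃ S) := by
    have : Nat.card S = S.ncard := rfl
    exact ⟨(finCongr this.symm).trans (Finite.equivFin S).symm⟩
  obtain ⟨X, hX⟩ : ∃ X : ℕ → Set V, ∀ i, ∀ h : i < S.ncard,
      X i = P ((e ⟨i, h⟩ : S) : Fin r) :=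
    ⟨fun i => if h : i < S.ncard then P ((e ⟨i, h⟩ : S) : Fin r) else ∅, fun i h => dif_pos h⟩
  refine ⟨R, S.ncard, X, hsmall,
    hbdc.trans (Nat.mul_le_mul_right _ (by omega)), ⟨?_, ?_, ?_, ?_⟩, ?_⟩
  · intro i hi
    rw [hX i hi]
    exact hP.conn _ (e ⟨i, hi⟩ : S).1.2
  · intro i hi j hj hij
    rw [hX i hi, hX j hj]
    refine hP.dis _ (e ⟨i, hi⟩ : S).1.2 _ (e ⟨j, hj⟩ : S).1.2 (fun h => hij ?_)
    have h1 : e ⟨i, hi⟩ = e ⟨j, hj⟩ := Subtype.ext (Fin.ext h)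
    have h2 := e.injective h1
    simpa using h2
  · intro i hi
    rw [hX i hi]
    exact hRP _ (e ⟨i, hi⟩ : S).2
  · intro i hi
    rw [hX i hi]
    exact hP.lo _ (e ⟨i, hi⟩ : S).1.2
  · calc c * (opN G R).ncard ≤ c * ((opN Q S).ncard * b) := Nat.mul_le_mul_left _ hbdc
      _ = (c * b) * (opN Q S).ncard := by ring
      _ ≤ (c * b + 1) * (opN Q S).ncard := Nat.mul_le_mul_right _ (Nat.le_succ _)
      _ < S.ncard := hS

end XPCK

theorem i_PCK (hPRT : S_PRT) (hMRG : S_MRG) (hIMI : S_IMI) (hQTM : S_QTM) (hHYP : S_HYP)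
    (hUNF : S_UNF) : S_PCK := by
  intro W _ H D a c
  obtain ⟨m₁, hm₁⟩ := hHYP H ((D + 1) * a + D) (c * ((D + 1) * a + D) + 1)
  generalize hb : (D + 1) * a + D = b at hm₁
  refine ⟨2 * m₁ * b + m₁ * b + b + 1, ?_⟩
  intro V _ G I A hG hH hA hI
  have hne : I.Nonempty := by
    rw [← Finset.card_pos]
    omega
  obtain ⟨i₀, hi₀⟩ := hne
  obtain ⟨⟨x, hx⟩⟩ := (hA.conn i₀ hi₀).nonempty
  have hW : (G.induce (cmp G Set.univ x)).Connected := cmp_connected (Set.mem_univ _)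
  obtain ⟨r₀, P₀, hP₀⟩ := hPRT G D I A a (cmp G Set.univ x) hG hA (by rw [hb]; omega) hW
    (XPCK.heavy_cmp hA hi₀ hx a)
  rw [hb] at hP₀
  obtain ⟨r, P, hP, hdeg⟩ := hMRG G I A a b _ r₀ P₀ hP₀
  have hr : 0 < r := by
    obtain ⟨i, hi, -⟩ := (hP.cov x).1 (mem_cmp_self (Set.mem_univ _))
    omega
  have : Nonempty (Fin r) := ⟨⟨0, hr⟩⟩
  have hHQ : ¬ IsInducedMinor H (qt G r P) := by
    intro h
    obtain ⟨X, hX⟩ := (hIMI H (qt G r P)).1 h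
    exact hH ((hIMI H G).2 ⟨_, hQTM G r P H X hP.conn hP.dis hX⟩)
  obtain ⟨S, -, hS1, hS2⟩ := hm₁ (qt G r P) hHQ hdeg
  obtain ⟨R, p, X, h1, h2, h3, h4⟩ := XPCK.main (c := c) hUNF hA hP hS1 hS2 (by omega)
  exact ⟨R, p, X, h1, h2.trans (by omega), h3, h4⟩

end Pool.Agent.IM55.GC
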