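import Pool.Agent.Work.MP_55ff09_co.GC.Stmts

set_option autoImplicit false

namespace Pool.Agent.IM55.GC

open SimpleGraph Pool.Agent.IM55 Pool.Agent.IM55.PL Pool.Agent.IM55.CL

namespace XPRT

/-- two partitions one after the other -/
lemma append {V : Type} {G : SimpleGraph V} {I : Finset ℕ} {A : ℕ → Set V} {a b : ℕ}
    {W X₁ X₂ : Set V} {r₁ r₂ : ℕ} {P₁ P₂ : ℕ → Set V} (hW : X₁ ∪ X₂ = W)
    (hd : Disjoint X₁ X₂) (h₁ : Pt G I A a b X₁ r₁ P₁) (h₂ : Pt G I A a b X₂ r₂ P₂) :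
    Pt G I A a b W (r₁ + r₂) (fun i => if i < r₁ then P₁ i else P₂ (i - r₁)) := by
  have hs₁ : ∀ i < r₁, P₁ i ⊆ X₁ := fun i hi v hv => (h₁.cov v).2 ⟨i, hi, hv⟩
  have hs₂ : ∀ i < r₂, P₂ i ⊆ X₂ := fun i hi v hv => (h₂.cov v).2 ⟨i, hi, hv⟩
  refine ⟨?_, ?_, ?_, ?_, ?_⟩
  · intro i hi
    by_cases h : i < r₁
    · have e : (if i < r₁ then P₁ i else P₂ (i - r₁)) = P₁ i := if_pos h
      rw [e]; exact h₁.conn i h
    · have e : (if i < r₁ then P₁ i else P₂ (i - r₁)) = P₂ (i - r₁) := if_neg h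
      rw [e]; exact h₂.conn _ (by omega)
  · intro i hi j hj hij
    by_cases h : i < r₁ <;> by_cases h' : j < r₁
    · simp only [h, h', if_true]; exact h₁.dis i h j h' hij
    · simp only [h, h', if_true, if_false]
      exact hd.mono (hs₁ i h) (hs₂ _ (by omega))
    · simp only [h, h', if_true, if_false]
      exact (hd.mono (hs₁ j h') (hs₂ _ (by omega))).symm
    · simp only [h, h', if_false]
      exact h₂.dis _ (by omega) _ (by omega) (by omega)
  · intro v
    rw [← hW]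
    constructor
    · rintro (hv | hv)
      · obtain ⟨i, hi, hv⟩ := (h₁.cov v).1 hv
        exact ⟨i, by omega, by simpa [hi] using hv⟩
      · obtain ⟨i, hi, hv⟩ := (h₂.cov v).1 hv
        refine ⟨r₁ + i, by omega, ?_⟩
        have h : ¬ (r₁ + i < r₁) := by omega
        simp only [h, if_false]
        rwa [Nat.add_sub_cancel_left]
    · rintro ⟨i, hi, hv⟩
      by_cases h : i < r₁
      · simp only [h, if_true] at hv
        exact Or.inl (hs₁ i h hv)
      · simp only [h, if_false] at hv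
        exact Or.inr (hs₂ _ (by omega) hv)
  · intro i hi
    by_cases h : i < r₁
    · simp only [h, if_true]; exact h₁.lo i h
    · simp only [h, if_false]; exact h₂.lo _ (by omega)
  · intro i hi
    by_cases h : i < r₁
    · simp only [h, if_true]; exact h₁.up i h
    · simp only [h, if_false]; exact h₂.up _ (by omega)

end XPRT

theorem i_PRT (hSPL : S_SPL) : S_PRT := by
  intro V _ G D I A a W hD hK hI hW ha
  suffices H : ∀ (n : ℕ) (W : Set V), W.ncard = n → (G.induce W).Connected → ¬ Ch G I A W a →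
      ∃ (r : ℕ) (P : ℕ → Set V), Pt G I A a ((D + 1) * a + D) W r P from H _ W rfl hW ha
  intro n
  induction n using Nat.strong_induction_on with
  | _ n ih =>
    intro W hn hW ha
    by_cases hb : Ch G I A W ((D + 1) * a + D)
    · refine ⟨1, fun _ => W, ⟨fun _ _ => hW, fun i hi j hj hij => by omega, fun v =>
        ⟨fun hv => ⟨0, by omega, hv⟩, fun ⟨_, _, hv⟩ => hv⟩, fun _ _ => ha, fun _ _ => hb⟩⟩
    · obtain ⟨X₁, X₂, hX, hd, c₁, c₂, a₁, a₂⟩ := hSPL G D I A a W hD hK hI hW hb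
      have ne₁ : X₁.Nonempty := by
        obtain ⟨⟨v, hv⟩⟩ := c₁.nonempty
        exact ⟨v, hv⟩
      have ne₂ : X₂.Nonempty := by
        obtain ⟨⟨v, hv⟩⟩ := c₂.nonempty
        exact ⟨v, hv⟩
      have hc : X₁.ncard + X₂.ncard = n := by
        rw [← hn, ← hX, Set.ncard_union_eq hd]
      have p₁ : 0 < X₁.ncard := (Set.ncard_pos).2 ne₁
      have p₂ : 0 < X₂.ncard := (Set.ncard_pos).2 ne₂
      obtain ⟨r₁, P₁, h₁⟩ := ih _ (by omega) X₁ rfl c₁ a₁
      obtain ⟨r₂, P₂, h₂⟩ := ih _ (by omega) X₂ rfl c₂ a₂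
      exact ⟨r₁ + r₂, _, XPRT.append hX hd h₁ h₂⟩

end Pool.Agent.IM55.GC
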