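import Pool.Agent.Work.MP_55ff09_co.GC.Stmts

/-!
# MP_55ff09_co, block GC: QTC, the image of a connected set in the quotient is connected
-/

set_option autoImplicit false

namespace Pool.Agent.IM55.GC

open SimpleGraph Pool.Agent.IM55 Pool.Agent.IM55.PL Pool.Agent.IM55.CL

namespace XQTC

variable {V : Type} {G : SimpleGraph V} {r : ℕ} {P : ℕ → Set V} {C : Set V}

theorem step {T : Set (Fin r)} (i j : Fin r) (hi : i ∈ T) (hj : j ∈ T)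
    (h : Touch G (P i) (P j)) : ((qt G r P).induce T).Reachable ⟨i, hi⟩ ⟨j, hj⟩ := by
  by_cases e : i = j
  · subst e
    exact Reachable.refl _
  · apply Adj.reachable
    show (qt G r P).Adj i j
    exact ⟨e, h⟩

theorem key (hcov : ∀ v ∈ C, ∃ i < r, v ∈ P i) {x y : C} (p : (G.induce C).Walk x y) :
    ∀ (i j : Fin r) (hx : x.1 ∈ P i) (hy : y.1 ∈ P j),
    ((qt G r P).induce {i : Fin r | (P i ∩ C).Nonempty}).Reachable
      ⟨i, ⟨x.1, hx, x.2⟩⟩ ⟨j, ⟨y.1, hy, y.2⟩⟩ := by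
  induction p with
  | nil =>
    intro i j hx hy
    exact step i j _ _ ⟨_, hx, _, hy, Or.inl rfl⟩
  | @cons u v w h p ih =>
    intro i j hx hy
    obtain ⟨k, hk, hv⟩ := hcov v.1 v.2
    have h1 := step (G := G) (P := P) (T := {i : Fin r | (P i ∩ C).Nonempty}) i ⟨k, hk⟩
      ⟨u.1, hx, u.2⟩ ⟨v.1, hv, v.2⟩ ⟨u.1, hx, v.1, hv, Or.inr h⟩
    exact h1.trans (ih ⟨k, hk⟩ j hv hy)

end XQTC

theorem i_QTC : S_QTC := by
  intro V G r P C hC hcov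
  obtain ⟨⟨u, hu⟩⟩ := hC.nonempty
  obtain ⟨k, hk, hv⟩ := hcov u hu
  have hne : Nonempty {i : Fin r | (P i ∩ C).Nonempty} := ⟨⟨⟨k, hk⟩, ⟨u, hv, hu⟩⟩⟩
  refine ⟨?_⟩
  rintro ⟨i, x, hxi, hxC⟩ ⟨j, y, hyj, hyC⟩
  obtain ⟨p⟩ := hC.preconnected ⟨x, hxC⟩ ⟨y, hyC⟩
  exact XQTC.key hcov p i j hxi hyj

end Pool.Agent.IM55.GC
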