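import Pool.Agent.Work.MP_55ff09_co.GC.Stmts

/-!
# MP_55ff09_co, block GC, item QTM (helper9): models in the quotient
-/

set_option autoImplicit false

namespace Pool.Agent.IM55.GC

open SimpleGraph Pool.Agent.IM55 Pool.Agent.IM55.PL Pool.Agent.IM55.CL

namespace XQTM

theorem reach_mono {V : Type} {G : SimpleGraph V} {A U : Set V} (hA : (G.induce A).Connected)
    (hAU : A ⊆ U) {u v : V} (hu : u ∈ A) (hv : v ∈ A) :
    (G.induce U).Reachable ⟨u, hAU hu⟩ ⟨v, hAU hv⟩ :=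
  (hA.preconnected ⟨u, hu⟩ ⟨v, hv⟩).map (SimpleGraph.induceHomOfLE G hAU).toHom

theorem conn {V : Type} (G : SimpleGraph V) (r : ℕ) (P : ℕ → Set V) (S : Set (Fin r))
    (hP : ∀ i < r, (G.induce (P i)).Connected) (hS : ((qt G r P).induce S).Connected) :
    (G.induce {v | ∃ i ∈ S, v ∈ P i}).Connected := by
  have hsub : ∀ i : S, P (i : Fin r) ⊆ {v | ∃ i ∈ S, v ∈ P i} := fun i v hv => ⟨i, i.2, hv⟩
  have key : ∀ a b : S, ((qt G r P).induce S).Walk a b → ∀ u (hu : u ∈ P (a : Fin r))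
      (v : V) (hv : v ∈ P (b : Fin r)),
      (G.induce {v | ∃ i ∈ S, v ∈ P i}).Reachable ⟨u, hsub a hu⟩ ⟨v, hsub b hv⟩ := by
    intro a b p
    induction p with
    | nil =>
      intro u hu v hv
      exact reach_mono (hP _ (Fin.is_lt _)) (hsub _) hu hv
    | @cons a c b h p ih =>
      intro u hu v hv
      have h' : (qt G r P).Adj (a : Fin r) (c : Fin r) := h
      obtain ⟨-, x, hx, y, hy, hxy⟩ := h'
      have h1 := reach_mono (hP _ (a : Fin r).2) (hsub a) hu hx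
      have h2 := ih y hy v hv
      rcases hxy with hxy | hxy
      · subst hxy
        exact h1.trans h2
      · have h3 : (G.induce {v | ∃ i ∈ S, v ∈ P i}).Adj ⟨x, hsub a hx⟩ ⟨y, hsub c hy⟩ := hxy
        exact h1.trans (h3.reachable.trans h2)
  obtain ⟨⟨i0, hi0⟩⟩ := hS.nonempty
  obtain ⟨⟨v0, hv0⟩⟩ := (hP i0 i0.2).nonempty
  haveI : Nonempty ({v | ∃ i ∈ S, v ∈ P i} : Set V) := ⟨⟨v0, i0, hi0, hv0⟩⟩
  refine ⟨?_⟩
  rintro ⟨u, i, hi, hu⟩ ⟨v, j, hj, hv⟩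
  obtain ⟨p⟩ := hS.preconnected ⟨i, hi⟩ ⟨j, hj⟩
  exact key ⟨i, hi⟩ ⟨j, hj⟩ p u hu v hv

end XQTM

theorem i_QTM : S_QTM := by
  intro V W G r P H X hP hd hM
  refine ⟨fun h => XQTM.conn G r P (X h) hP (hM.conn h), ?_, ?_⟩
  · intro h h' hne
    rw [Set.disjoint_left]
    rintro v ⟨i, hi, hvi⟩ ⟨j, hj, hvj⟩
    have hij : i ≠ j := by
      rintro rfl
      exact Set.disjoint_left.1 (hM.dis h h' hne) hi hj
    exact Set.disjoint_left.1 (hd i i.2 j j.2 (fun e => hij (Fin.ext e))) hvi hvj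
  · intro h h' hne
    rw [hM.adj h h' hne]
    constructor
    · rintro ⟨i, hi, j, hj, hij | hij⟩
      · subst hij
        exact absurd hj (Set.disjoint_left.1 (hM.dis h h' hne) hi)
      · exact hij.2.mono (fun v hv => ⟨i, hi, hv⟩) (fun v hv => ⟨j, hj, hv⟩)
    · rintro ⟨x, ⟨i, hi, hx⟩, y, ⟨j, hj, hy⟩, hxy⟩
      have hij : i ≠ j := by
        rintro rfl
        exact Set.disjoint_left.1 (hM.dis h h' hne) hi hj
      exact ⟨i, hi, j, hj, Or.inr ⟨hij, x, hx, y, hy, hxy⟩⟩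

end Pool.Agent.IM55.GC
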