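import Pool.Agent.Work.MP_55ff09_co.GC.Stmts
import Pool.Agent.Work.MP_55ff09_co.PL.Base

/-!
# MP_55ff09_co, block GC: RCT, rectangles are connected
-/

set_option autoImplicit false

namespace Pool.Agent.IM55.GC

open SimpleGraph Pool.Agent.IM55 Pool.Agent.IM55.PL Pool.Agent.IM55.CL

theorem i_RCT : S_RCT := by
  intro x₀ x₁ y₀ y₁ hx hy
  apply induce_connected_of_patches ((x₀, y₀) : ℕ × ℕ) (by
    simp only [Set.mem_setOf_eq]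
    omega)
  rintro ⟨a, b⟩ hq
  simp only [Set.mem_setOf_eq] at hq
  obtain ⟨h1, h2, h3, h4⟩ := hq
  have c1 := seg_conn (G := ngr) (fun i => ((i, y₀) : ℕ × ℕ)) x₀ a h1
    (fun i _ _ => Or.inr ⟨rfl, Or.inl rfl⟩)
  have c2 := seg_conn (G := ngr) (fun i => ((a, i) : ℕ × ℕ)) y₀ b h3
    (fun i _ _ => Or.inl ⟨rfl, Or.inl rfl⟩)
  have c3 := conn_union c1 c2 ⟨(a, y₀), ⟨a, h1, le_rfl, rfl⟩, (a, y₀), ⟨y₀, le_rfl, h3, rfl⟩,
    Or.inl rfl⟩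
  refine ⟨_, ?_, Or.inl ⟨x₀, le_rfl, h1, rfl⟩, Or.inr ⟨b, h3, le_rfl, rfl⟩, c3.preconnected _ _⟩
  rintro ⟨u, v⟩ (⟨i, hi1, hi2, hi⟩ | ⟨i, hi1, hi2, hi⟩)
  · simp only [Prod.mk.injEq] at hi
    simp only [Set.mem_setOf_eq]
    omega
  · simp only [Prod.mk.injEq] at hi
    simp only [Set.mem_setOf_eq]
    omega

end Pool.Agent.IM55.GC
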