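import Pool.Agent.Work.MP_55ff09_co.GC.Stmts

/-!
# MP_55ff09_co, block GC: item ROO (rooting)
-/

set_option autoImplicit false

namespace Pool.Agent.IM55.GC

open SimpleGraph Pool.Agent.IM55 Pool.Agent.IM55.PL Pool.Agent.IM55.CL

namespace XROO

variable {V : Type}

theorem mem_Bk {x y n : ℕ} {q : ℕ × ℕ} :
    q ∈ Bk x y n ↔ (x ≤ q.1 ∧ q.1 < x + n) ∧ y ≤ q.2 ∧ q.2 < y + n := by
  unfold Bk
  rw [Finset.mem_product, Finset.mem_Ico, Finset.mem_Ico]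

theorem blk_lt {a K n : ℕ} (h : a < 2 * K) : a * n + n ≤ 2 * K * n := by
  have h1 : (a + 1) * n ≤ 2 * K * n := Nat.mul_le_mul_right n h
  calc a * n + n = (a + 1) * n := by ring
    _ ≤ _ := h1

theorem blk_ne {a b n x y : ℕ} (h : a ≠ b) (ha : a * n ≤ x ∧ x < a * n + n)
    (hb : b * n ≤ y ∧ y < b * n + n) : x ≠ y := by
  rintro rfl
  rcases Nat.lt_or_gt_of_ne h with h1 | h1
  · have h2 : (a + 1) * n ≤ b * n := Nat.mul_le_mul_right n h1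
    have h3 : (a + 1) * n = a * n + n := by ring
    omega
  · have h2 : (b + 1) * n ≤ a * n := Nat.mul_le_mul_right n h1
    have h3 : (b + 1) * n = b * n + n := by ring
    omega

theorem core (hUQC : S_UQC) (hRCT : S_RCT) (hCRS : S_CRS) [Finite V] {G : SimpleGraph V}
    {K n : ℕ} {U : ℕ → ℕ → Set V} {R Z : Set V} (hn : 1 ≤ n) (hKn : K ≤ n)
    (hGd : Gd G (2 * K * n) U)
    (hU : ∀ x < 2 * K * n, ∀ y < 2 * K * n, U x y ⊆ R) {a b : ℕ} (ha : a < 2 * K)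
    (hb : b < 2 * K) (hab : a ≠ b) {T : Set V} {Q' : Finset (ℕ × ℕ)}
    (hS : Sp G (R ∪ Z) Z (Bk (a * n) (a * n) n) U K T Q')
    (hT : Disjoint T (UQ U (Bk (b * n) (b * n) n))) {w : ℕ → V} {l j : ℕ} (hw : IP G w l)
    (hj : j ≤ l) (hwj : w j ∈ UQ U (Bk (b * n) (b * n) n))
    (hwo : ∀ i, j < i → i ≤ l → w i ∉ UQ U (Bk (a * n) (a * n) n))
    (hwO : ∀ i ≤ l, w i ∈ R ∪ Z) (hwT : ∀ i ≤ l, w i ∉ T) (hwl : w l ∈ Z) : False := by
  have hac := blk_lt (n := n) ha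
  have hbc := blk_lt (n := n) hb
  -- disjointness of cells
  have hcell : ∀ q q' : ℕ × ℕ, q.1 < 2 * K * n → q.2 < 2 * K * n → q'.1 < 2 * K * n →
      q'.2 < 2 * K * n → ∀ v, v ∈ U q.1 q.2 → v ∈ U q'.1 q'.2 → q = q' := by
    intro q q' h1 h2 h3 h4 v hv hv'
    by_contra hne
    exact Set.disjoint_left.1 (hGd.dis q.1 h1 q.2 h2 q'.1 h3 q'.2 h4
      (by rwa [Prod.mk.eta, Prod.mk.eta])) hv hv'
  have hin : ∀ {c : ℕ}, c < 2 * K → ∀ q ∈ Bk (c * n) (c * n) n,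
      q.1 < 2 * K * n ∧ q.2 < 2 * K * n := by
    intro c hc q hq
    have h1 := blk_lt (n := n) hc
    have h2 := mem_Bk.1 hq
    omega
  have hblk : ∀ v, v ∈ UQ U (Bk (b * n) (b * n) n) → v ∉ UQ U (Bk (a * n) (a * n) n) := by
    rintro v ⟨q, hq, hv⟩ ⟨q', hq', hv'⟩
    have hq1 : q ∈ Bk (b * n) (b * n) n := hq
    have hq1' : q' ∈ Bk (a * n) (a * n) n := hq'
    have h1 := hin hb q hq1
    have h2 := hin ha q' hq1'
    have h3 := hcell q q' h1.1 h1.2 h2.1 h2.2 v hv hv'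
    have h4 := (mem_Bk.1 hq1).1
    have h5 := (mem_Bk.1 hq1').1
    exact blk_ne hab h5 h4 (by rw [h3])
  -- the set C₁
  have hQb : (ngr.induce ((Bk (b * n) (b * n) n : Finset (ℕ × ℕ)) : Set (ℕ × ℕ))).Connected := by
    have h1 := hRCT (b * n) (b * n + n) (b * n) (b * n + n) (by omega) (by omega)
    have h2 : ((Bk (b * n) (b * n) n : Finset (ℕ × ℕ)) : Set (ℕ × ℕ)) =
        {q : ℕ × ℕ | b * n ≤ q.1 ∧ q.1 < b * n + n ∧ b * n ≤ q.2 ∧ q.2 < b * n + n} := by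
      ext q
      rw [Finset.mem_coe, mem_Bk, Set.mem_ofPred_eq, and_assoc]
    rw [h2]
    exact h1
  have hB : (G.induce (UQ U (Bk (b * n) (b * n) n))).Connected :=
    hUQC G (2 * K * n) U _ hGd (fun q hq => hin hb q hq) hQb
  have hP := ip_seg_conn hw hj le_rfl
  set P : Set V := {v | ∃ i, j ≤ i ∧ i ≤ l ∧ w i = v} with hPd
  have hC1 : (G.induce (UQ U (Bk (b * n) (b * n) n) ∪ P)).Connected :=
    conn_union hB hP ⟨w j, hwj, w j, ⟨j, le_rfl, hj, rfl⟩, Or.inl rfl⟩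
  obtain ⟨x, y, hx1, hx2, hy1, hy2, hLc, hLT, hLQ⟩ := hCRS G (2 * K * n) K U T Q' (b * n) (a * n)
    hGd hS.card (by omega) (by omega)
  set LL : Set (ℕ × ℕ) := {q | q.1 < 2 * K * n ∧ q.2 < 2 * K * n ∧ (q.1 = x ∨ q.2 = y)} with hLL
  -- the two special cells
  have hxb : (x, b * n) ∈ Bk (b * n) (b * n) n := mem_Bk.2 ⟨⟨hx1, by omega⟩, le_rfl, by
    show b * n < b * n + n
    omega⟩
  have hay : (a * n, y) ∈ Bk (a * n) (a * n) n := mem_Bk.2 ⟨⟨le_rfl, by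
    show a * n < a * n + n
    omega⟩, hy1, by
    show y < a * n + n
    omega⟩
  have hxbL : (x, b * n) ∈ LL := ⟨(hin hb _ hxb).1, (hin hb _ hxb).2, Or.inl rfl⟩
  have hayL : (a * n, y) ∈ LL := ⟨(hin ha _ hay).1, (hin ha _ hay).2, Or.inr rfl⟩
  obtain ⟨⟨v1, hv1⟩⟩ := (hGd.conn x (hin hb _ hxb).1 (b * n) (hin hb _ hxb).2).nonempty
  obtain ⟨⟨v2, hv2⟩⟩ := (hGd.conn (a * n) (hin ha _ hay).1 y (hin ha _ hay).2).nonempty
  have hC : (G.induce ((UQ U (Bk (b * n) (b * n) n) ∪ P) ∪ UQ U LL)).Connected :=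
    conn_union hC1 hLc ⟨v1, Or.inl ⟨(x, b * n), hxb, hv1⟩, v1, ⟨(x, b * n), hxbL, hv1⟩,
      Or.inl rfl⟩
  have hsubO : (UQ U (Bk (b * n) (b * n) n) ∪ P) ∪ UQ U LL ⊆ R ∪ Z := by
    rintro v ((⟨q, hq, hv⟩ | ⟨i, hi1, hi2, rfl⟩) | ⟨q, hq, hv⟩)
    · exact Or.inl (hU q.1 (hin hb q hq).1 q.2 (hin hb q hq).2 hv)
    · exact hwO i hi2
    · exact Or.inl (hU q.1 hq.1 q.2 hq.2.1 hv)
  have hdT : Disjoint ((UQ U (Bk (b * n) (b * n) n) ∪ P) ∪ UQ U LL) T := by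
    rw [Set.disjoint_left]
    rintro v ((hv | ⟨i, hi1, hi2, rfl⟩) | hv) hvT
    · exact Set.disjoint_left.1 hT hvT hv
    · exact hwT i hi2 hvT
    · exact Set.disjoint_left.1 hLT hv hvT
  have hdQ : Disjoint ((UQ U (Bk (b * n) (b * n) n) ∪ P) ∪ UQ U LL) (UQ U Q') := by
    rw [Set.disjoint_left]
    rintro v ((hv | ⟨i, hi1, hi2, rfl⟩) | ⟨q, hq, hv⟩) ⟨q', hq', hv'⟩
    · exact hblk v hv ⟨q', hS.sub hq', hv'⟩
    · rcases Nat.eq_or_lt_of_le hi1 with h | h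
      · subst h
        exact hblk _ hwj ⟨q', hS.sub hq', hv'⟩
      · exact hwo i h hi2 ⟨q', hS.sub hq', hv'⟩
    · have h1 := hin ha q' (hS.sub hq')
      have h2 := hcell q q' hq.1 hq.2.1 h1.1 h1.2 v hv hv'
      subst h2
      have h3 := hLQ q hq'
      rcases hq.2.2 with h4 | h4
      · exact h3.1 h4
      · exact h3.2 h4
  have hZ : (((UQ U (Bk (b * n) (b * n) n) ∪ P) ∪ UQ U LL) ∩ Z).Nonempty :=
    ⟨w l, Or.inl (Or.inr ⟨l, hj, le_rfl, rfl⟩), hwl⟩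
  have hfin := hS.sep _ hsubO hC hdT hdQ hZ
  exact Set.disjoint_left.1 hfin (Or.inr ⟨(a * n, y), hayL, hv2⟩) ⟨(a * n, y), hay, hv2⟩

end XROO

open XROO

theorem i_ROO (hMCT : S_MCT) (hCN2 : S_CN2) (hESC : S_ESC) (hUQC : S_UQC) (hRCT : S_RCT)
    (hCRS : S_CRS) : S_ROO := by
  intro V _ G I A K n U R hK hKn hGd hSm hU
  classical
  by_contra hcon
  have hn : 1 ≤ n := le_trans hK hKn
  have hin : ∀ {c : ℕ}, c < 2 * K → ∀ q ∈ Bk (c * n) (c * n) n,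
      q.1 < 2 * K * n ∧ q.2 < 2 * K * n := by
    intro c hc q hq
    have h1 := blk_lt (n := n) hc
    have h2 := mem_Bk.1 hq
    omega
  have hRZ : Disjoint R (opN G R) := Set.disjoint_left.2 fun v hv hv' => hv'.1 hv
  have hcell : ∀ q q' : ℕ × ℕ, q.1 < 2 * K * n → q.2 < 2 * K * n → q'.1 < 2 * K * n →
      q'.2 < 2 * K * n → q ≠ q' → Disjoint (U q.1 q.2) (U q'.1 q'.2) := by
    intro q q' h1 h2 h3 h4 hne
    exact hGd.dis q.1 h1 q.2 h2 q'.1 h3 q'.2 h4 (by rwa [Prod.mk.eta, Prod.mk.eta])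
  have hex : ∀ a : ℕ, ∃ (T : Set V) (Q' : Finset (ℕ × ℕ)), a < 2 * K →
      Sp G (R ∪ opN G R) (opN G R) (Bk (a * n) (a * n) n) U K T Q' := by
    intro a
    by_cases ha : a < 2 * K
    · rcases hMCT G (R ∪ opN G R) (opN G R) (Bk (a * n) (a * n) n) U K hK
        Set.subset_union_right (fun q hq => ⟨hGd.conn q.1 (hin ha q hq).1 q.2 (hin ha q hq).2,
          fun v hv => Or.inl ((hU q.1 (hin ha q hq).1 q.2 (hin ha q hq).2).1 hv),
          hRZ.mono_left (hU q.1 (hin ha q hq).1 q.2 (hin ha q hq).2).1⟩)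
        (fun q hq q' hq' hne => hcell q q' (hin ha q hq).1 (hin ha q hq).2 (hin ha q' hq').1
          (hin ha q' hq').2 hne) with ⟨w, l, α, h⟩ | ⟨T, Q', h⟩
      · exact absurd ⟨a, ha, w, l, α, h⟩ hcon
      · exact ⟨T, Q', fun _ => h⟩
    · exact ⟨∅, ∅, fun h => absurd h ha⟩
  choose T Q' hSp using hex
  have hTc : ∀ a < 2 * K, (T a).ncard < K := fun a ha => by
    have := (hSp a ha).card
    omega
  obtain ⟨a, ha, b, hb, hab, hd1, hd2⟩ := hCN2 K (fun a => UQ U (Bk (a * n) (a * n) n)) T hK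
    (by
      intro a ha b hb hab
      rw [Set.disjoint_left]
      rintro v ⟨q, hq, hv⟩ ⟨q', hq', hv'⟩
      have hq1 : q ∈ Bk (a * n) (a * n) n := hq
      have hq1' : q' ∈ Bk (b * n) (b * n) n := hq'
      have h1 := hin ha q hq1
      have h2 := hin hb q' hq1'
      refine Set.disjoint_left.1 (hcell q q' h1.1 h1.2 h2.1 h2.2 ?_) hv hv'
      intro h
      exact blk_ne hab (mem_Bk.1 hq1).1 (mem_Bk.1 hq1').1 (by rw [h])) hTc
  have hbb : (b * n, b * n) ∈ Bk (b * n) (b * n) n := mem_Bk.2 ⟨⟨le_rfl, by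
    show b * n < b * n + n
    omega⟩, le_rfl, by
    show b * n < b * n + n
    omega⟩
  have hbn := hin hb _ hbb
  have hYB : U (b * n) (b * n) ⊆ UQ U (Bk (b * n) (b * n) n) := fun v hv => ⟨_, hbb, hv⟩
  obtain ⟨w, l, hw, hw0, hwl, hwr⟩ := hESC G I A (2 * K) R (U (b * n) (b * n)) (T a ∪ T b) hSm
    (hU _ hbn.1 _ hbn.2).1 (hGd.conn _ hbn.1 _ hbn.2) (hU _ hbn.1 _ hbn.2).2
    (by
      have h1 := Set.ncard_union_le (T a) (T b)
      have h2 := hTc a ha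
      have h3 := hTc b hb
      omega)
    (by
      rw [Set.disjoint_left]
      rintro v hv (hv' | hv')
      · exact Set.disjoint_left.1 hd1 hv' (hYB hv)
      · exact Set.disjoint_left.1 (hSp b hb).off hv' (hYB hv))
  have hwO : ∀ i ≤ l, w i ∈ R ∪ opN G R := fun i hi => (hwr ⟨i, hi, rfl⟩).1
  have hwTa : ∀ i ≤ l, w i ∉ T a := fun i hi h => (hwr ⟨i, hi, rfl⟩).2 (Or.inl h)
  have hwTb : ∀ i ≤ l, w i ∉ T b := fun i hi h => (hwr ⟨i, hi, rfl⟩).2 (Or.inr h)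
  set Pr : ℕ → Prop := fun j => w j ∈ UQ U (Bk (a * n) (a * n) n) ∪ UQ U (Bk (b * n) (b * n) n)
    with hPr
  have hP0 : Pr 0 := Or.inr (hYB hw0)
  have hspec : Pr (Nat.findGreatest Pr l) := Nat.findGreatest_spec (Nat.zero_le l) hP0
  have hle : Nat.findGreatest Pr l ≤ l := Nat.findGreatest_le l
  have hgr : ∀ i, Nat.findGreatest Pr l < i → i ≤ l → ¬ Pr i := fun i h1 h2 =>
    Nat.findGreatest_is_greatest h1 h2
  have hU1 : ∀ x < 2 * K * n, ∀ y < 2 * K * n, U x y ⊆ R := fun x hx y hy => (hU x hx y hy).1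
  rcases hspec with h | h
  · exact core hUQC hRCT hCRS hn hKn hGd hU1 hb ha hab.symm (hSp b hb) hd2 hw hle h
      (fun i h1 h2 h3 => hgr i h1 h2 (Or.inr h3)) hwO hwTb hwl
  · exact core hUQC hRCT hCRS hn hKn hGd hU1 ha hb hab (hSp a ha) hd1 hw hle h
      (fun i h1 h2 h3 => hgr i h1 h2 (Or.inl h3)) hwO hwTa hwl

end Pool.Agent.IM55.GC
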