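import Pool.Agent.Work.MP_55ff09_co.GC.Stmts

set_option autoImplicit false

/-! # MP_55ff09_co, block GC, item RTE: routing in a rectangle -/

namespace Pool.Agent.IM55.GC

open SimpleGraph

namespace XRTE

/-- the hook: the part of row `x` between the columns `y` and `z`, and the part of column `z`
from row `x` to row `r - 1` -/
def LS (x y z r : ℕ) : Set (ℕ × ℕ) :=
  {q | (q.1 = x ∧ min y z ≤ q.2 ∧ q.2 ≤ max y z) ∨ (q.2 = z ∧ x ≤ q.1 ∧ q.1 < r)}

theorem mem_LS {x y z r : ℕ} {q : ℕ × ℕ} : q ∈ LS x y z r ↔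
    (q.1 = x ∧ min y z ≤ q.2 ∧ q.2 ≤ max y z) ∨ (q.2 = z ∧ x ≤ q.1 ∧ q.1 < r) := Iff.rfl

theorem reach {S : Set (ℕ × ℕ)} (f : ℕ → ℕ × ℕ) (N : ℕ) (hf : ∀ i ≤ N, f i ∈ S)
    (hadj : ∀ i < N, Nb (f i) (f (i + 1))) : ∀ i, ∀ hi : i ≤ N,
    (ngr.induce S).Reachable ⟨f 0, hf 0 (Nat.zero_le _)⟩ ⟨f i, hf i hi⟩ := by
  intro i
  induction i with
  | zero => exact fun _ => Reachable.refl _
  | succ i ih =>
    intro hi
    refine (ih (by omega)).trans (Adj.reachable ?_)
    show Nb (f i) (f (i + 1))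
    exact hadj i (by omega)

theorem conn_LS (x y z r : ℕ) : (ngr.induce (LS x y z r)).Connected := by
  have h0 : (x, z) ∈ LS x y z r := by
    rw [mem_LS]
    left
    simp
  have key : ∀ q : LS x y z r, (ngr.induce (LS x y z r)).Reachable ⟨(x, z), h0⟩ q := by
    rintro ⟨⟨a, b⟩, hq⟩
    have hq' := mem_LS.1 hq
    simp only at hq'
    rcases hq' with ⟨h1, h2, h3⟩ | ⟨h1, h2, h3⟩
    · subst h1
      rcases le_total b z with h4 | h4
      · have h := reach (S := LS a y z r) (fun i => (a, z - i)) (z - b)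
          (fun i hi => Or.inl ⟨rfl, (by omega : min y z ≤ z - i), (by omega : z - i ≤ max y z)⟩)
          (fun i hi => Or.inl ⟨rfl, Or.inr (by omega : z - (i + 1) + 1 = z - i)⟩) (z - b) le_rfl
        have e1 : z - (z - b) = b := by omega
        simp only [Nat.sub_zero, e1] at h
        exact h
      · have h := reach (S := LS a y z r) (fun i => (a, z + i)) (b - z)
          (fun i hi => Or.inl ⟨rfl, (by omega : min y z ≤ z + i), (by omega : z + i ≤ max y z)⟩)
          (fun i hi => Or.inl ⟨rfl, Or.inl (by omega : z + i + 1 = z + (i + 1))⟩) (b - z) le_rfl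
        have e1 : z + (b - z) = b := by omega
        simp only [Nat.add_zero, e1] at h
        exact h
    · subst h1
      have h := reach (S := LS x y b r) (fun i => (x + i, b)) (a - x)
          (fun i hi => Or.inr ⟨rfl, (by omega : x ≤ x + i), (by omega : x + i < r)⟩)
          (fun i hi => Or.inr ⟨rfl, Or.inl (by omega : x + i + 1 = x + (i + 1))⟩) (a - x) le_rfl
      have e1 : x + (a - x) = a := by omega
      simp only [Nat.add_zero, e1] at h
      exact h
  have : Nonempty (LS x y z r) := ⟨⟨(x, z), h0⟩⟩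
  exact ⟨fun p q => (key p).symm.trans (key q)⟩

/-- the hooks give a routing -/
theorem mk {r n k : ℕ} (x y z : ℕ → ℕ) (hx : ∀ j < k, x j < r) (hy : ∀ j < k, y j < n)
    (hz : ∀ j < k, z j < n) (hrow : ∀ j < k, x j + 1 = r → z j = y j)
    (hdis : ∀ j < k, ∀ j' < k, j < j' → Disjoint (LS (x j) (y j) (z j) r)
      (LS (x j') (y j') (z j') r))
    (hinc : ∀ j < k, ∀ j' < k, j < j' → z j < z j') :
    Ro r n k (fun j => (x j, y j)) (fun j => LS (x j) (y j) (z j) r) z where
  conn j _ := conn_LS _ _ _ _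
  sub j hj q hq := by
    have h1 := hx j hj
    have h2 := hy j hj
    have h3 := hz j hj
    rw [mem_LS] at hq
    omega
  mem j _ := by
    rw [mem_LS]
    left
    simp
  bot j hj := by
    have h1 := hx j hj
    exact Or.inr ⟨rfl, (by omega : x j ≤ r - 1), (by omega : r - 1 < r)⟩
  row j hj q hq hr := by
    have h1 := hrow j hj
    rw [mem_LS] at hq
    omega
  dis j hj j' hj' hne := by
    rcases lt_or_gt_of_ne hne with h | h
    · exact hdis j hj j' hj' h
    · exact (hdis j' hj' j hj h).symm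
  inc := hinc

/-- many columns -/
theorem cols {r n k : ℕ} {F : Finset (ℕ × ℕ)} (hF : ∀ q ∈ F, q.1 < r ∧ q.2 < n)
    (h : k ≤ (F.image Prod.snd).card) : ∃ b L c, Ro r n k b L c ∧ ∀ j < k, b j ∈ F := by
  have h1 : ∀ j : ℕ, ∃ q : ℕ × ℕ, ∀ hj : j < k,
      q ∈ F ∧ q.2 = (F.image Prod.snd).orderEmbOfCardLe h ⟨j, hj⟩ := by
    intro j
    by_cases hj : j < k
    · have h2 := (F.image Prod.snd).orderEmbOfCardLe_mem h ⟨j, hj⟩
      obtain ⟨q, hq, hq2⟩ := Finset.mem_image.1 h2
      exact ⟨q, fun _ => ⟨hq, hq2⟩⟩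
    · exact ⟨(0, 0), fun h2 => absurd h2 hj⟩
  choose q hq using h1
  have hinc : ∀ j < k, ∀ j' < k, j < j' → (q j).2 < (q j').2 := by
    intro j hj j' hj' hlt
    rw [(hq j hj).2, (hq j' hj').2]
    exact ((F.image Prod.snd).orderEmbOfCardLe h).strictMono hlt
  refine ⟨_, _, _, mk (fun j => (q j).1) (fun j => (q j).2) (fun j => (q j).2)
    (fun j hj => (hF _ (hq j hj).1).1) (fun j hj => (hF _ (hq j hj).1).2)
    (fun j hj => (hF _ (hq j hj).1).2) (fun _ _ _ => rfl) ?_ hinc, fun j hj => (hq j hj).1⟩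
  intro j hj j' hj' hlt
  have h2 := hinc j hj j' hj' hlt
  rw [Set.disjoint_left]
  intro p hp hp'
  rw [mem_LS] at hp hp'
  omega

/-- one column -/
theorem one {r n k : ℕ} {F : Finset (ℕ × ℕ)} (hk : 1 ≤ k) (hn : 2 * k ≤ n)
    (hF : ∀ q ∈ F, q.1 < r ∧ q.2 < n) (y : ℕ)
    (h : k ≤ ((F.filter fun q => q.2 = y).image Prod.fst).card) :
    ∃ b L c, Ro r n k b L c ∧ ∀ j < k, b j ∈ F := by
  set R := (F.filter fun q => q.2 = y).image Prod.fst with hR
  have hmem : ∀ x ∈ R, (x, y) ∈ F := by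
    intro x hx
    rw [hR, Finset.mem_image] at hx
    obtain ⟨q, hq, hq1⟩ := hx
    rw [Finset.mem_filter] at hq
    have : q = (x, y) := Prod.ext hq1 hq.2
    rw [← this]
    exact hq.1
  have h1 : ∀ j : ℕ, ∃ x : ℕ, ∀ hj : j < k, x = R.orderEmbOfCardLe h ⟨k - 1 - j, by omega⟩ := by
    intro j
    by_cases hj : j < k
    · exact ⟨R.orderEmbOfCardLe h ⟨k - 1 - j, by omega⟩, fun _ => rfl⟩
    · exact ⟨0, fun h2 => absurd h2 hj⟩
  choose x hx using h1
  have hxR : ∀ j < k, x j ∈ R := by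
    intro j hj
    rw [hx j hj]
    exact R.orderEmbOfCardLe_mem h _
  have hxF : ∀ j < k, (x j, y) ∈ F := fun j hj => hmem _ (hxR j hj)
  have hdec : ∀ i j, i < j → j < k → x j < x i := by
    intro i j hij hj
    rw [hx j hj, hx i (by omega)]
    refine (R.orderEmbOfCardLe h).strictMono ?_
    rw [Fin.mk_lt_mk]
    omega
  have hxr : ∀ j < k, x j < r := fun j hj => (hF _ (hxF j hj)).1
  have hyn : y < n := (hF _ (hxF 0 (by omega))).2
  rcases le_or_gt (y + k) n with hc | hc
  · refine ⟨_, _, _, mk x (fun _ => y) (fun j => y + j) hxr (fun _ _ => hyn)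
      (fun j hj => by omega) ?_ ?_ (fun j _ j' _ hlt => by omega), hxF⟩
    · intro j hj hr
      rcases Nat.eq_zero_or_pos j with h0 | h0
      · omega
      · have h2 := hdec 0 j h0 hj
        have h3 := hxr 0 (by omega)
        omega
    · intro j hj j' hj' hlt
      have h2 := hdec j j' hlt hj'
      rw [Set.disjoint_left]
      intro p hp hp'
      rw [mem_LS] at hp hp'
      omega
  · refine ⟨_, _, _, mk (fun j => x (k - 1 - j)) (fun _ => y) (fun j => y - (k - 1 - j))
      (fun j hj => hxr _ (by omega)) (fun _ _ => hyn)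
      (fun j hj => by omega) ?_ ?_ (fun j _ j' _ hlt => by omega),
      fun j hj => hxF _ (by omega)⟩
    · intro j hj hr
      rcases Nat.eq_zero_or_pos (k - 1 - j) with h0 | h0
      · omega
      · have h2 := hdec 0 (k - 1 - j) h0 (by omega)
        have h3 := hxr 0 (by omega)
        omega
    · intro j hj j' hj' hlt
      have h2 := hdec (k - 1 - j') (k - 1 - j) (by omega) (by omega)
      rw [Set.disjoint_left]
      intro p hp hp'
      rw [mem_LS] at hp hp'
      omega

end XRTE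

theorem i_RTE : S_RTE := by
  intro r n k F hk hn hF hcard
  by_cases h : k ≤ (F.image Prod.snd).card
  · exact XRTE.cols hF h
  · push Not at h
    have h1 : (F.image Prod.snd).card * (k - 1) < F.card := by
      refine lt_of_le_of_lt ?_ hcard
      rw [sq]
      exact Nat.mul_le_mul_right _ (by omega)
    obtain ⟨y, -, hy⟩ := Finset.exists_lt_card_fiber_of_mul_lt_card_of_maps_to
      (s := F) (t := F.image Prod.snd) (f := Prod.snd) (n := k - 1)
      (fun a ha => Finset.mem_image_of_mem _ ha) h1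
    refine XRTE.one hk hn hF y ?_
    rw [Finset.card_image_of_injOn]
    · omega
    · intro p hp q hq hpq
      rw [Finset.mem_coe, Finset.mem_filter] at hp hq
      exact Prod.ext hpq (hp.2.trans hq.2.symm)

end Pool.Agent.IM55.GC
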