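import Pool.Agent.Work.MP_55ff09_co.GC.Stmts

/-!
# MP_55ff09_co, block GC, item SDR: different representatives
-/

set_option autoImplicit false

namespace Pool.Agent.IM55.GC

open SimpleGraph Pool.Agent.IM55 Pool.Agent.IM55.PL Pool.Agent.IM55.CL

theorem i_SDR : S_SDR := by
  classical
  intro K F α h1 h2
  have key : ∃ f : Fin K → ℕ × ℕ, Function.Injective f ∧ ∀ c : Fin K, f c ∈ F (c : ℕ) := by
    refine (Finset.all_card_le_biUnion_card_iff_exists_injective
      (fun c : Fin K => F (c : ℕ))).mp ?_
    intro s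
    by_cases hbig : ∃ c ∈ s, K ≤ (F (c : ℕ)).card
    · obtain ⟨c, hc, hK⟩ := hbig
      calc s.card ≤ Fintype.card (Fin K) := Finset.card_le_univ s
        _ = K := Fintype.card_fin K
        _ ≤ (F (c : ℕ)).card := hK
        _ ≤ _ := Finset.card_le_card
          (Finset.subset_biUnion_of_mem (fun c : Fin K => F (c : ℕ)) hc)
    · push Not at hbig
      have hinj : Set.InjOn (fun c : Fin K => α (c : ℕ)) (s : Set (Fin K)) := by
        intro c _ c' _ e
        by_contra hne
        exact h2 c c.2 c' c'.2 (fun h => hne (Fin.ext h)) e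
      rw [← Finset.card_image_of_injOn hinj]
      apply Finset.card_le_card
      intro q hq
      obtain ⟨c, hc, rfl⟩ := Finset.mem_image.mp hq
      refine Finset.mem_biUnion.mpr ⟨c, hc, ?_⟩
      rcases h1 c c.2 with h | h
      · exact absurd h (not_le.mpr (hbig c hc))
      · exact h
  obtain ⟨f, hf, hfm⟩ := key
  refine ⟨fun c => if h : c < K then f ⟨c, h⟩ else (0, 0), ?_, ?_⟩
  · intro c hc
    simp only [dif_pos hc]
    exact hfm ⟨c, hc⟩
  · intro c hc c' hc' hne
    simp only [dif_pos hc, dif_pos hc']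
    intro e
    exact hne (congrArg Fin.val (hf e))

end Pool.Agent.IM55.GC
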