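import Pool.Agent.Work.MP_55ff09_co.GC.Stmts

/-!
# MP_55ff09_co, block GC, item SEP (helper24)
-/

set_option autoImplicit false

namespace Pool.Agent.IM55.GC

open SimpleGraph Pool.Agent.IM55 Pool.Agent.IM55.PL Pool.Agent.IM55.CL

namespace XSEP

/-- two consecutive numbers with different quotients -/
theorem quo (l a b : ℕ) (hl : 0 < l) (hab : b ≤ a + 1) (h : a / l < b / l) :
    a + 1 = l * (a / l + 1) := by
  have h1 := Nat.div_add_mod a l
  have h2 := Nat.div_add_mod b l
  have h3 := Nat.mod_lt a hl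
  have h4 : l * (a / l + 1) ≤ l * (b / l) := Nat.mul_le_mul_left l h
  rw [Nat.mul_add, Nat.mul_one] at h4 ⊢
  omega

/-- adjacent layers in different groups -/
theorem grp (l j x y : ℕ) (hj : j < l) (hxy : y ≤ x + 1)
    (h : (x + (l - 1 - j)) / l < (y + (l - 1 - j)) / l) : x % l = j := by
  have h1 := quo l (x + (l - 1 - j)) (y + (l - 1 - j)) (by omega) (by omega) h
  rw [Nat.mul_add, Nat.mul_one] at h1
  have h2 : x = l * ((x + (l - 1 - j)) / l) + j := by omega
  rw [h2, Nat.mul_add_mod, Nat.mod_eq_of_lt hj]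

/-- the layers of a group -/
theorem win (l j x i : ℕ) (hj : j < l) (h : (x + (l - 1 - j)) / l = i) :
    l * i - (l - 1 - j) ≤ x ∧ x ≤ l * i - (l - 1 - j) + l := by
  have h1 := Nat.div_add_mod (x + (l - 1 - j)) l
  have h3 := Nat.mod_lt (x + (l - 1 - j)) (show 0 < l by omega)
  rw [h] at h1
  omega

/-- pigeonhole -/
theorem pig {V : Type} [Finite V] (ly : V → ℕ) (l : ℕ) (hl : 0 < l) :
    ∃ j < l, l * {v | ly v % l = j}.ncard ≤ Nat.card V := by
  classical
  have := Fintype.ofFinite V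
  by_contra hc
  push Not at hc
  have h1 : (Finset.univ : Finset V).card =
      ∑ j ∈ Finset.range l, ((Finset.univ : Finset V).filter fun v => ly v % l = j).card :=
    Finset.card_eq_sum_card_fiberwise fun v _ => by
      simpa using Nat.mod_lt (ly v) hl
  have h2 : ∀ j ∈ Finset.range l, Nat.card V + 1 ≤
      l * ((Finset.univ : Finset V).filter fun v => ly v % l = j).card := by
    intro j hj
    have h3 := hc j (Finset.mem_range.1 hj)
    have h4 : {v | ly v % l = j}.ncard =
        ((Finset.univ : Finset V).filter fun v => ly v % l = j).card := by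
      rw [← Set.ncard_coe_finset]
      congr 1
      ext v
      simp
    rw [h4] at h3
    omega
  have h5 := Finset.sum_le_sum h2
  rw [Finset.sum_const, Finset.card_range, smul_eq_mul, ← Finset.mul_sum, ← h1] at h5
  have h6 : (Finset.univ : Finset V).card = Nat.card V := by
    rw [Finset.card_univ, Nat.card_eq_fintype_card]
  rw [h6] at h5
  have h7 := Nat.le_of_mul_le_mul_left h5 hl
  omega

/-- sums over fibres -/
theorem fib {V : Type} [Finite V] (s : V → ℕ) (Z : Set V) (M c : ℕ)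
    (h : ∀ i, M * (Z ∩ {v | s v = i}).ncard ≤ c * {v | s v = i}.ncard) :
    M * Z.ncard ≤ c * Nat.card V := by
  classical
  have := Fintype.ofFinite V
  set T : Finset ℕ := Finset.univ.image s with hT
  have h1 : (Finset.univ : Finset V).card =
      ∑ i ∈ T, ((Finset.univ : Finset V).filter fun v => s v = i).card :=
    Finset.card_eq_sum_card_fiberwise fun v _ => by
      rw [hT]
      exact Finset.mem_coe.2 (Finset.mem_image_of_mem s (Finset.mem_univ v))
  have h2 : ((Finset.univ : Finset V).filter fun v => v ∈ Z).card =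
      ∑ i ∈ T, (((Finset.univ : Finset V).filter fun v => v ∈ Z).filter fun v => s v = i).card :=
    Finset.card_eq_sum_card_fiberwise fun v _ => by
      rw [hT]
      exact Finset.mem_coe.2 (Finset.mem_image_of_mem s (Finset.mem_univ v))
  have h3 : Z.ncard = ((Finset.univ : Finset V).filter fun v => v ∈ Z).card := by
    rw [← Set.ncard_coe_finset]
    congr 1
    ext v
    simp
  have h4 : Nat.card V = (Finset.univ : Finset V).card := by
    rw [Finset.card_univ, Nat.card_eq_fintype_card]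
  rw [h3, h4, h1, h2, Finset.mul_sum, Finset.mul_sum]
  refine Finset.sum_le_sum fun i _ => ?_
  have h5 := h i
  have h6 : (Z ∩ {v | s v = i}).ncard =
      (((Finset.univ : Finset V).filter fun v => v ∈ Z).filter fun v => s v = i).card := by
    rw [← Set.ncard_coe_finset]
    congr 1
    ext v
    simp
  have h7 : {v | s v = i}.ncard = ((Finset.univ : Finset V).filter fun v => s v = i).card := by
    rw [← Set.ncard_coe_finset]
    congr 1
    ext v
    simp
  rwa [h6, h7] at h5

end XSEP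

theorem i_SEP (hLAY : S_LAY) (hTWM : S_TWM) (hCTS : S_CTS) : S_SEP := by
  intro W _ H D e
  obtain ⟨f, hf⟩ := hLAY H D
  set l : ℕ := 2 * (e + 1) with hl
  set w : ℕ := f l with hw
  set M : ℕ := 2 * (e + 1) * (w + 1) with hM
  refine ⟨2 * M, ?_⟩
  intro V _ G hH hD
  obtain ⟨ly, hly, htw⟩ := hf G hH hD
  have hl0 : 0 < l := by omega
  obtain ⟨j, hj, hY⟩ := XSEP.pig ly l hl0
  set Y : Set V := {v | ly v % l = j} with hYd
  set s : V → ℕ := fun v => (ly v + (l - 1 - j)) / l with hs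
  have hwM : w + 1 ≤ M := by
    rw [hM]
    exact Nat.le_mul_of_pos_left _ (by omega)
  have hgr : ∀ i, ∃ (X : Set {v : V | s v = i}) (p : {v : V | s v = i} → ℕ),
      M * X.ncard ≤ (w + 1) * Nat.card {v : V | s v = i} ∧
      (∀ u, u ∉ X → ∀ v, v ∉ X → (G.induce {v : V | s v = i}).Adj u v → p u = p v) ∧
      ∀ c, {v | v ∉ X ∧ p v = c}.ncard ≤ 2 * M := by
    intro i
    have h1 : {v : V | s v = i} ⊆ {v | l * i - (l - 1 - j) ≤ ly v ∧
        ly v ≤ l * i - (l - 1 - j) + l} := fun v hv => XSEP.win l j (ly v) i hj hv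
    exact hCTS (G.induce {v : V | s v = i}) w M
      (hTWM G _ _ w h1 (htw (l * i - (l - 1 - j)) l)) hwM
  choose X' p' hX1 hX2 hX3 using hgr
  set Z : Set V := {v | (⟨v, rfl⟩ : {u : V | s u = s v}) ∈ X' (s v)} with hZ
  have hmem : ∀ (i : ℕ) (v : V) (hv : s v = i), v ∈ Z ↔ (⟨v, hv⟩ : {u : V | s u = i}) ∈ X' i := by
    rintro i v rfl
    rfl
  have hp : ∀ (i : ℕ) (v : V) (hv : s v = i), p' (s v) ⟨v, rfl⟩ = p' i ⟨v, hv⟩ := by
    rintro i v rfl
    rfl
  have hZc : M * Z.ncard ≤ (w + 1) * Nat.card V := by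
    refine XSEP.fib s Z M (w + 1) fun i => ?_
    have h1 : Z ∩ {v | s v = i} = Subtype.val '' X' i := by
      ext v
      constructor
      · rintro ⟨h1, h2⟩
        exact ⟨⟨v, h2⟩, (hmem i v h2).1 h1, rfl⟩
      · rintro ⟨⟨v, h2⟩, h3, rfl⟩
        exact ⟨(hmem i v h2).2 h3, h2⟩
    rw [h1, Set.ncard_image_of_injective _ Subtype.val_injective]
    have h2 : {v : V | s v = i}.ncard = Nat.card {v : V | s v = i} :=
      (Nat.card_coe_set_eq _).symm
    rw [h2]
    exact hX1 i
  refine ⟨Y ∪ Z, fun v => Nat.pair (s v) (p' (s v) ⟨v, rfl⟩), ?_, ?_, ?_⟩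
  · have h1 : (Y ∪ Z).ncard ≤ Y.ncard + Z.ncard := Set.ncard_union_le _ _
    have h2 : 2 * (e + 1) * Z.ncard ≤ Nat.card V := by
      have h3 : (w + 1) * (2 * (e + 1) * Z.ncard) ≤ (w + 1) * Nat.card V := by
        refine le_trans (le_of_eq ?_) hZc
        rw [hM]
        ring
      exact Nat.le_of_mul_le_mul_left h3 (Nat.succ_pos w)
    have h4 : (e + 1) * (Y ∪ Z).ncard ≤ (e + 1) * (Y.ncard + Z.ncard) :=
      Nat.mul_le_mul_left _ h1
    have h5 : 2 * (e + 1) * Y.ncard ≤ Nat.card V := hY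
    nlinarith
  · intro u hu v hv ha
    have huY : ly u % l ≠ j := fun h => hu (Or.inl h)
    have hvY : ly v % l ≠ j := fun h => hv (Or.inl h)
    have huZ : u ∉ Z := fun h => hu (Or.inr h)
    have hvZ : v ∉ Z := fun h => hv (Or.inr h)
    have hs1 : s u = s v := by
      rcases Nat.lt_trichotomy (s u) (s v) with h | h | h
      · exact absurd (XSEP.grp l j (ly u) (ly v) hj (hly v u ha.symm) h) huY
      · exact h
      · exact absurd (XSEP.grp l j (ly v) (ly u) hj (hly u v ha) h) hvY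
    have h1 : p' (s v) ⟨u, hs1⟩ = p' (s v) ⟨v, rfl⟩ :=
      hX2 (s v) ⟨u, hs1⟩ (fun h => huZ ((hmem _ u hs1).2 h)) ⟨v, rfl⟩
        (fun h => hvZ ((hmem _ v rfl).2 h)) ha
    show Nat.pair (s u) (p' (s u) ⟨u, rfl⟩) = Nat.pair (s v) (p' (s v) ⟨v, rfl⟩)
    rw [hp (s v) u hs1, h1, hs1]
  · intro c
    have h1 : {v | v ∉ Y ∪ Z ∧ Nat.pair (s v) (p' (s v) ⟨v, rfl⟩) = c} ⊆
        Subtype.val '' {v : {u : V | s u = c.unpair.1} | v ∉ X' c.unpair.1 ∧
          p' c.unpair.1 v = c.unpair.2} := by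
      rintro v ⟨hv1, hv2⟩
      have h2 : s v = c.unpair.1 := by
        rw [← hv2, Nat.unpair_pair]
      have h3 : p' (s v) ⟨v, rfl⟩ = c.unpair.2 := by
        rw [← hv2, Nat.unpair_pair]
      refine ⟨⟨v, h2⟩, ⟨fun h => hv1 (Or.inr ((hmem _ v h2).2 h)), ?_⟩, rfl⟩
      rw [← hp _ v h2]
      exact h3
    refine (Set.ncard_le_ncard h1 (Set.toFinite _)).trans ?_
    rw [Set.ncard_image_of_injective _ Subtype.val_injective]
    exact hX3 _ _

end Pool.Agent.IM55.GC
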