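import Pool.Agent.Work.MP_55ff09_co.GC.Stmts

/-!
# SHF: sub-blocks and reflections of grid models (block GC of MP_55ff09_co)
-/

set_option autoImplicit false

namespace Pool.Agent.IM55.GC

open SimpleGraph Pool.Agent.IM55 Pool.Agent.IM55.PL Pool.Agent.IM55.CL

namespace XSHF

/-- adjacency of cells does not change under a translation -/
theorem nb_shift (x₀ y₀ x y x' y' : ℕ) :
    Nb (x₀ + x, y₀ + y) (x₀ + x', y₀ + y') ↔ Nb (x, y) (x', y') := by
  unfold Nb
  simp only
  omega

/-- adjacency of cells does not change under a reflection -/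
theorem nb_refl (N x y x' y' : ℕ) (hx : x < N) (hx' : x' < N) :
    Nb (N - 1 - x, y) (N - 1 - x', y') ↔ Nb (x, y) (x', y') := by
  unfold Nb
  simp only
  omega

end XSHF

/-- SHF -/
theorem i_SHF : S_SHF := by
  intro V G N n x₀ y₀ U hU hx₀ hy₀
  constructor
  · constructor
    · intro x hx y hy
      exact hU.conn (x₀ + x) (by omega) (y₀ + y) (by omega)
    · intro x hx y hy x' hx' y' hy' hne
      refine hU.dis (x₀ + x) (by omega) (y₀ + y) (by omega) (x₀ + x') (by omega) (y₀ + y')
        (by omega) ?_
      intro h
      apply hne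
      rw [Prod.mk.injEq] at h ⊢
      omega
    · intro x hx y hy x' hx' y' hy' hne
      rw [← XSHF.nb_shift x₀ y₀ x y x' y']
      refine hU.adj (x₀ + x) (by omega) (y₀ + y) (by omega) (x₀ + x') (by omega) (y₀ + y')
        (by omega) ?_
      intro h
      apply hne
      rw [Prod.mk.injEq] at h ⊢
      omega
  · constructor
    · intro x hx y hy
      exact hU.conn (N - 1 - x) (by omega) y hy
    · intro x hx y hy x' hx' y' hy' hne
      refine hU.dis (N - 1 - x) (by omega) y hy (N - 1 - x') (by omega) y' hy' ?_
      intro h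
      apply hne
      rw [Prod.mk.injEq] at h ⊢
      omega
    · intro x hx y hy x' hx' y' hy' hne
      rw [← XSHF.nb_refl N x y x' y' hx hx']
      refine hU.adj (N - 1 - x) (by omega) y hy (N - 1 - x') (by omega) y' hy' ?_
      intro h
      apply hne
      rw [Prod.mk.injEq] at h ⊢
      omega

end Pool.Agent.IM55.GC
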