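import Pool.Agent.Work.MP_55ff09_co.GC.Stmts

/-!
# MP_55ff09_co, block GC, item SHT: touched cells of a shifted block
-/

set_option autoImplicit false

namespace Pool.Agent.IM55.GC

open SimpleGraph Pool.Agent.IM55 Pool.Agent.IM55.PL Pool.Agent.IM55.CL

namespace XSHT

theorem mem_tch {V : Type} (G : SimpleGraph V) (Q : Finset (ℕ × ℕ)) (U : ℕ → ℕ → Set V)
    (T : Set V) (q : ℕ × ℕ) : q ∈ tch G Q U T ↔ q ∈ Q ∧ Touch G T (U q.1 q.2) := by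
  classical
  unfold tch
  exact Finset.mem_filter

theorem mem_Bk (x₀ y₀ n : ℕ) (q : ℕ × ℕ) :
    q ∈ Bk x₀ y₀ n ↔ (x₀ ≤ q.1 ∧ q.1 < x₀ + n) ∧ (y₀ ≤ q.2 ∧ q.2 < y₀ + n) := by
  unfold Bk
  rw [Finset.mem_product, Finset.mem_Ico, Finset.mem_Ico]

end XSHT

theorem i_SHT : S_SHT := by
  intro V G n x₀ y₀ U T
  ext q
  rw [XSHT.mem_tch, XSHT.mem_Bk, Finset.mem_image]
  constructor
  · rintro ⟨⟨⟨_, h1⟩, ⟨_, h2⟩⟩, h3⟩
    refine ⟨(x₀ + q.1, y₀ + q.2), ?_, ?_⟩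
    · rw [XSHT.mem_tch, XSHT.mem_Bk]
      exact ⟨⟨⟨by simp, by simp only; omega⟩, ⟨by simp, by simp only; omega⟩⟩, h3⟩
    · ext
      · simp
      · simp
  · rintro ⟨p, hp, rfl⟩
    rw [XSHT.mem_tch, XSHT.mem_Bk] at hp
    obtain ⟨⟨⟨h1, h2⟩, ⟨h3, h4⟩⟩, h5⟩ := hp
    refine ⟨⟨⟨Nat.zero_le _, ?_⟩, ⟨Nat.zero_le _, ?_⟩⟩, ?_⟩
    · simp only; omega
    · simp only; omega
    · have e1 : x₀ + (p.1 - x₀) = p.1 := by omega
      have e2 : y₀ + (p.2 - y₀) = p.2 := by omega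
      simp only [e1, e2]
      exact h5

end Pool.Agent.IM55.GC
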