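import Pool.Agent.Work.MP_55ff09_co.GC.Stmts
import Pool.Agent.Work.MP_55ff09_co.CL.I_PTH

/-!
# MP_55ff09_co, block GC, item SNG: the cost of a vertex
-/

set_option autoImplicit false

namespace Pool.Agent.IM55.GC

open SimpleGraph Pool.Agent.IM55 Pool.Agent.IM55.PL Pool.Agent.IM55.CL

theorem i_SNG : S_SNG := by
  intro V _ G D I A v hG hK hD
  refine ⟨{v}, subset_rfl, ?_, XPTH.opN_single hG v⟩
  exact XPTH.sm_of_clN hK {v} (lt_of_le_of_lt (clN_ncard hG v) hD)

end Pool.Agent.IM55.GC
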