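import Pool.Agent.Work.MP_55ff09_co.GC.Stmts

/-!
# MP_55ff09_co, block GC, item SPL: splitting an expensive connected set
-/

set_option autoImplicit false

namespace Pool.Agent.IM55.GC

open SimpleGraph Pool.Agent.IM55 Pool.Agent.IM55.PL Pool.Agent.IM55.CL

namespace XSPL

variable {V : Type}

theorem ch_mono {G : SimpleGraph V} {I : Finset ℕ} {A : ℕ → Set V} {X Y : Set V} {b b' : ℕ}
    (h : Ch G I A X b) (hY : Y ⊆ X) (hb : b ≤ b') : Ch G I A Y b' := by
  obtain ⟨R, h1, h2, h3⟩ := h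
  exact ⟨R, hY.trans h1, h2, h3.trans hb⟩

theorem ch_empty [Finite V] {G : SimpleGraph V} {I : Finset ℕ} {A : ℕ → Set V} (b : ℕ)
    (hI : I.Nonempty) : Ch G I A ∅ b := by
  obtain ⟨i, hi⟩ := hI
  refine ⟨∅, Set.Subset.rfl, ⟨i, hi, fun x hx => absurd hx (Set.notMem_empty x)⟩, ?_⟩
  have e : opN G (∅ : Set V) = ∅ := by
    ext y
    constructor
    · rintro ⟨-, x, hx, -⟩
      exact absurd hx (Set.notMem_empty x)
    · intro h
      exact absurd h (Set.notMem_empty y)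
  rw [e, Set.ncard_empty]
  exact Nat.zero_le _

/-- every vertex of `X \ {v}` is in the component of a neighbour of `v` -/
theorem cover {G : SimpleGraph V} {X : Set V} (hX : (G.induce X).Connected) {v x : V}
    (hv : v ∈ X) (hx : x ∈ X) (hxv : x ≠ v) :
    ∃ u, u ∈ X ∧ G.Adj v u ∧ x ∈ cmp G (X \ {v}) u := by
  have hx' : x ∈ X \ {v} := ⟨hx, hxv⟩
  obtain ⟨u, hu, u', hu', h1, h2, h3⟩ := exit_edge hX (fun z => z ∈ cmp G (X \ {v}) x) hx
    (mem_cmp_self hx') hv (fun h => (cmp_subset h).2 rfl)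
  have e : u' = v := by
    by_contra hne
    exact h2 (cmp_adj h1 ⟨hu', hne⟩ h3)
  subst e
  exact ⟨u, hu, h3.symm, cmp_symm h1⟩

/-- the rest of a split is connected -/
theorem rest {G : SimpleGraph V} {X X₁ : Set V} (hX₁ : (G.induce X₁).Connected) (hsub : X₁ ⊆ X)
    (hX₂ : X \ X₁ = ∅ ∨ (G.induce (X \ X₁)).Connected) {v u : V} (hv : v ∈ X₁)
    (hadj : (X \ X₁).Nonempty → ∃ y ∈ X \ X₁, G.Adj v y) :
    (G.induce (X \ cmp G (X₁ \ {v}) u)).Connected := by
  set K := cmp G (X₁ \ {v}) u with hKdef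
  have hKs : K ⊆ X₁ \ {v} := cmp_subset
  have e : X \ K = {v} ∪ ⋃ i : {S : Set V // (G.induce S).Connected ∧ S ⊆ X \ K ∧
      Touch G {v} S}, i.1 := by
    apply Set.Subset.antisymm
    · rintro x ⟨hx, hxK⟩
      by_cases hxv : x = v
      · exact Or.inl hxv
      · right
        by_cases hx1 : x ∈ X₁
        · obtain ⟨w, hw, hvw, hxw⟩ := cover hX₁ hv hx1 hxv
          have hw' : w ∈ X₁ \ {v} := ⟨hw, fun h => hvw.ne h.symm⟩
          refine Set.mem_iUnion.2 ⟨⟨cmp G (X₁ \ {v}) w, cmp_connected hw', ?_, ?_⟩, hxw⟩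
          · intro y hy
            refine ⟨hsub (cmp_subset hy).1, fun hyK => hxK ?_⟩
            exact cmp_trans hyK (cmp_trans (cmp_symm hy) hxw)
          · exact ⟨v, rfl, w, mem_cmp_self hw', Or.inr hvw⟩
        · have hne : (X \ X₁).Nonempty := ⟨x, hx, hx1⟩
          obtain ⟨y, hy, hvy⟩ := hadj hne
          have hc : (G.induce (X \ X₁)).Connected := by
            rcases hX₂ with h | h
            · exact absurd h hne.ne_empty
            · exact h
          refine Set.mem_iUnion.2 ⟨⟨X \ X₁, hc, ?_, ⟨v, rfl, y, hy, Or.inr hvy⟩⟩, ⟨hx, hx1⟩⟩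
          exact fun z hz => ⟨hz.1, fun hzK => hz.2 (hKs hzK).1⟩
    · rintro x (hx | hx)
      · rw [Set.mem_singleton_iff] at hx
        subst hx
        exact ⟨hsub hv, fun h => (hKs h).2 rfl⟩
      · obtain ⟨i, hi⟩ := Set.mem_iUnion.1 hx
        exact i.2.2.1 hi
  rw [e]
  exact conn_iUnion _ (conn_singleton v) (fun i => i.2.1) (fun i => i.2.2.2)

end XSPL

open XSPL in
theorem i_SPL (h1 : S_UNI) (h2 : S_UNF) (h3 : S_SNG) : S_SPL := by
  intro V _ G D I A a X hG hK hI hX hch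
  classical
  have hIne : I.Nonempty := Finset.card_pos.1 (by omega)
  have haD : a ≤ (D + 1) * a + D := by nlinarith [Nat.zero_le (D * a)]
  obtain ⟨Cand, hCand⟩ : ∃ Cand : Set V → Prop, ∀ Y, Cand Y ↔ (Y ⊆ X ∧ (G.induce Y).Connected ∧
      ¬ Ch G I A Y a ∧ (X \ Y = ∅ ∨ (G.induce (X \ Y)).Connected)) := ⟨_, fun Y => Iff.rfl⟩
  have hcX : Cand X := (hCand X).2 ⟨Set.Subset.rfl, hX,
    fun h => hch (ch_mono h Set.Subset.rfl haD), Or.inl (by simp)⟩
  have hne : ∃ n, ∃ Y, Cand Y ∧ Y.ncard = n := ⟨_, X, hcX, rfl⟩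
  obtain ⟨X₁, hX₁c, hn⟩ := Nat.find_spec hne
  have hmin : ∀ Y, Cand Y → X₁.ncard ≤ Y.ncard := fun Y hY => by
    rw [hn]
    exact Nat.find_min' hne ⟨Y, hY, rfl⟩
  obtain ⟨hsub, hX₁, hX₁ch, hX₂⟩ := (hCand X₁).1 hX₁c
  have key : ¬ Ch G I A (X \ X₁) a := by
    intro hc2
    obtain ⟨v, hv, hadj⟩ : ∃ v ∈ X₁, (X \ X₁).Nonempty → ∃ y ∈ X \ X₁, G.Adj v y := by
      obtain ⟨⟨x, hx⟩⟩ := hX₁.nonempty
      by_cases hne2 : (X \ X₁).Nonempty
      · obtain ⟨y, hy⟩ := hne2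
        obtain ⟨u, hu, u', hu', g1, g2, g3⟩ := exit_edge hX (fun z => z ∈ X₁) (hsub hx) hx hy.1
          hy.2
        exact ⟨u, g1, fun _ => ⟨u', ⟨hu', g2⟩, g3⟩⟩
      · exact ⟨x, hx, fun h => absurd h hne2⟩
    have hNfin : {u | u ∈ X₁ ∧ G.Adj v u}.Finite := Set.toFinite _
    set N := hNfin.toFinset with hN
    have hNmem : ∀ u, u ∈ N ↔ u ∈ X₁ ∧ G.Adj v u := fun u => by
      rw [hN, Set.Finite.mem_toFinset]
      rfl
    have hNcard : N.card ≤ D := by
      rw [hN, ← Set.ncard_eq_toFinset_card _ hNfin]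
      refine (Set.ncard_le_ncard ?_ (Set.toFinite _)).trans (hG v)
      exact fun u hu => hu.2
    have hNa : N.card * a ≤ D * a := Nat.mul_le_mul_right a hNcard
    have hDa : (D + 1) * a = D * a + a := by ring
    by_cases hall : ∀ u ∈ N, Ch G I A (cmp G (X₁ \ {v}) u) a
    · have c1 := h2 G I A N (fun u => cmp G (X₁ \ {v}) u) a hK hall (by omega)
      have c2 := h3 G D I A v hG hK (by omega)
      have c3 := h1 G I A _ _ _ _ hK c1 c2 (by omega)
      have c4 := h1 G I A _ _ _ _ hK c3 hc2 (by omega)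
      refine hch (ch_mono c4 ?_ (by omega))
      intro x hx
      by_cases hx1 : x ∈ X₁
      · by_cases hxv : x = v
        · exact Or.inl (Or.inr hxv)
        · obtain ⟨u, hu, hvu, hxu⟩ := cover hX₁ hv hx1 hxv
          exact Or.inl (Or.inl ⟨u, (hNmem u).2 ⟨hu, hvu⟩, hxu⟩)
      · exact Or.inr ⟨hx, hx1⟩
    · push Not at hall
      obtain ⟨u, huN, hu⟩ := hall
      obtain ⟨hu1, hvu⟩ := (hNmem u).1 huN
      have hu' : u ∈ X₁ \ {v} := ⟨hu1, fun h => hvu.ne h.symm⟩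
      have hc : Cand (cmp G (X₁ \ {v}) u) := (hCand _).2 ⟨fun x hx => hsub (cmp_subset hx).1,
        cmp_connected hu', hu, Or.inr (rest hX₁ hsub hX₂ hv hadj)⟩
      have hlt : (cmp G (X₁ \ {v}) u).ncard < X₁.ncard := by
        apply Set.ncard_lt_ncard _ (Set.toFinite _)
        refine ⟨fun x hx => (cmp_subset hx).1, fun h => ?_⟩
        exact (cmp_subset (h hv)).2 rfl
      exact absurd (hmin _ hc) (not_le.2 hlt)
  have hX₂c : (G.induce (X \ X₁)).Connected := by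
    rcases hX₂ with h | h
    · exact absurd (h ▸ ch_empty a hIne) key
    · exact h
  exact ⟨X₁, X \ X₁, Set.union_diff_cancel hsub, Set.disjoint_sdiff_right, hX₁, hX₂c, hX₁ch, key⟩

end Pool.Agent.IM55.GC
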