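import Pool.Agent.Work.MP_55ff09_co.GC.Stmts

/-!
# MP_55ff09_co, block GC, item TAI: tails and paths
-/

set_option autoImplicit false

namespace Pool.Agent.IM55.GC

open SimpleGraph Pool.Agent.IM55 Pool.Agent.IM55.PL Pool.Agent.IM55.CL

namespace XTAI

variable {V : Type}

/-- the only vertex of `X z` in `R ∪ opN G R` is `z` -/
theorem only {G : SimpleGraph V} {R : Set V} {X : V → Set V}
    (hX : ∀ z ∈ opN G R, (G.induce (X z)).Connected ∧ z ∈ X z ∧ Disjoint (X z) R ∧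
      ∀ z' ∈ opN G R, z ≠ z' → Disjoint (X z) (X z') ∧ Touch G (X z) (X z'))
    {z x : V} (hz : z ∈ opN G R) (hx : x ∈ X z) (hxR : x ∈ R ∪ opN G R) : x = z := by
  rcases hxR with hxR | hxR
  · exact absurd hxR (Set.disjoint_left.1 (hX z hz).2.2.1 hx)
  · by_contra hne
    exact Set.disjoint_left.1 ((hX z hz).2.2.2 x hxR (fun e => hne e.symm)).1 hx (hX x hxR).2.1

theorem rng_mono {w : ℕ → V} {a b : ℕ} (h : a ≤ b) : rng w a ⊆ rng w b :=
  fun _ ⟨i, hi, e⟩ => ⟨i, hi.trans h, e⟩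

end XTAI

theorem i_TAI : S_TAI := by
  intro V _ G R Q U K w l α j X hRt hU hj hX
  have hz : ∀ c < K, w c 0 ∈ opN G R := hRt.z
  have h0 : ∀ c m, w c 0 ∈ rng (w c) m := fun c m => ⟨0, Nat.zero_le _, rfl⟩
  have hsub : ∀ c < K, rng (w c) (j c) ⊆ rng (w c) (l c) := fun c hc => XTAI.rng_mono (hj c hc)
  have hne : ∀ c < K, ∀ c' < K, c ≠ c' → w c 0 ≠ w c' 0 := by
    intro c hc c' hc' hcc e
    exact Set.disjoint_left.1 (hRt.dis c hc c' hc' hcc) (h0 c _) (e ▸ h0 c' _)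
  have hcross : ∀ c < K, ∀ c' < K, c ≠ c' → ∀ x, x ∈ rng (w c) (j c) → x ∉ X (w c' 0) := by
    intro c hc c' hc' hcc x hx hx'
    have hxl := hsub c hc hx
    have e := XTAI.only hX (hz c' hc') hx' (hRt.sub c hc hxl)
    subst e
    exact Set.disjoint_left.1 (hRt.dis c hc c' hc' hcc) hxl (h0 c' _)
  refine ⟨fun c => rng (w c) (j c) ∪ X (w c 0), fun c hc => ⟨?_, ?_, ?_⟩,
    fun c hc c' hc' hcc => ⟨?_, ?_⟩⟩
  · have hip : IP G (w c) (j c) :=
      ⟨fun i hi => (hRt.ip c hc).adj i (lt_of_lt_of_le hi (hj c hc)),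
        fun i hi i' hi' => (hRt.ip c hc).inj i (hi.trans (hj c hc)) i' (hi'.trans (hj c hc)),
        fun i hi i' hi' => (hRt.ip c hc).ind i (hi.trans (hj c hc)) i' (hi'.trans (hj c hc))⟩
    exact conn_union (rng_conn hip) (hX _ (hz c hc)).1
      ⟨w c 0, h0 c _, w c 0, (hX _ (hz c hc)).2.1, Or.inl rfl⟩
  · refine Set.disjoint_left.2 ?_
    rintro x (hx | hx) hxU
    · exact Set.disjoint_left.1 (hRt.off c hc) (hsub c hc hx) hxU
    · obtain ⟨q, hq, hxq⟩ := hxU
      exact Set.disjoint_left.1 (hX _ (hz c hc)).2.2.1 hx (hU q hq hxq)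
  · ext q
    unfold tch
    simp only [Finset.mem_filter]
    refine and_congr_right fun hq => ⟨?_, fun h => h.mono Set.subset_union_left le_rfl⟩
    rintro ⟨x, hx, y, hy, hxy⟩
    rcases hx with hx | hx
    · exact ⟨x, hx, y, hy, hxy⟩
    · have hxR : x ∉ R := Set.disjoint_left.1 (hX _ (hz c hc)).2.2.1 hx
      have hyR : y ∈ R := hU q hq hy
      have hadj : G.Adj x y := by
        rcases hxy with e | e
        · exact absurd (e ▸ hyR) hxR
        · exact e
      have hxo : x ∈ opN G R := ⟨hxR, y, hyR, hadj.symm⟩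
      have e := XTAI.only hX (hz c hc) hx (Or.inr hxo)
      exact ⟨x, e ▸ h0 c _, y, hy, hxy⟩
  · refine Set.disjoint_left.2 ?_
    rintro x (hx | hx) (hx' | hx')
    · exact Set.disjoint_left.1 (hRt.dis c hc c' hc' hcc) (hsub c hc hx) (hsub c' hc' hx')
    · exact hcross c hc c' hc' hcc x hx hx'
    · exact hcross c' hc' c hc (fun e => hcc e.symm) x hx' hx
    · exact Set.disjoint_left.1 ((hX _ (hz c hc)).2.2.2 _ (hz c' hc') (hne c hc c' hc' hcc)).1 hx hx'
  · exact ((hX _ (hz c hc)).2.2.2 _ (hz c' hc') (hne c hc c' hc' hcc)).2.mono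
      Set.subset_union_right Set.subset_union_right

end Pool.Agent.IM55.GC
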