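import Pool.Agent.Work.MP_55ff09_co.GC.Stmts

set_option autoImplicit false

namespace Pool.Agent.IM55.GC

open SimpleGraph Pool.Agent.IM55 Pool.Agent.IM55.PL Pool.Agent.IM55.CL

namespace XTCU

variable {V : Type} {G : SimpleGraph V} {D : ℕ} {Q : Finset (ℕ × ℕ)} {U : ℕ → ℕ → Set V}

theorem mem_tch (T : Set V) (q : ℕ × ℕ) :
    q ∈ tch G Q U T ↔ q ∈ Q ∧ Touch G T (U q.1 q.2) := by
  classical
  unfold tch
  rw [Finset.mem_filter]

theorem card_single [Finite V] (hG : DegLe G D)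
    (hd : ∀ q ∈ Q, ∀ q' ∈ Q, q ≠ q' → Disjoint (U q.1 q.2) (U q'.1 q'.2)) (v : V)
    (hv : v ∉ UQ U (Q : Set (ℕ × ℕ))) : (tch G Q U {v}).card ≤ D := by
  classical
  have h1 : ∀ q ∈ tch G Q U {v}, ∃ y, y ∈ U q.1 q.2 ∧ G.Adj v y := by
    intro q hq
    rw [mem_tch] at hq
    obtain ⟨hq, x, hx, y, hy, h⟩ := hq
    rw [Set.mem_singleton_iff] at hx
    subst hx
    rcases h with h | h
    · subst h
      exact absurd ⟨q, hq, hy⟩ hv
    · exact ⟨y, hy, h⟩
  have : Nonempty V := ⟨v⟩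
  choose! f hf using h1
  have hfin : (G.neighborSet v).Finite := Set.toFinite _
  have h2 : (tch G Q U {v}).card ≤ hfin.toFinset.card := by
    apply Finset.card_le_card_of_injOn f
    · intro q hq
      rw [Finset.mem_coe, Set.Finite.mem_toFinset]
      exact (hf q hq).2
    · intro q hq q' hq' he
      by_contra hne
      have hq1 := ((mem_tch _ _).1 hq).1
      have hq2 := ((mem_tch _ _).1 hq').1
      exact Set.disjoint_left.1 (hd q hq1 q' hq2 hne) (hf q hq).1 (he ▸ (hf q' hq').1)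
  have h3 : hfin.toFinset.card = (G.neighborSet v).ncard := (Set.ncard_eq_toFinset_card _ hfin).symm
  exact h2.trans (h3 ▸ hG v)

theorem tch_zero (w : ℕ → V) : tch G Q U (rng w 0) = tch G Q U {w 0} := by
  have : rng w 0 = {w 0} := by
    ext v
    simp only [rng, Set.mem_ofPred_eq, Set.mem_singleton_iff]
    constructor
    · rintro ⟨i, hi, rfl⟩
      rw [Nat.le_zero.1 hi]
    · rintro rfl
      exact ⟨0, le_refl _, rfl⟩
  rw [this]

theorem tch_succ (w : ℕ → V) (j : ℕ) :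
    (tch G Q U (rng w (j + 1))).card ≤ (tch G Q U (rng w j)).card + (tch G Q U {w (j + 1)}).card := by
  classical
  refine le_trans (Finset.card_le_card ?_) (Finset.card_union_le _ _)
  intro q hq
  rw [mem_tch] at hq
  obtain ⟨hq, x, ⟨i, hi, rfl⟩, y, hy, h⟩ := hq
  rw [Finset.mem_union, mem_tch, mem_tch]
  rcases Nat.lt_or_ge i (j + 1) with hi' | hi'
  · exact Or.inl ⟨hq, w i, ⟨i, Nat.lt_succ_iff.1 hi', rfl⟩, y, hy, h⟩
  · have : i = j + 1 := le_antisymm hi hi'
    subst this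
    exact Or.inr ⟨hq, _, rfl, y, hy, h⟩

end XTCU

open XTCU in
theorem i_TCU : S_TCU := by
  classical
  intro V _ G D K Q U w l hG hd hw
  have hv : ∀ i ≤ l, w i ∉ UQ U (Q : Set (ℕ × ℕ)) := fun i hi h =>
    Set.disjoint_left.1 hw ⟨i, hi, rfl⟩ h
  by_cases hex : ∃ j, j ≤ l ∧ K ≤ (tch G Q U (rng w j)).card
  · refine ⟨Nat.find hex, (Nat.find_spec hex).1, ?_, Or.inl (Nat.find_spec hex).2⟩
    rcases hj : Nat.find hex with _ | i
    · rw [tch_zero]
      exact (card_single hG hd _ (hv 0 (Nat.zero_le _))).trans (Nat.le_add_left _ _)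
    · have h1 : i + 1 ≤ l := hj ▸ (Nat.find_spec hex).1
      have h2 : ¬ (i ≤ l ∧ K ≤ (tch G Q U (rng w i)).card) :=
        Nat.find_min hex (by rw [hj]; exact Nat.lt_succ_self i)
      have h3 : (tch G Q U (rng w i)).card < K := by
        by_contra h
        exact h2 ⟨(Nat.le_succ i).trans h1, not_lt.1 h⟩
      have h4 := tch_succ (G := G) (Q := Q) (U := U) w i
      have h5 := card_single hG hd _ (hv (i + 1) h1)
      omega
  · refine ⟨l, le_refl _, ?_, Or.inr rfl⟩
    have : (tch G Q U (rng w l)).card < K := by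
      by_contra h
      exact hex ⟨l, le_refl _, not_lt.1 h⟩
    omega

end Pool.Agent.IM55.GC
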