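import Pool.Agent.Work.MP_55ff09_co.GC.Stmts
import Pool.Agent.Work.MP_55ff09_co.CL.Stmts

set_option autoImplicit false

namespace Pool.Agent.IM55.GC

open SimpleGraph Pool.Agent.IM55 Pool.Agent.IM55.PL Pool.Agent.IM55.CL

theorem i_TLZ (h1 : CL.S_LNK) (h2 : CL.S_OUT) (h3 : CL.S_MNQ) : S_TLZ := by
  intro q
  obtain ⟨M, hM⟩ := h1 0 q
  refine ⟨M + q, ?_⟩
  intro V _ G I A R hK hS hq hmin ht
  obtain ⟨E, hE, hc, hA⟩ := h2 G I A R hK hS
  obtain ⟨D, hD, -, hfo⟩ := hM G I A R E hK hE hA hmin (by omega)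
  exact h3 G I A R D q hK (hD.trans hE) (fun d hd => hA d (hD hd)) hq hfo

end Pool.Agent.IM55.GC
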