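import Pool.Agent.Work.MP_55ff09_co.GC.Stmts

/-!
# MP_55ff09_co, block GC, item TRN: transitivity of the induced minor relation
-/

set_option autoImplicit false

namespace Pool.Agent.IM55.GC

open SimpleGraph Pool.Agent.IM55 Pool.Agent.IM55.PL Pool.Agent.IM55.CL

namespace XTRN

variable {V W' : Type}

/-- the union of connected sets over a connected set of indices is connected -/
theorem conn (G : SimpleGraph V) (H' : SimpleGraph W') (Y : W' → Set V)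
    (hY : ∀ i, (G.induce (Y i)).Connected)
    (hadj : ∀ i j, H'.Adj i j → ∃ x ∈ Y i, ∃ y ∈ Y j, G.Adj x y) (S : Set W')
    (hS : (H'.induce S).Connected) : (G.induce {v | ∃ i ∈ S, v ∈ Y i}).Connected := by
  have h0 : ∀ a (ha : a ∈ S) u v (hu : u ∈ Y a) (hv : v ∈ Y a),
      (G.induce {v | ∃ i ∈ S, v ∈ Y i}).Reachable ⟨u, a, ha, hu⟩ ⟨v, a, ha, hv⟩ := by
    intro a ha u v hu hv
    have hr := (hY a).preconnected ⟨u, hu⟩ ⟨v, hv⟩
    let f : G.induce (Y a) →g G.induce {v | ∃ i ∈ S, v ∈ Y i} :=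
      { toFun := fun x => ⟨x.1, a, ha, x.2⟩
        map_rel' := fun h => h }
    exact hr.map f
  have h1 : ∀ a b : S, (H'.induce S).Walk a b → ∀ u v (hu : u ∈ Y a.1) (hv : v ∈ Y b.1),
      (G.induce {v | ∃ i ∈ S, v ∈ Y i}).Reachable ⟨u, a.1, a.2, hu⟩ ⟨v, b.1, b.2, hv⟩ := by
    intro a b p
    induction p with
    | nil => intro u v hu hv; exact h0 _ (Subtype.property _) u v hu hv
    | @cons a c b h q ih =>
      intro u v hu hv
      obtain ⟨x, hx, y, hy, hxy⟩ := hadj a.1 c.1 h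
      have r1 := h0 a.1 a.2 u x hu hx
      have r2 := ih y v hy hv
      have r3 : (G.induce {v | ∃ i ∈ S, v ∈ Y i}).Adj ⟨x, a.1, a.2, hx⟩ ⟨y, c.1, c.2, hy⟩ := hxy
      exact r1.trans (r3.reachable.trans r2)
  refine (connected_iff _).mpr ⟨?_, ?_⟩
  · rintro ⟨u, a, ha, hu⟩ ⟨v, b, hb, hv⟩
    obtain ⟨p⟩ := hS.preconnected ⟨a, ha⟩ ⟨b, hb⟩
    exact h1 _ _ p u v hu hv
  · obtain ⟨⟨a, ha⟩⟩ := hS.nonempty
    obtain ⟨⟨u, hu⟩⟩ := (hY a).nonempty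
    exact ⟨⟨u, a, ha, hu⟩⟩

end XTRN

theorem i_TRN : S_TRN := by
  rintro V W W' H H' G ⟨X, hX1, hX2, hX3⟩ ⟨Y, hY1, hY2, hY3⟩
  refine ⟨fun h => {v | ∃ i ∈ X h, v ∈ Y i}, fun h => ?_, fun h h' hh => ?_, fun h h' hh => ?_⟩
  · exact XTRN.conn G H' Y hY1 (fun i j hij => (hY3 i j hij.ne).mp hij) (X h) (hX1 h)
  · rw [Set.disjoint_left]
    rintro v ⟨i, hi, hvi⟩ ⟨j, hj, hvj⟩
    have hij : i ≠ j := by
      rintro rfl
      exact Set.disjoint_left.mp (hX2 h h' hh) hi hj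
    exact Set.disjoint_left.mp (hY2 i j hij) hvi hvj
  · rw [hX3 h h' hh]
    constructor
    · rintro ⟨i, hi, j, hj, hij⟩
      obtain ⟨x, hx, y, hy, hxy⟩ := (hY3 i j hij.ne).mp hij
      exact ⟨x, ⟨i, hi, hx⟩, y, ⟨j, hj, hy⟩, hxy⟩
    · rintro ⟨x, ⟨i, hi, hx⟩, y, ⟨j, hj, hy⟩, hxy⟩
      have hij : i ≠ j := by
        rintro rfl
        exact Set.disjoint_left.mp (hX2 h h' hh) hi hj
      exact ⟨i, hi, j, hj, (hY3 i j hij).mpr ⟨x, hx, y, hy, hxy⟩⟩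

end Pool.Agent.IM55.GC
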