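import Pool.Agent.Work.MP_55ff09_co.GC.Stmts

/-!
# MP_55ff09_co, block GC, item TWL: the quotient has large tree width
-/

set_option autoImplicit false

namespace Pool.Agent.IM55.GC

open SimpleGraph Pool.Agent.IM55 Pool.Agent.IM55.PL Pool.Agent.IM55.CL

namespace XTWL

/-- few of the disjoint sets meet a set with few elements -/
theorem few {V : Type} [Finite V] (p : ℕ) (X : ℕ → Set V) (S : Set V)
    (hd : ∀ i < p, ∀ j < p, i ≠ j → Disjoint (X i) (X j)) :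
    {k | k < p ∧ ¬ Disjoint (X k) S}.ncard ≤ S.ncard := by
  classical
  have h : ∀ k ∈ {k | k < p ∧ ¬ Disjoint (X k) S}, ∃ v, v ∈ X k ∧ v ∈ S := by
    rintro k ⟨-, hk⟩
    obtain ⟨v, h1, h2⟩ := Set.not_disjoint_iff.1 hk
    exact ⟨v, h1, h2⟩
  rcases isEmpty_or_nonempty V with hV | hV
  · have : {k | k < p ∧ ¬ Disjoint (X k) S} = ∅ := by
      refine Set.eq_empty_of_forall_notMem fun k hk => ?_
      obtain ⟨v, -, -⟩ := h k hk
      exact hV.elim v
    rw [this, Set.ncard_empty]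
    exact Nat.zero_le _
  choose! f hf using h
  refine Set.ncard_le_ncard_of_injOn f (fun k hk => (hf k hk).2) ?_ (Set.toFinite _)
  intro k hk k' hk' he
  by_contra hne
  have h1 := (hf k hk).1
  rw [he] at h1
  exact Set.disjoint_left.1 (hd k hk.1 k' hk'.1 hne) h1 (hf k' hk').1

theorem pick {V : Type} [Finite V] (p g : ℕ) (X : ℕ → Set V) (S S' : Set V)
    (hd : ∀ i < p, ∀ j < p, i ≠ j → Disjoint (X i) (X j)) (hS : S.ncard ≤ g)
    (hS' : S'.ncard ≤ g) (hp : 2 * g < p) :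
    ∃ k < p, Disjoint (X k) S ∧ Disjoint (X k) S' := by
  by_contra hcon
  push Not at hcon
  have h1 : {k | k < p} ⊆ {k | k < p ∧ ¬ Disjoint (X k) S} ∪ {k | k < p ∧ ¬ Disjoint (X k) S'} := by
    intro k hk
    by_cases h : Disjoint (X k) S
    · exact Or.inr ⟨hk, hcon k hk h⟩
    · exact Or.inl ⟨hk, h⟩
  have hf : ({k | k < p} : Set ℕ).Finite := Set.finite_lt_nat p
  have h2 : {k | k < p}.ncard ≤ S.ncard + S'.ncard := by
    refine (Set.ncard_le_ncard h1 ?_).trans ((Set.ncard_union_le _ _).trans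
      (Nat.add_le_add (few p X S hd) (few p X S' hd)))
    exact (hf.subset fun k hk => hk.1).union (hf.subset fun k hk => hk.1)
  have h3 : ({k | k < p} : Set ℕ).ncard = p := by
    have : ({k | k < p} : Set ℕ) = (Finset.range p : Set ℕ) := by
      ext k
      simp
    rw [this, Set.ncard_coe_finset, Finset.card_range]
  omega

end XTWL

open XTWL in
/-- TWL: the quotient has large tree width. -/
theorem i_TWL (h1 : S_UNF) (h2 : S_QTC) (h3 : S_BRB) : S_TWL := by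
  intro V _ G I A a g w a₁ b₁ p r R W X P hKM hFh hUn hW hXW hCW hPt hwg hga hwI hp htw
  classical
  -- the component for every small set of indices
  have key : ∀ Q : Set (Fin r), Q.ncard ≤ w + 1 → ∃ S C : Set V, S.ncard ≤ g ∧
      (G.induce C).Connected ∧ C ⊆ W ∧ (∀ k < p, Disjoint (X k) S → X k ⊆ C) ∧
      ∀ i ∈ Q, Disjoint (P i) C := by
    intro Q hQ
    have hc : Q.toFinset.card = Q.ncard := (Set.ncard_eq_toFinset_card' Q).symm
    have hb : Q.toFinset.card * b₁ ≤ (w + 1) * b₁ := Nat.mul_le_mul_right _ (hc ▸ hQ)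
    obtain ⟨R', hR1, hR2, hR3⟩ := h1 G I A Q.toFinset (fun i : Fin r => P i) b₁ hKM
      (fun i _ => hPt.up i i.2) (lt_of_le_of_lt hb hwI)
    have hSg : (opN G R').ncard ≤ g := hR3.trans (hb.trans hwg)
    have hin : ∀ Y : Set V, (G.induce Y).Connected → Disjoint Y (opN G R') →
        (Y ∩ R').Nonempty → Y ⊆ R' := by
      intro Y hY hd hne
      refine conn_subset hY hne fun u hu huR v hv ha => ?_
      by_contra hvR
      exact Set.disjoint_left.1 hd hv ⟨hvR, u, huR, ha⟩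
    obtain ⟨k₀, hk₀, hd₀, -⟩ := pick p g X (opN G R') (opN G R') hFh.dis hSg hSg hp
    have hX0 : ¬ (X k₀ ∩ R').Nonempty := by
      intro hne
      exact hFh.lo k₀ hk₀ ⟨R', hin _ (hFh.conn k₀ hk₀) hd₀ hne, hR2, hSg.trans hga⟩
    obtain ⟨⟨x, hx⟩⟩ := (hFh.conn k₀ hk₀).nonempty
    have hxO : x ∈ (R ∪ opN G R) \ opN G R' :=
      ⟨Or.inl (hFh.sub k₀ hk₀ hx), Set.disjoint_left.1 hd₀ hx⟩
    have hCc : (G.induce (cmp G ((R ∪ opN G R) \ opN G R') x)).Connected := cmp_connected hxO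
    have hCs : cmp G ((R ∪ opN G R) \ opN G R') x ⊆ (R ∪ opN G R) \ opN G R' := cmp_subset
    have hXC : ∀ k < p, Disjoint (X k) (opN G R') →
        X k ⊆ cmp G ((R ∪ opN G R) \ opN G R') x := by
      intro k hk hd
      obtain ⟨C', c1, c2, c3, c4⟩ := hUn (opN G R') hSg k₀ hk₀ k hk hd₀ hd
      exact c4.trans (subset_cmp c1 (c3 hx) c2)
    refine ⟨opN G R', cmp G ((R ∪ opN G R) \ opN G R') x, hSg, hCc, ?_, hXC, ?_⟩
    · exact hCW _ (fun v hv => (hCs hv).1) hCc ⟨x, mem_cmp_self hxO, hXW k₀ hk₀ hx⟩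
    · intro i hi
      rw [Set.disjoint_left]
      intro v hv hvC
      have hvR : v ∈ R' := hR1 ⟨i, Set.mem_toFinset.2 hi, hv⟩
      have hsub := hin _ hCc
        (Set.disjoint_left.2 fun u hu hu' => (hCs hu).2 hu') ⟨v, hvC, hvR⟩
      exact hX0 ⟨x, hx, hsub (mem_cmp_self hxO)⟩
  choose! S C hS hC hCW' hXC hPC using key
  refine h3 (qt G r P) w (fun Q => {i : Fin r | (P i ∩ C Q).Nonempty}) htw ?_ ?_
  · intro Q hQ
    refine ⟨h2 G r P (C Q) (hC Q hQ) fun v hv => (hPt.cov v).1 (hCW' Q hQ hv), ?_⟩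
    rw [Set.disjoint_left]
    rintro i ⟨v, hv1, hv2⟩ hi
    exact Set.disjoint_left.1 (hPC Q hQ i hi) hv1 hv2
  · intro Q Q' hQ hQ'
    obtain ⟨k, hk, d1, d2⟩ := pick p g X (S Q) (S Q') hFh.dis (hS Q hQ) (hS Q' hQ') hp
    obtain ⟨⟨x, hx⟩⟩ := (hFh.conn k hk).nonempty
    have x1 := hXC Q hQ k hk d1 hx
    have x2 := hXC Q' hQ' k hk d2 hx
    obtain ⟨i, hi, hxi⟩ := (hPt.cov x).1 (hCW' Q hQ x1)
    exact ⟨⟨i, hi⟩, ⟨x, hxi, x1⟩, ⟨x, hxi, x2⟩⟩

end Pool.Agent.IM55.GC
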