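import Pool.Agent.Work.MP_55ff09_co.GC.Stmts

/-! MP_55ff09_co, block GC, item TWM: tree width of induced subgraphs. -/

set_option autoImplicit false

namespace Pool.Agent.IM55.GC

open SimpleGraph Pool.Agent.IM55 Pool.Agent.IM55.PL Pool.Agent.IM55.CL

theorem i_TWM : S_TWM := by
  intro V G S T w hST hT
  obtain ⟨N, t, bag, ht, h1, h2, h3⟩ := hT
  let f : S → T := fun v => ⟨v.1, hST v.2⟩
  have hf : Function.Injective f := by
    intro u v huv
    have h := congrArg Subtype.val huv
    exact Subtype.ext h
  refine ⟨N, t, fun x => f ⁻¹' bag x, ht, fun v => h1 (f v), ?_, ?_⟩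
  · intro u v huv
    exact h2 (f u) (f v) huv
  · intro x
    have h4 : (f ⁻¹' bag x).encard = (f '' (f ⁻¹' bag x)).encard := (hf.encard_image _).symm
    show (f ⁻¹' bag x).encard ≤ w + 1
    rw [h4]
    exact (Set.encard_le_encard (Set.image_preimage_subset f (bag x))).trans (h3 x)

end Pool.Agent.IM55.GC
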