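import Pool.Agent.Work.MP_55ff09_co.GC.Stmts

/-!
# MP_55ff09_co, block GC: costs of finite unions (helper43)
-/

set_option autoImplicit false

namespace Pool.Agent.IM55.GC

open SimpleGraph Pool.Agent.IM55 Pool.Agent.IM55.PL Pool.Agent.IM55.CL

theorem i_UNF (h1 : S_UNI) : S_UNF := by
  classical
  intro V ι _ G I A s X b hKM
  induction s using Finset.induction_on with
  | empty =>
    intro _ h0
    simp only [Finset.card_empty, zero_mul] at h0
    obtain ⟨i, hi⟩ := Finset.card_pos.1 h0
    refine ⟨∅, ?_, ⟨i, hi, ?_⟩, ?_⟩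
    · rintro v ⟨i, hi, -⟩
      simp at hi
    · intro x hx
      simp at hx
    · have : opN G (∅ : Set V) = ∅ := by
        ext y
        simp [opN]
      rw [this]
      simp
  | insert a s ha ih =>
    intro hX hcard
    have hc : (insert a s).card * b = b + s.card * b := by
      rw [Finset.card_insert_of_notMem ha]; ring
    rw [hc] at hcard ⊢
    have h2 := ih (fun i hi => hX i (Finset.mem_insert_of_mem hi)) (by omega)
    have h3 := h1 G I A (X a) {v | ∃ i ∈ s, v ∈ X i} b (s.card * b) hKM
      (hX a (Finset.mem_insert_self a s)) h2 hcard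
    have h4 : {v | ∃ i ∈ insert a s, v ∈ X i} = X a ∪ {v | ∃ i ∈ s, v ∈ X i} := by
      ext v
      simp
    rw [h4]
    exact h3

end Pool.Agent.IM55.GC
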