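import Pool.Agent.Work.MP_55ff09_co.GC.Stmts
import Pool.Agent.Work.MP_55ff09_co.CL.Stmts

/-!
# MP_55ff09_co, block GC, item UNI: costs of unions
-/

set_option autoImplicit false

namespace Pool.Agent.IM55.GC

open SimpleGraph Pool.Agent.IM55 Pool.Agent.IM55.PL Pool.Agent.IM55.CL

theorem i_UNI (h : S_SMU) : S_UNI := by
  intro V _ G I A X Y b c hK hX hY hbc
  obtain ⟨R, hXR, hR, hRb⟩ := hX
  obtain ⟨R', hYR', hR', hRc⟩ := hY
  refine ⟨R ∪ R', Set.union_subset_union hXR hYR', ?_, ?_⟩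
  · exact h G I A R R' hK hR hR' (lt_of_le_of_lt (Nat.add_le_add hRb hRc) hbc)
  · have hsub : opN G (R ∪ R') ⊆ opN G R ∪ opN G R' := by
      rintro y ⟨hy, x, hx, hxy⟩
      rcases hx with hx | hx
      · exact Or.inl ⟨fun h' => hy (Or.inl h'), x, hx, hxy⟩
      · exact Or.inr ⟨fun h' => hy (Or.inr h'), x, hx, hxy⟩
    calc (opN G (R ∪ R')).ncard ≤ (opN G R ∪ opN G R').ncard :=
          Set.ncard_le_ncard hsub (Set.toFinite _)
      _ ≤ (opN G R).ncard + (opN G R').ncard := Set.ncard_union_le _ _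
      _ ≤ b + c := Nat.add_le_add hRb hRc

end Pool.Agent.IM55.GC
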