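import Pool.Agent.Work.MP_55ff09_co.GC.Stmts

/-!
# MP_55ff09_co, block GC, item UQC: the union of the cells of a connected set of positions
-/

set_option autoImplicit false

namespace Pool.Agent.IM55.GC

open SimpleGraph Pool.Agent.IM55 Pool.Agent.IM55.PL Pool.Agent.IM55.CL

namespace XUQC

variable {V : Type}

/-- reachability in an induced subgraph passes to larger sets -/
theorem reach_mono {G : SimpleGraph V} {A B : Set V} (h : A ⊆ B) {a b : V} (ha : a ∈ A)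
    (hb : b ∈ A) (hr : (G.induce A).Reachable ⟨a, ha⟩ ⟨b, hb⟩) :
    (G.induce B).Reachable ⟨a, h ha⟩ ⟨b, h hb⟩ :=
  hr.map (SimpleGraph.induceHomOfLE G h).toHom

/-- points of one cell are joined in the union -/
theorem cell {G : SimpleGraph V} {N : ℕ} {U : ℕ → ℕ → Set V} {Q : Set (ℕ × ℕ)} (hG : Gd G N U)
    (hQ : ∀ q ∈ Q, q.1 < N ∧ q.2 < N) (q : ℕ × ℕ) (hq : q ∈ Q) (a b : V) (ha : a ∈ U q.1 q.2)
    (hb : b ∈ U q.1 q.2) :
    (G.induce (UQ U Q)).Reachable ⟨a, q, hq, ha⟩ ⟨b, q, hq, hb⟩ := by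
  have h1 := (hG.conn q.1 (hQ q hq).1 q.2 (hQ q hq).2).preconnected ⟨a, ha⟩ ⟨b, hb⟩
  exact reach_mono (B := UQ U Q) (fun v hv => ⟨q, hq, hv⟩) ha hb h1

/-- points of the cells of two positions joined in `Q` are joined in the union -/
theorem walk {G : SimpleGraph V} {N : ℕ} {U : ℕ → ℕ → Set V} {Q : Set (ℕ × ℕ)} (hG : Gd G N U)
    (hQ : ∀ q ∈ Q, q.1 < N ∧ q.2 < N) {p q : Q} (w : (ngr.induce Q).Walk p q) :
    ∀ (a b : V) (ha : a ∈ U p.1.1 p.1.2) (hb : b ∈ U q.1.1 q.1.2),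
      (G.induce (UQ U Q)).Reachable ⟨a, p.1, p.2, ha⟩ ⟨b, q.1, q.2, hb⟩ := by
  induction w with
  | nil =>
    intro a b ha hb
    exact cell hG hQ _ (Subtype.property _) a b ha hb
  | @cons p r q hadj w ih =>
    intro a b ha hb
    have hadj' : Nb p.1 r.1 := hadj
    have hne : (p.1.1, p.1.2) ≠ (r.1.1, r.1.2) := fun e => by
      have : p = r := Subtype.ext (Prod.ext (congrArg Prod.fst e) (congrArg Prod.snd e))
      exact (ngr.induce Q).ne_of_adj hadj this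
    obtain ⟨x, hx, y, hy, hxy⟩ := (hG.adj p.1.1 (hQ p.1 p.2).1 p.1.2 (hQ p.1 p.2).2 r.1.1
      (hQ r.1 r.2).1 r.1.2 (hQ r.1 r.2).2 hne).2 hadj'
    have h1 := cell hG hQ p.1 p.2 a x ha hx
    have h2 : (G.induce (UQ U Q)).Reachable ⟨x, p.1, p.2, hx⟩ ⟨y, r.1, r.2, hy⟩ := by
      rcases hxy with hxy | hxy
      · subst hxy
        exact SimpleGraph.Reachable.refl _
      · have h3 : (G.induce (UQ U Q)).Adj ⟨x, p.1, p.2, hx⟩ ⟨y, r.1, r.2, hy⟩ := hxy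
        exact h3.reachable
    exact (h1.trans h2).trans (ih y b hy hb)

end XUQC

open XUQC in
/-- Item UQC. -/
theorem i_UQC : S_UQC := by
  intro V G N U Q hG hQ hc
  obtain ⟨q0⟩ := hc.nonempty
  have hne : (U q0.1.1 q0.1.2).Nonempty := by
    obtain ⟨v⟩ := (hG.conn q0.1.1 (hQ q0.1 q0.2).1 q0.1.2 (hQ q0.1 q0.2).2).nonempty
    exact ⟨v.1, v.2⟩
  obtain ⟨v0, hv0⟩ := hne
  have : Nonempty (UQ U Q) := ⟨⟨v0, q0.1, q0.2, hv0⟩⟩
  refine ⟨?_⟩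
  rintro ⟨a, p, hp, ha⟩ ⟨b, q, hq, hb⟩
  obtain ⟨w⟩ := hc.preconnected ⟨p, hp⟩ ⟨q, hq⟩
  exact walk hG hQ w a b ha hb

end Pool.Agent.IM55.GC
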