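import Pool.Agent.Work.MP_55ff09_co.PL.I_IPA
import Pool.Agent.Work.MP_55ff09_co.PL.I_MEN
import Pool.Agent.Work.MP_55ff09_co.PL.I_MPC
import Pool.Agent.Work.MP_55ff09_co.CL.I_ANT
import Pool.Agent.Work.MP_55ff09_co.CL.I_CNF
import Pool.Agent.Work.MP_55ff09_co.CL.I_FSB
import Pool.Agent.Work.MP_55ff09_co.CL.I_LNK
import Pool.Agent.Work.MP_55ff09_co.CL.I_MNQ
import Pool.Agent.Work.MP_55ff09_co.CL.I_OUT
import Pool.Agent.Work.MP_55ff09_co.CL.I_SMU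
import Pool.Agent.Work.MP_55ff09_co.CL.I_STP
import Pool.Agent.Work.MP_55ff09_co.CL.I_SUB
import Pool.Agent.Work.MP_55ff09_co.GC.I_ASQ
import Pool.Agent.Work.MP_55ff09_co.GC.I_ASR
import Pool.Agent.Work.MP_55ff09_co.GC.I_BRB
import Pool.Agent.Work.MP_55ff09_co.GC.I_CEN
import Pool.Agent.Work.MP_55ff09_co.GC.I_CN2
import Pool.Agent.Work.MP_55ff09_co.GC.I_CRS
import Pool.Agent.Work.MP_55ff09_co.GC.I_CTS
import Pool.Agent.Work.MP_55ff09_co.GC.I_EMQ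
import Pool.Agent.Work.MP_55ff09_co.GC.I_ESC
import Pool.Agent.Work.MP_55ff09_co.GC.I_FNL
import Pool.Agent.Work.MP_55ff09_co.GC.I_GRD
import Pool.Agent.Work.MP_55ff09_co.GC.I_HND
import Pool.Agent.Work.MP_55ff09_co.GC.I_HVN
import Pool.Agent.Work.MP_55ff09_co.GC.I_HYP
import Pool.Agent.Work.MP_55ff09_co.GC.I_IMI
import Pool.Agent.Work.MP_55ff09_co.GC.I_LAY
import Pool.Agent.Work.MP_55ff09_co.GC.I_MCT
import Pool.Agent.Work.MP_55ff09_co.GC.I_MRG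
import Pool.Agent.Work.MP_55ff09_co.GC.I_PCK
import Pool.Agent.Work.MP_55ff09_co.GC.I_PRT
import Pool.Agent.Work.MP_55ff09_co.GC.I_QTC
import Pool.Agent.Work.MP_55ff09_co.GC.I_QTM
import Pool.Agent.Work.MP_55ff09_co.GC.I_RCT
import Pool.Agent.Work.MP_55ff09_co.GC.I_ROO
import Pool.Agent.Work.MP_55ff09_co.GC.I_RTE
import Pool.Agent.Work.MP_55ff09_co.GC.I_SDR
import Pool.Agent.Work.MP_55ff09_co.GC.I_SEP
import Pool.Agent.Work.MP_55ff09_co.GC.I_SHF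
import Pool.Agent.Work.MP_55ff09_co.GC.I_SHT
import Pool.Agent.Work.MP_55ff09_co.GC.I_SNG
import Pool.Agent.Work.MP_55ff09_co.GC.I_SPL
import Pool.Agent.Work.MP_55ff09_co.GC.I_TAI
import Pool.Agent.Work.MP_55ff09_co.GC.I_TCU
import Pool.Agent.Work.MP_55ff09_co.GC.I_TLZ
import Pool.Agent.Work.MP_55ff09_co.GC.I_TRN
import Pool.Agent.Work.MP_55ff09_co.GC.I_TWL
import Pool.Agent.Work.MP_55ff09_co.GC.I_TWM
import Pool.Agent.Work.MP_55ff09_co.GC.I_UNF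
import Pool.Agent.Work.MP_55ff09_co.GC.I_UNI
import Pool.Agent.Work.MP_55ff09_co.GC.I_UQC

/-!
# MP_55ff09_co, block GC: the theorem
-/

set_option autoImplicit false

namespace Pool.Agent.IM55.GC

open Pool.Agent.IM55 Pool.Agent.IM55.PL Pool.Agent.IM55.CL

theorem main : S_FNL := by
  have hIPA : S_IPA := PL.i_IPA
  have hMEN : S_MEN := PL.i_MEN hIPA
  have hMPC : S_MPC := PL.i_MPC hIPA
  have hSMU : S_SMU := CL.i_SMU
  have hLNK : CL.S_LNK := CL.i_LNK (CL.i_STP CL.i_CNF (CL.i_FSB CL.i_SUB) CL.i_ANT)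
  have hMNQ : CL.S_MNQ := CL.i_MNQ hMEN hMPC
  have hUNI : S_UNI := i_UNI hSMU
  have hUNF : S_UNF := i_UNF hUNI
  have hSNG : S_SNG := i_SNG
  have hPRT : S_PRT := i_PRT (i_SPL hUNI hUNF hSNG)
  have hSEP : S_SEP := i_SEP i_LAY i_TWM i_CTS
  have hPCK : S_PCK := i_PCK hPRT i_MRG i_IMI i_QTM (i_HYP hSEP) hUNF
  have hTWL : S_TWL := i_TWL hUNF i_QTC i_BRB
  have hCEN : S_CEN := i_CEN hUNI hUNF hSNG hPRT i_MRG hPCK i_HVN hTWL (i_GRD i_IMI i_QTM)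
  have hMCT : S_MCT := i_MCT hMEN hIPA
  have hROO : S_ROO := i_ROO hMCT i_CN2 (i_ESC hIPA) i_UQC i_RCT (i_CRS i_UQC i_RCT)
  have hASQ : S_ASQ := i_ASQ (i_ASR i_UQC i_RCT i_RTE i_IMI) i_SHF
  exact i_FNL hCEN (i_TLZ hLNK CL.i_OUT hMNQ) hROO i_TCU i_TAI i_SDR hASQ i_SHF i_SHT

theorem final : S_HND := i_HND i_EMQ main i_TRN

end Pool.Agent.IM55.GC
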